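import Mathlib
import Pool.Agent.Lib.H19B.D
import Pool.Agent.Lib.H55K.SD
import Pool.Agent.Lib.H55K.G4C
import Pool.Agent.Lib.H55K.SCH
import Pool.Agent.Lib.H55K.SPA1

/-! # H19B: definitions for the elliptic curves -/

open NumberField IsDedekindDomain WeierstrassCurve

namespace H19B

open H55P (IQ Pt ac Dec Inert decS)
open H35P (WAB Ker tt)
open H55K (Tor CMA Dta GV ak cj)

/-- The decomposition group of V over the field N. -/
def DN {F : Type} [Field F] {Ω : Type} [Field Ω] [Algebra F Ω] (N : IntermediateField F Ω) (V : ValuationSubring Ω) :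
    Subgroup (Ω ≃ₐ[F] Ω) := N.fixingSubgroup ⊓ decS F V

section

variable {F : Type} [Field F] {Ω : Type} [Field Ω] [Algebra F Ω]

theorem mem_DN {N : IntermediateField F Ω} {V : ValuationSubring Ω} {s : Ω ≃ₐ[F] Ω} :
    s ∈ DN N V ↔ s ∈ N.fixingSubgroup ∧ Dec V s := Iff.rfl

end

variable {F : Type} [Field F] [NumberField F] [IQ F] {A B : F} {Ω : Type} [Field Ω] [DecidableEq Ω]
  [Algebra F Ω] {act : 𝓞 F →+* AddMonoid.End (Pt (WAB A B) Ω)}

/-- The frame X belongs to the curve, the prime element π of value less than 1 and the field N: E and C are the subgroups of D which fix the points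
killed by the conjugate of π and by p, w is in N, the residue classes are represented by elements of N, and D acts on the points killed by
the conjugate of π through et, and on the points killed by π through om / et. -/
structure Of (X : Frm F Ω) (act : 𝓞 F →+* AddMonoid.End (Pt (WAB A B) Ω)) (π : 𝓞 F) (N : IntermediateField F Ω) : Prop where
  ok : X.Ok
  D : X.D = DN N X.V
  E : ∀ s : Ω ≃ₐ[F] Ω, s ∈ X.E ↔ s ∈ X.D ∧ ∀ T : Pt (WAB A B) Ω, act (cj π) T = 0 → ac (WAB A B) s T = T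
  C : ∀ s : Ω ≃ₐ[F] Ω, s ∈ X.C ↔ s ∈ X.D ∧ ∀ T : Pt (WAB A B) Ω, X.p • T = 0 → ac (WAB A B) s T = T
  wN : X.w ∈ N
  rs : ∃ r : Fin X.q → Ω, (∀ i, r i ∈ N ∧ X.V.valuation (r i) ≤ 1) ∧ (∀ i i', i ≠ i' → X.V.valuation (r i - r i') = 1) ∧
    ∀ x : Ω, (∀ s ∈ X.D, s x = x) → X.V.valuation x ≤ 1 → ∃ i, X.V.valuation (x - r i) < 1
  ch : ∀ s ∈ X.D, ∀ T : Pt (WAB A B) Ω, act π T = 0 → (X.et s).val • ac (WAB A B) s T = (X.om s).val • T
  ch' : ∀ s ∈ X.D, ∀ T : Pt (WAB A B) Ω, act (cj π) T = 0 → ac (WAB A B) s T = (X.et s).val • T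

/-- c is a continuous cocycle on D with values in the points killed by π. -/
structure Cc (D : Subgroup (Ω ≃ₐ[F] Ω)) (act : 𝓞 F →+* AddMonoid.End (Pt (WAB A B) Ω)) (π : 𝓞 F)
    (c : (Ω ≃ₐ[F] Ω) → Pt (WAB A B) Ω) : Prop where
  mul : ∀ s ∈ D, ∀ t ∈ D, c (s * t) = c s + ac (WAB A B) s (c t)
  tor : ∀ s ∈ D, act π (c s) = 0
  cont : ∃ L : IntermediateField F Ω, FiniteDimensional F L ∧ ∀ s ∈ D, s ∈ L.fixingSubgroup → c s = 0

/-- The group of these cocycles. -/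
def CS (D : Subgroup (Ω ≃ₐ[F] Ω)) (act : 𝓞 F →+* AddMonoid.End (Pt (WAB A B) Ω)) (π : 𝓞 F) :
    AddSubgroup ((Ω ≃ₐ[F] Ω) → Pt (WAB A B) Ω) where
  carrier := {c | Cc D act π c}
  zero_mem' := ⟨fun s _ t _ => by simp, fun s _ => by simp, ⊥, inferInstance, fun s _ _ => rfl⟩
  add_mem' := by
    rintro a b ⟨a1, a2, L, hL, a3⟩ ⟨b1, b2, L', hL', b3⟩
    refine ⟨fun s hs t ht => ?_, fun s hs => ?_, L ⊔ L', IntermediateField.finiteDimensional_sup L L', fun s hs hs' => ?_⟩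
    · rw [Pi.add_apply, Pi.add_apply, Pi.add_apply, a1 s hs t ht, b1 s hs t ht, map_add]
      abel
    · rw [Pi.add_apply, map_add, a2 s hs, b2 s hs, add_zero]
    · rw [IntermediateField.fixingSubgroup_sup] at hs'
      rw [Pi.add_apply, a3 s hs hs'.1, b3 s hs hs'.2, add_zero]
  neg_mem' := by
    rintro a ⟨a1, a2, L, hL, a3⟩
    refine ⟨fun s hs t ht => ?_, fun s hs => ?_, L, hL, fun s hs hs' => ?_⟩
    · rw [Pi.neg_apply, Pi.neg_apply, Pi.neg_apply, a1 s hs t ht, map_neg]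
      abel
    · rw [Pi.neg_apply, map_neg, a2 s hs, neg_zero]
    · rw [Pi.neg_apply, a3 s hs hs', neg_zero]

theorem mem_CS (D : Subgroup (Ω ≃ₐ[F] Ω)) (π : 𝓞 F) (c : (Ω ≃ₐ[F] Ω) → Pt (WAB A B) Ω) : c ∈ CS D act π ↔ Cc D act π c :=
  Iff.rfl

/-- The cocycles which are, on the inertia group, the coboundary of a point killed by π. -/
def CI (D : Subgroup (Ω ≃ₐ[F] Ω)) (V : ValuationSubring Ω) (act : 𝓞 F →+* AddMonoid.End (Pt (WAB A B) Ω)) (π : 𝓞 F) :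
    AddSubgroup ((Ω ≃ₐ[F] Ω) → Pt (WAB A B) Ω) where
  carrier := {c | Cc D act π c ∧ ∃ T : Pt (WAB A B) Ω, act π T = 0 ∧ ∀ s ∈ D, Inert V s → c s = ac (WAB A B) s T - T}
  zero_mem' := ⟨(CS D act π).zero_mem, 0, map_zero _, fun s _ _ => by rw [Pi.zero_apply, map_zero, sub_zero]⟩
  add_mem' := by
    rintro a b ⟨a1, T, a2, a3⟩ ⟨b1, T', b2, b3⟩
    refine ⟨(CS D act π).add_mem a1 b1, T + T', by rw [map_add, a2, b2, add_zero], fun s hs hi => ?_⟩
    rw [Pi.add_apply, a3 s hs hi, b3 s hs hi, map_add]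
    abel
  neg_mem' := by
    rintro a ⟨a1, T, a2, a3⟩
    refine ⟨(CS D act π).neg_mem a1, -T, by rw [map_neg, a2, neg_zero], fun s hs hi => ?_⟩
    rw [Pi.neg_apply, a3 s hs hi, map_neg]
    abel

theorem mem_CI (D : Subgroup (Ω ≃ₐ[F] Ω)) (V : ValuationSubring Ω) (π : 𝓞 F) (c : (Ω ≃ₐ[F] Ω) → Pt (WAB A B) Ω) :
    c ∈ CI D V act π ↔
      Cc D act π c ∧ ∃ T : Pt (WAB A B) Ω, act π T = 0 ∧ ∀ s ∈ D, Inert V s → c s = ac (WAB A B) s T - T :=
  Iff.rfl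

/-- The points P in the kernel of reduction at V, fixed by D, with V(t(P)) ≤ V(w)^(i+1). -/
def EF {V : ValuationSubring Ω} (hG : GV A B V) (D : Subgroup (Ω ≃ₐ[F] Ω)) (w : Ω) (hw : V.valuation w < 1) (i : ℕ) :
    AddSubgroup (Pt (WAB A B) Ω) where
  carrier := {P | Ker V P ∧ (∀ s ∈ D, ac (WAB A B) s P = P) ∧ V.valuation (tt P) ≤ V.valuation w ^ (i + 1)}
  zero_mem' := ⟨trivial, fun s _ => map_zero _, by
    have e : tt (0 : Pt (WAB A B) Ω) = 0 := rfl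
    rw [e, map_zero]
    exact zero_le⟩
  add_mem' := by
    rintro P Q ⟨a1, a2, a3⟩ ⟨b1, b2, b3⟩
    refine ⟨H55K.kadd hG a1 b1, fun s hs => by rw [map_add, a2 s hs, b2 s hs], ?_⟩
    have h1 := H55K.tt_add2 hG a1 b1 (V.valuation w ^ (i + 1)) a3 b3
    have h2 : (V.valuation w ^ (i + 1)) ^ 2 ≤ V.valuation w ^ (i + 1) := by
      rw [sq]
      exact mul_le_of_le_one_left' (pow_le_one' hw.le _)
    have e : tt (P + Q) = (tt (P + Q) - tt P - tt Q) + tt P + tt Q := by ring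
    rw [e]
    exact V.valuation.map_add_le (V.valuation.map_add_le (h1.trans h2) a3) b3
  neg_mem' := by
    rintro P ⟨a1, a2, a3⟩
    refine ⟨H55K.kneg a1, fun s hs => by rw [map_neg, a2 s hs], ?_⟩
    rw [H55K.tt_neg, Valuation.map_neg]
    exact a3

theorem mem_EF {V : ValuationSubring Ω} (hG : GV A B V) (D : Subgroup (Ω ≃ₐ[F] Ω)) (w : Ω) (hw : V.valuation w < 1) (i : ℕ)
    (P : Pt (WAB A B) Ω) : P ∈ EF hG D w hw i ↔
      Ker V P ∧ (∀ s ∈ D, ac (WAB A B) s P = P) ∧ V.valuation (tt P) ≤ V.valuation w ^ (i + 1) := Iff.rfl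

end H19B
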