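import Mathlib
import Pool.Agent.Lib.H19B.D2
import Pool.Agent.Lib.H55K.SDI

/-! # H19B, chunk F3 (M): the characters of the Galois group on the points killed by π -/

open NumberField IsDedekindDomain WeierstrassCurve

namespace H19B

open H55P (IQ Pt ac Dec Inert decS Nm)
open H35P (WAB Ker tt)
open H55K (Tor CMA Dta GV ak cj)

variable {F : Type} [Field F] [NumberField F] [IQ F] {A B : F} {Om : ℂ} {Ω : Type} [Field Ω] [DecidableEq Ω]
  [Algebra F Ω] [IsAlgClosure F Ω] {j : Ω →+* ℂ} {act : 𝓞 F →+* AddMonoid.End (Pt (WAB A B) Ω)} {mo : Ideal (𝓞 F)}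
  {ψ : Ideal (𝓞 F) →*₀ 𝓞 F} {p : ℕ} {V : ValuationSubring Ω} {π : 𝓞 F}

omit [IQ F] in
/-- In a residue field with a prime number of elements every element is a natural number. -/
theorem f3_natmod {π : 𝓞 F} {l : ℕ} (hl : l.Prime) (hN : Nm π = l) (a : 𝓞 F) : ∃ n : ℕ, π ∣ a - (n : 𝓞 F) := by
  have hc : Nat.card (𝓞 F ⧸ Ideal.span {π}) = l := hN
  have hfin : Finite (𝓞 F ⧸ Ideal.span {π}) := Nat.finite_of_card_ne_zero (by rw [hc]; exact hl.ne_zero)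
  let : Fintype (𝓞 F ⧸ Ideal.span {π}) := Fintype.ofFinite _
  have hl0 : NeZero l := ⟨hl.ne_zero⟩
  rw [Nat.card_eq_fintype_card] at hc
  let e := ZMod.ringEquivOfPrime (𝓞 F ⧸ Ideal.span {π}) hl hc
  refine ⟨(e.symm (Ideal.Quotient.mk (Ideal.span {π}) a)).val, ?_⟩
  rw [← Ideal.mem_span_singleton, ← Ideal.Quotient.eq, map_natCast]
  have h1 : e (((e.symm (Ideal.Quotient.mk (Ideal.span {π}) a)).val : ℕ) : ZMod l) =
      Ideal.Quotient.mk (Ideal.span {π}) a := by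
    rw [ZMod.natCast_val, ZMod.cast_id, RingEquiv.apply_symm_apply]
  exact h1.symm.trans (map_natCast e _)

theorem f3_split (hp : p.Prime) (unr : ∀ v : HeightOneSpectrum (𝓞 F), (p : 𝓞 F) ∉ v.asIdeal ^ 2)
    (hπ : Prime π) (hd : π ∣ (p : 𝓞 F)) (hs : ¬ π ∣ cj π) : Nm π = p ∧ π * cj π = (p : 𝓞 F) := by
  rcases H55K.S.dichotomy hp unr hπ hd with h1 | h1
  · exact absurd h1.1.symm.dvd hs
  · exact ⟨h1.2.2.1, h1.2.2.2⟩

omit [IsAlgClosure F Ω] in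
theorem f3_gen (h : CMA F A B Om j act) (hp : p.Prime) (unr : ∀ v : HeightOneSpectrum (𝓞 F), (p : 𝓞 F) ∉ v.asIdeal ^ 2)
    (hπ : Prime π) (hd : π ∣ (p : 𝓞 F)) (hs : ¬ π ∣ cj π) :
    ∃ T₀ : Pt (WAB A B) Ω, act π T₀ = 0 ∧ (∀ T : Pt (WAB A B) Ω, act π T = 0 → ∃ a : ZMod p, T = a.val • T₀) ∧
      p • T₀ = 0 ∧ T₀ ≠ 0 ∧ ∀ m n : ℕ, m • T₀ = n • T₀ → (m : ZMod p) = n := by
  have hN := (f3_split hp unr hπ hd hs).1
  have hpf : Fact p.Prime := ⟨hp⟩
  obtain ⟨T₀, h1, h2, h3, _⟩ := h.gen π hπ.ne_zero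
  have h4 : T₀ ≠ 0 := by
    intro h0
    have h5 := (h3 1).1 (by rw [h0, map_zero])
    exact hπ.not_isUnit (isUnit_of_dvd_one h5)
  have h5 : p • T₀ = 0 := by
    rw [← H55K.S.act_nat (act := act)]
    exact (h3 _).2 hd
  have h6 : addOrderOf T₀ = p := addOrderOf_eq_prime h5 h4
  refine ⟨T₀, h1, fun T hT => ?_, h5, h4, fun m n hmn => ?_⟩
  · obtain ⟨a, ha⟩ := h2 T hT
    obtain ⟨n, hn⟩ := f3_natmod hp hN a
    refine ⟨(n : ZMod p), ?_⟩
    have h7 : act a T₀ = n • T₀ := by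
      have h8 : act (a - n) T₀ = 0 := (h3 _).2 hn
      rw [H55K.S.act_sub, H55K.S.act_nat, sub_eq_zero] at h8
      exact h8
    rw [ha, h7, ZMod.val_natCast]
    exact nsmul_eq_nsmul_iff_modEq.2 (by rw [h6]; exact (Nat.mod_modEq n p).symm)
  · rw [nsmul_eq_nsmul_iff_modEq, h6] at hmn
    exact (ZMod.natCast_eq_natCast_iff m n p).2 hmn

omit [IsAlgClosure F Ω] in
/-- Chunk F3 (M). PROOF. T₀ ≠ 0 in Tor act π with all T in Tor act π of the form act a T₀ and act a T₀ = 0 iff π divides a (h.gen π). Nm π = p (H55K.S.dichotomy with unr, π does not divide cj π), so every a in 𝓞 F is congruent modulo π to a natural number k (𝓞 F / π has p elements and characteristic p: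
the map ZMod p → 𝓞 F / π is injective between finite sets of p elements; or PA1 lemmas), and act a T₀ = k • T₀. So every T in Tor act π is k • T₀ with k in ZMod p unique (k • T₀ = 0 iff p divides k: π divides k, p = Nm π divides Nm k = k^2), k.val for the representative.
κ s := the k with ac s T₀ = k.val • T₀ (ac_mem). All T = m • T₀: ac s T = k.val • T. Multiplicativity: ac (s t) = ac s ac t; uniqueness; κ s ≠ 0 as ac s is injective. If s fixes Tor act π then κ s = 1 (uniqueness; 1.val = 1 as p > 1). -/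
theorem exists_ch (h : CMA F A B Om j act) (hp : p.Prime) (unr : ∀ v : HeightOneSpectrum (𝓞 F), (p : 𝓞 F) ∉ v.asIdeal ^ 2)
    (hπ : Prime π) (hd : π ∣ (p : 𝓞 F)) (hs : ¬ π ∣ cj π) :
    ∃ κ : (Ω ≃ₐ[F] Ω) → ZMod p, (∀ s, ∀ T : Pt (WAB A B) Ω, act π T = 0 → ac (WAB A B) s T = (κ s).val • T) ∧
      (∀ s t, κ (s * t) = κ s * κ t) ∧ (∀ s, κ s ≠ 0) ∧
      ∀ s, (κ s = 1 ↔ ∀ T : Pt (WAB A B) Ω, act π T = 0 → ac (WAB A B) s T = T) := by
  have hpf : Fact p.Prime := ⟨hp⟩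
  have hp1 : Fact (1 < p) := ⟨hp.one_lt⟩
  obtain ⟨T₀, h1, h2, _, h4, h5⟩ := f3_gen h hp unr hπ hd hs
  have h6 : ∀ s : Ω ≃ₐ[F] Ω, ∃ k : ZMod p, ac (WAB A B) s T₀ = k.val • T₀ := fun s =>
    h2 _ (H55K.S.ac_mem h s (H55K.S.mem_Tor.2 h1))
  choose κ hκ using h6
  have h7 : ∀ s, ∀ T : Pt (WAB A B) Ω, act π T = 0 → ac (WAB A B) s T = (κ s).val • T := by
    intro s T hT
    obtain ⟨a, ha⟩ := h2 T hT
    rw [ha, map_nsmul, hκ s, ← mul_nsmul, ← mul_nsmul, mul_comm]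
  refine ⟨κ, h7, fun s t => ?_, fun s h0 => ?_, fun s => ⟨fun hk T hT => ?_, fun hk => ?_⟩⟩
  · have h8 : (κ (s * t)).val • T₀ = ((κ t).val * (κ s).val) • T₀ := by
      rw [← hκ (s * t), H55K.S.ac_mul, hκ t, map_nsmul, hκ s, ← mul_nsmul, mul_comm]
    have h9 := h5 _ _ h8
    rw [Nat.cast_mul, ZMod.natCast_zmod_val, ZMod.natCast_zmod_val, ZMod.natCast_zmod_val] at h9
    rw [h9, mul_comm]
  · have h8 := hκ s
    rw [h0, ZMod.val_zero, zero_smul] at h8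
    exact H55K.S.ac_ne s h4 h8
  · rw [h7 s T hT, hk, ZMod.val_one, one_smul]
  · have h8 : (κ s).val • T₀ = 1 • T₀ := by rw [← hκ s, hk T₀ h1, one_smul]
    have h9 := h5 _ _ h8
    rwa [ZMod.natCast_zmod_val, Nat.cast_one] at h9

omit [IsAlgClosure F Ω] in
/-- Chunk F3 (S/M). The group of the points killed by π is cyclic of order p. -/
theorem exists_T0 (h : CMA F A B Om j act) (hp : p.Prime) (unr : ∀ v : HeightOneSpectrum (𝓞 F), (p : 𝓞 F) ∉ v.asIdeal ^ 2)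
    (hπ : Prime π) (hd : π ∣ (p : 𝓞 F)) (hs : ¬ π ∣ cj π) :
    ∃ T₀ : Pt (WAB A B) Ω, act π T₀ = 0 ∧ (∀ T : Pt (WAB A B) Ω, act π T = 0 → ∃ a : ZMod p, T = a.val • T₀) ∧
      (∀ a : ZMod p, a.val • T₀ = 0 → a = 0) ∧ p • T₀ = 0 := by
  have hpf : Fact p.Prime := ⟨hp⟩
  obtain ⟨T₀, h1, h2, h3, _, h5⟩ := f3_gen h hp unr hπ hd hs
  refine ⟨T₀, h1, h2, fun a ha => ?_, h3⟩
  have h6 := h5 a.val 0 (by rw [ha, zero_smul])
  rwa [ZMod.natCast_zmod_val, Nat.cast_zero] at h6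

omit [IsAlgClosure F Ω] in
/-- Chunk F3 (S). A point killed by p is the sum of a point killed by π and one killed by cj π. PROOF. π * cj π = p (dichotomy); π and cj π are coprime in the principal ideal ring 𝓞 F: u π + v cj π = 1; T = act (v cj π) T + act (u π) T. -/
theorem tors_split (h : CMA F A B Om j act) (hp : p.Prime) (unr : ∀ v : HeightOneSpectrum (𝓞 F), (p : 𝓞 F) ∉ v.asIdeal ^ 2)
    (hπ : Prime π) (hd : π ∣ (p : 𝓞 F)) (hs : ¬ π ∣ cj π) : π * cj π = (p : 𝓞 F) ∧ ∃ u v : 𝓞 F, u * π + v * cj π = 1 := by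
  refine ⟨(f3_split hp unr hπ hd hs).2, ?_⟩
  exact (hπ.irreducible.coprime_iff_not_dvd).2 hs

end H19B
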