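import Mathlib
import Pool.Agent.Lib.H19B.D2
import Pool.Agent.Lib.H55P.S1

/-! # H19B, chunk C1 (S/M): Kummer cocycles -/

open NumberField IsDedekindDomain WeierstrassCurve

namespace H19B

open H55P (IQ Pt ac Dec Inert decS Nm)
open H35P (WAB Ker tt)
open H55K (Tor CMA Dta GV ak cj)

variable {F : Type} [Field F] [NumberField F] [IQ F] {A B : F} {Om : ℂ} {Ω : Type} [Field Ω] [DecidableEq Ω]
  [Algebra F Ω] [IsAlgClosure F Ω] {j : Ω →+* ℂ} {act : 𝓞 F →+* AddMonoid.End (Pt (WAB A B) Ω)} {mo : Ideal (𝓞 F)}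
  {ψ : Ideal (𝓞 F) →*₀ 𝓞 F} {p : ℕ} {V : ValuationSubring Ω} {π : 𝓞 F}

/-- Chunk C1 (S/M). PROOF. c s = s Q - Q: c (s t) = s t Q - Q = (s Q - Q) + s (t Q - Q) (ac_mul); act π (s Q - Q) = s (act π Q) - act π Q = 0 (CMA.gal); continuity: H55P.pt_open for Q. -/
theorem kum_cc (h : CMA F A B Om j act) (D : Subgroup (Ω ≃ₐ[F] Ω)) (Q : Pt (WAB A B) Ω)
    (hQ : ∀ s ∈ D, ac (WAB A B) s (act π Q) = act π Q) : Cc D act π (fun s => ac (WAB A B) s Q - Q) := by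
  have hal : Algebra.IsAlgebraic F Ω := IsAlgClosure.isAlgebraic
  refine ⟨fun s _ t _ => ?_, fun s hs => ?_, ?_⟩
  · show ac (WAB A B) (s * t) Q - Q = ac (WAB A B) s Q - Q + ac (WAB A B) s (ac (WAB A B) t Q - Q)
    rw [H55K.S.ac_mul, map_sub]
    abel
  · show act π (ac (WAB A B) s Q - Q) = 0
    rw [map_sub, ← h.gal, hQ s hs, sub_self]
  · obtain ⟨L, hL, h1⟩ := H55P.pt_open (WAB A B) Q
    exact ⟨L, hL, fun s _ hs => by rw [h1 s hs, sub_self]⟩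

/-- Chunk C1 (S). PROOF. Q'' - (Q - Q') is killed by π: the difference of the cocycles is the coboundary of a point killed by π (everywhere, so also on inertia); it is in CS. -/
theorem kum_add (h : CMA F A B Om j act) (D : Subgroup (Ω ≃ₐ[F] Ω)) (V : ValuationSubring Ω) (Q Q' Q'' : Pt (WAB A B) Ω)
    (hQ : ∀ s ∈ D, ac (WAB A B) s (act π Q) = act π Q) (hQ' : ∀ s ∈ D, ac (WAB A B) s (act π Q') = act π Q')
    (hs : act π Q'' = act π Q - act π Q') :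
    (fun s => ac (WAB A B) s Q'' - Q'') - ((fun s => ac (WAB A B) s Q - Q) - (fun s => ac (WAB A B) s Q' - Q')) ∈ CI D V act π := by
  have hQ2 : ∀ s ∈ D, ac (WAB A B) s (act π Q'') = act π Q'' := by
    intro s hsD
    rw [hs, map_sub, hQ s hsD, hQ' s hsD]
  rw [mem_CI]
  refine ⟨(CS D act π).sub_mem (kum_cc h D Q'' hQ2) ((CS D act π).sub_mem (kum_cc h D Q hQ) (kum_cc h D Q' hQ')),
    Q'' - (Q - Q'), ?_, fun s _ _ => ?_⟩
  · rw [map_sub, map_sub, hs, sub_self]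
  · show (ac (WAB A B) s Q'' - Q'') - ((ac (WAB A B) s Q - Q) - (ac (WAB A B) s Q' - Q')) = _
    rw [map_sub, map_sub]
    abel

/-- Chunk C1 (S). The action on the points killed by p is commutative. PROOF. H35L.fa_comm or H55K.NB.comm_tors' argument: h.gen (p : 𝓞 F): generator T₀ of the points killed by p; ac s T₀ = act a T₀, ac t T₀ = act b T₀; act a (act b T₀) = act b (act a T₀). -/
theorem ac_comm (h : CMA F A B Om j act) (hp : p.Prime) (s t : Ω ≃ₐ[F] Ω) (T : Pt (WAB A B) Ω) (hT : p • T = 0) :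
    ac (WAB A B) s (ac (WAB A B) t T) = ac (WAB A B) t (ac (WAB A B) s T) := by
  obtain ⟨T₀, hT0, hg, _, _⟩ := h.gen (p : 𝓞 F) (Nat.cast_ne_zero.2 hp.ne_zero)
  have hT' : T ∈ Tor act (p : 𝓞 F) := by
    rw [H55K.S.mem_Tor, H55K.S.act_nat]
    exact hT
  obtain ⟨a, ha⟩ := hg _ (H55K.S.ac_mem h s hT0)
  obtain ⟨b, hb⟩ := hg _ (H55K.S.ac_mem h t hT0)
  obtain ⟨c, hc⟩ := hg _ hT'
  rw [hc, h.gal, h.gal, h.gal, h.gal, hb, ha, h.gal, h.gal, ha, hb, ← H55K.S.act_mul b, ← H55K.S.act_mul a, mul_comm]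

end H19B
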