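import Mathlib
import Pool.Agent.Lib.H19B.D2
import Pool.Agent.Lib.H13X.XE
import Pool.Agent.Lib.H13S.VW

/-! # H19B, chunk C2 (M/L): commutators in the decomposition group are in the inertia group -/

open NumberField IsDedekindDomain WeierstrassCurve

namespace H19B

open H55P (IQ Pt ac Dec Inert decS Nm)
open H35P (WAB Ker tt)
open H55K (Tor CMA Dta GV ak cj)

variable {F : Type} [Field F] [NumberField F] [IQ F] {A B : F} {Om : ℂ} {Ω : Type} [Field Ω] [DecidableEq Ω]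
  [Algebra F Ω] [IsAlgClosure F Ω] {j : Ω →+* ℂ} {act : 𝓞 F →+* AddMonoid.End (Pt (WAB A B) Ω)} {mo : Ideal (𝓞 F)}
  {ψ : Ideal (𝓞 F) →*₀ 𝓞 F} {p : ℕ} {V : ValuationSubring Ω} {π : 𝓞 F}

/-- Chunk C2 (S/M, ONLY MATHLIB). Two automorphisms of an algebraic extension of the field with p elements commute. -/
theorem aut_comm {K : Type} [Field K] (p : ℕ) [Fact p.Prime] [Algebra (ZMod p) K] [Algebra.IsAlgebraic (ZMod p) K]
    (σ τ : K ≃ₐ[ZMod p] K) (x : K) : σ (τ x) = τ (σ x) := by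
  have hx : IsIntegral (ZMod p) x := (Algebra.IsAlgebraic.isAlgebraic x).isIntegral
  have hfd : FiniteDimensional (ZMod p) (IntermediateField.adjoin (ZMod p) {x}) :=
    IntermediateField.adjoin.finiteDimensional hx
  have hfin : Finite (IntermediateField.adjoin (ZMod p) {x}) := Module.finite_of_finite (ZMod p)
  have hg : IsGalois (ZMod p) (IntermediateField.adjoin (ZMod p) {x}) := inferInstance
  have hn : Normal (ZMod p) (IntermediateField.adjoin (ZMod p) {x}) := hg.to_normal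
  have hc : IsCyclic ((IntermediateField.adjoin (ZMod p) {x}) ≃ₐ[ZMod p] (IntermediateField.adjoin (ZMod p) {x})) :=
    inferInstance
  obtain ⟨g, hgg⟩ := hc
  have hcm : ∀ a b : ((IntermediateField.adjoin (ZMod p) {x}) ≃ₐ[ZMod p] (IntermediateField.adjoin (ZMod p) {x})),
      a * b = b * a := by
    intro a b
    obtain ⟨m, hm⟩ := Subgroup.mem_zpowers_iff.1 (hgg a)
    obtain ⟨n, hn⟩ := Subgroup.mem_zpowers_iff.1 (hgg b)
    rw [← hm, ← hn, ← zpow_add, ← zpow_add, add_comm]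
  set y : IntermediateField.adjoin (ZMod p) {x} := ⟨x, IntermediateField.mem_adjoin_simple_self _ x⟩ with hy
  have h1 : ∀ (ρ : K ≃ₐ[ZMod p] K) (z : IntermediateField.adjoin (ZMod p) {x}),
      ((ρ.restrictNormal (IntermediateField.adjoin (ZMod p) {x}) z : IntermediateField.adjoin (ZMod p) {x}) : K) =
        ρ (z : K) := fun ρ z => AlgEquiv.restrictNormal_commutes ρ _ z
  have h2 := congrArg (fun ρ => ((ρ y : IntermediateField.adjoin (ZMod p) {x}) : K))
    (hcm (σ.restrictNormal (IntermediateField.adjoin (ZMod p) {x}))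
      (τ.restrictNormal (IntermediateField.adjoin (ZMod p) {x})))
  simp only [AlgEquiv.mul_apply, h1] at h2
  exact h2

/-- The restriction of s to the valuation ring. -/
def c2_ve (V : ValuationSubring Ω) (s : Ω ≃ₐ[F] Ω) (hs : Dec V s) : V ≃+* V where
  toFun := fun x => ⟨s x, (hs _).2 x.2⟩
  invFun := fun x => ⟨s.symm x, (hs _).1 (by rw [AlgEquiv.apply_symm_apply]; exact x.2)⟩
  left_inv := fun x => Subtype.ext (s.symm_apply_apply _)
  right_inv := fun x => Subtype.ext (s.apply_symm_apply _)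
  map_mul' := fun x y => Subtype.ext (map_mul s _ _)
  map_add' := fun x y => Subtype.ext (map_add s _ _)

/-- Automorphisms of the residue field. -/
noncomputable def c2_map (p : ℕ) (V : ValuationSubring Ω) [Algebra (ZMod p) (IsLocalRing.ResidueField V)]
    (s : Ω ≃ₐ[F] Ω) (hs : Dec V s) :
    IsLocalRing.ResidueField V ≃ₐ[ZMod p] IsLocalRing.ResidueField V :=
  AlgEquiv.ofRingEquiv (f := IsLocalRing.ResidueField.mapEquiv (c2_ve V s hs)) (fun r => by
    exact RingHom.congr_fun (Subsingleton.elim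
      (((IsLocalRing.ResidueField.mapEquiv (c2_ve V s hs) : IsLocalRing.ResidueField V ≃+* IsLocalRing.ResidueField V) :
        IsLocalRing.ResidueField V →+* IsLocalRing.ResidueField V).comp (algebraMap (ZMod p) _))
      (algebraMap (ZMod p) _)) r)

omit [NumberField F] [IQ F] [DecidableEq Ω] [IsAlgClosure F Ω] in
theorem c2_map_apply (p : ℕ) (V : ValuationSubring Ω) [Algebra (ZMod p) (IsLocalRing.ResidueField V)]
    (s : Ω ≃ₐ[F] Ω) (hs : Dec V s) (x : V) :
    c2_map p V s hs (IsLocalRing.residue V x) = IsLocalRing.residue V ⟨s x, (hs _).2 x.2⟩ := rfl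

omit [NumberField F] [IQ F] [DecidableEq Ω] [IsAlgClosure F Ω] in
theorem c2_orbit (φ : Ω ≃ₐ[F] Ω) (x : Ω) (hx : IsIntegral F x) : ∃ m : ℕ, 0 < m ∧ (φ ^ m) x = x := by
  have hne : minpoly F x ≠ 0 := minpoly.ne_zero hx
  have hm : ∀ n : ℕ, (φ ^ n) x ∈ (minpoly F x).rootSet Ω := by
    intro n
    rw [Polynomial.mem_rootSet]
    refine ⟨hne, ?_⟩
    have h := Polynomial.aeval_algHom_apply ((φ ^ n : Ω ≃ₐ[F] Ω) : Ω →ₐ[F] Ω) x (minpoly F x)
    rw [minpoly.aeval, map_zero] at h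
    exact h
  have hni := not_injective_infinite_finite (fun n : ℕ => (⟨(φ ^ n) x, hm n⟩ : (minpoly F x).rootSet Ω))
  rw [Function.Injective] at hni
  push Not at hni
  obtain ⟨a, b, hab, hne'⟩ := hni
  have hab' : (φ ^ a) x = (φ ^ b) x := congrArg Subtype.val hab
  have key : ∀ a b : ℕ, a < b → (φ ^ a) x = (φ ^ b) x → ∃ m : ℕ, 0 < m ∧ (φ ^ m) x = x := by
    intro a b hlt h
    refine ⟨b - a, Nat.sub_pos_of_lt hlt, ?_⟩
    apply (φ ^ a).injective
    rw [← AlgEquiv.mul_apply, ← pow_add, Nat.add_sub_cancel' hlt.le]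
    exact h.symm
  rcases lt_or_gt_of_ne hne' with h | h
  · exact key a b h hab'
  · exact key b a h hab'.symm

omit [IQ F] [NumberField F] [DecidableEq Ω] in
theorem c2_frob (K : IntermediateField F Ω) [NumberField K] {w : HeightOneSpectrum (𝓞 K)}
    (hw : H13S.Abv K V w) : ∃ s : Ω ≃ₐ[F] Ω, Dec V s ∧
      ∀ x ∈ V, V.valuation (s x - x ^ Ideal.absNorm w.asIdeal) < 1 := by
  have hac : IsAlgClosed Ω := IsAlgClosure.isAlgClosed F
  have hal : Algebra.IsAlgebraic F Ω := IsAlgClosure.isAlgebraic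
  have hK : IsAlgClosure K Ω := ⟨hac, Algebra.IsAlgebraic.tower_top (K := F) K⟩
  obtain ⟨s, hs1, hs2⟩ := H13S.exists_frob w V (fun a ha => by
    rw [← HeightOneSpectrum.valuation_lt_one_iff_mem (K := K)] at ha
    exact (hw.lt _).2 ha)
  exact ⟨s.restrictScalars F, hs1, hs2⟩

omit [IQ F] [DecidableEq Ω] in
/-- Chunk C2 (M). -/
theorem comm_inert (hp : p.Prime) (hV : V.valuation (p : Ω) < 1) (s t : Ω ≃ₐ[F] Ω) (hs : Dec V s) (ht : Dec V t) :
    Inert V (s * t * s⁻¹ * t⁻¹) := by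
  have : Fact p.Prime := ⟨hp⟩
  have hal : Algebra.IsAlgebraic F Ω := IsAlgClosure.isAlgebraic
  have hpV : (p : Ω) ∈ V := natCast_mem V p
  have hcast : ((p : V) : Ω) = (p : Ω) := by simp
  have hres0 : ∀ x : V, IsLocalRing.residue V x = 0 ↔ V.valuation (x : Ω) < 1 := by
    intro x
    rw [IsLocalRing.residue_eq_zero_iff, ValuationSubring.valuation_lt_one_iff]
  have hp0 : ((p : ℕ) : IsLocalRing.ResidueField V) = 0 := by
    have h1 := (hres0 (p : V)).2 (by rw [hcast]; exact hV)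
    rw [map_natCast] at h1
    exact h1
  have hch : CharP (IsLocalRing.ResidueField V) p := by
    obtain ⟨c, hc⟩ := CharP.exists (IsLocalRing.ResidueField V)
    have h1 : c ∣ p := (CharP.cast_eq_zero_iff _ c p).1 hp0
    rcases (Nat.dvd_prime hp).1 h1 with h2 | h2
    · exfalso
      rw [h2] at hc
      have h3 : ((1 : ℕ) : IsLocalRing.ResidueField V) = 0 := (CharP.cast_eq_zero_iff _ 1 1).2 dvd_rfl
      rw [Nat.cast_one] at h3
      exact one_ne_zero h3
    · rwa [h2] at hc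
  let _ : Algebra (ZMod p) (IsLocalRing.ResidueField V) := ZMod.algebra _ p
  -- a Frobenius element
  have hfd : FiniteDimensional F (⊥ : IntermediateField F Ω) := inferInstance
  have hnf : NumberField (⊥ : IntermediateField F Ω) := NumberField.of_module_finite F _
  obtain ⟨w, hw⟩ := H13S.exists_below (⊥ : IntermediateField F Ω) V ⟨((p : (⊥ : IntermediateField F Ω)))⁻¹, by
    intro h1
    have h2 : (((p : (⊥ : IntermediateField F Ω))⁻¹ : (⊥ : IntermediateField F Ω)) : Ω) = (p : Ω)⁻¹ := by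
      simp
    rw [h2] at h1
    have h3 := (V.valuation_le_one_iff _).2 h1
    have hp0' : (p : Ω) ≠ 0 := by
      have hcz : CharZero Ω := charZero_of_injective_algebraMap (algebraMap F Ω).injective
      exact Nat.cast_ne_zero.2 hp.ne_zero
    rw [map_inv₀] at h3
    have h4 : V.valuation (p : Ω) ≠ 0 := (V.valuation.ne_zero_iff).2 hp0'
    have h5 : (1 : V.ValueGroup) < (V.valuation (p : Ω))⁻¹ := (one_lt_inv₀ (zero_lt_iff.2 h4)).2 hV
    exact absurd h3 (not_le.2 h5)⟩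
  obtain ⟨φ, hφ1, hφ2⟩ := c2_frob (⊥ : IntermediateField F Ω) hw
  set q := Ideal.absNorm w.asIdeal with hq
  have halg : Algebra.IsAlgebraic (ZMod p) (IsLocalRing.ResidueField V) := by
    refine ⟨fun y => ?_⟩
    obtain ⟨x, rfl⟩ := IsLocalRing.residue_surjective y
    have hk : ∀ k : ℕ, ∃ h : (φ ^ k) (x : Ω) ∈ V,
        IsLocalRing.residue V ⟨(φ ^ k) (x : Ω), h⟩ = IsLocalRing.residue V x ^ q ^ k := by
      intro k
      induction k with
      | zero =>
        have e0 : (φ ^ 0) (x : Ω) = x := by rw [pow_zero, AlgEquiv.one_apply]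
        have e1 : (φ ^ 0) (x : Ω) ∈ V := by rw [e0]; exact x.2
        refine ⟨e1, ?_⟩
        rw [show (⟨(φ ^ 0) (x : Ω), e1⟩ : V) = x from Subtype.ext e0, pow_zero, pow_one]
      | succ k ih =>
        obtain ⟨h1, h2⟩ := ih
        have h3 : (φ ^ (k + 1)) (x : Ω) = φ ((φ ^ k) (x : Ω)) := by
          rw [pow_succ', AlgEquiv.mul_apply]
        have h4 : φ ((φ ^ k) (x : Ω)) ∈ V := (hφ1 _).2 h1
        refine ⟨by rw [h3]; exact h4, ?_⟩
        have h5 : IsLocalRing.residue V (⟨φ ((φ ^ k) (x : Ω)), h4⟩ - ⟨(φ ^ k) (x : Ω), h1⟩ ^ q) = 0 :=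
          (hres0 _).2 (hφ2 _ h1)
        rw [map_sub, map_pow, sub_eq_zero, h2, ← pow_mul, ← pow_succ] at h5
        rw [← h5]
        congr 1
        exact Subtype.ext h3
    obtain ⟨m, hm, hmx⟩ := c2_orbit φ (x : Ω) (hal.isAlgebraic _).isIntegral
    obtain ⟨h1, h2⟩ := hk m
    have h3 : IsLocalRing.residue V x ^ q ^ m = IsLocalRing.residue V x := by
      rw [← h2]
      congr 1
      exact Subtype.ext hmx
    have hq1 : 1 < q := by
      have h4 : q ≠ 0 := by
        intro h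
        exact w.ne_bot (Ideal.absNorm_eq_zero_iff.1 h)
      have h5 : q ≠ 1 := by
        intro h
        exact w.isPrime.ne_top (Ideal.absNorm_eq_one_iff.1 h)
      omega
    have hqm : 1 < q ^ m := Nat.one_lt_pow hm.ne' hq1
    refine ⟨Polynomial.X ^ q ^ m - Polynomial.X, FiniteField.X_pow_card_sub_X_ne_zero (ZMod p) hqm, ?_⟩
    rw [map_sub, map_pow, Polynomial.aeval_X, h3, sub_self]
  have hdc : ∀ g : Ω ≃ₐ[F] Ω, Dec V g ↔ g ∈ decS F V := fun g => Iff.rfl
  have hs' : Dec V s⁻¹ := (hdc _).2 (inv_mem ((hdc _).1 hs))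
  have ht' : Dec V t⁻¹ := (hdc _).2 (inv_mem ((hdc _).1 ht))
  intro x hx
  have hy1 : t⁻¹ x ∈ V := (ht' _).2 hx
  have hy : s⁻¹ (t⁻¹ x) ∈ V := (hs' _).2 hy1
  have h1 := aut_comm p (c2_map p V s hs) (c2_map p V t ht) (IsLocalRing.residue V ⟨s⁻¹ (t⁻¹ x), hy⟩)
  rw [c2_map_apply, c2_map_apply, c2_map_apply, c2_map_apply, ← sub_eq_zero, ← map_sub, hres0] at h1
  have e1 : t (s (s⁻¹ (t⁻¹ x))) = x := by
    rw [← AlgEquiv.mul_apply s, mul_inv_cancel, AlgEquiv.one_apply, ← AlgEquiv.mul_apply t, mul_inv_cancel,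
      AlgEquiv.one_apply]
  have e2 : (s * t * s⁻¹ * t⁻¹) x = s (t (s⁻¹ (t⁻¹ x))) := rfl
  rw [e2]
  have e3 : s (t (s⁻¹ (t⁻¹ x))) - x = s (t (s⁻¹ (t⁻¹ x))) - t (s (s⁻¹ (t⁻¹ x))) := by rw [e1]
  rw [e3]
  exact h1

end H19B
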