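import Mathlib
import Pool.Agent.Lib.H19B.D2
import Pool.Agent.Lib.H19B.C1
import Pool.Agent.Lib.H19B.C2
import Pool.Agent.Lib.H55K.NA3
import Pool.Agent.Lib.H55P.S5

/-! # H19B, chunk C3 (M): unramified cocycles are trivial -/

open NumberField IsDedekindDomain WeierstrassCurve

namespace H19B

open H55P (IQ Pt ac Dec Inert decS Nm)
open H35P (WAB Ker tt)
open H55K (Tor CMA Dta GV ak cj)

variable {F : Type} [Field F] [NumberField F] [IQ F] {A B : F} {Om : ℂ} {Ω : Type} [Field Ω] [DecidableEq Ω]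
  [Algebra F Ω] [IsAlgClosure F Ω] {j : Ω →+* ℂ} {act : 𝓞 F →+* AddMonoid.End (Pt (WAB A B) Ω)} {mo : Ideal (𝓞 F)}
  {ψ : Ideal (𝓞 F) →*₀ 𝓞 F} {p : ℕ} {V : ValuationSubring Ω} {π : 𝓞 F}

theorem c3_nsmul (hd : π ∣ (p : 𝓞 F)) (T : Pt (WAB A B) Ω) (hT : act π T = 0) : p • T = 0 := by
  obtain ⟨c, hc⟩ := hd
  have h1 : act (p : 𝓞 F) T = p • T := by
    rw [map_natCast, AddMonoid.End.natCast_apply]
  rw [← h1, hc, mul_comm, map_mul]
  change act c (act π T) = 0
  rw [hT, map_zero]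

/-- Chunk C3 (M). PROOF. H55K.NB.sah (H55P.acR (WAB A B)) p with I = DN N V: the points killed by p are finite (H55P.tors_fin; WAB A B is elliptic: discriminant, h.disc; see Lib/H55K/NA5.lean for a use of sah), commutativity ac_comm, h0, p • c s = 0 (π divides p: act p = act c' act π), c of a commutator is 0 by comm_inert and hi.
So there is P with p • P = 0, c s = s P - P on DN N V. act π P is fixed by DN N V (act π (s P - P) = act π (c s) = 0, CMA.gal) and killed by p, hence 0 (h0). -/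
theorem unr_triv (dta : Dta A B Om j act mo ψ p) (hd : π ∣ (p : 𝓞 F)) (hV : V.valuation (p : Ω) < 1) {N : IntermediateField F Ω}
    (h0 : ∀ T : Pt (WAB A B) Ω, p • T = 0 → (∀ s ∈ DN N V, ac (WAB A B) s T = T) → T = 0) {c : (Ω ≃ₐ[F] Ω) → Pt (WAB A B) Ω}
    (hc : Cc (DN N V) act π c) (hi : ∀ s ∈ DN N V, Inert V s → c s = 0) :
    ∃ T : Pt (WAB A B) Ω, act π T = 0 ∧ ∀ s ∈ DN N V, c s = ac (WAB A B) s T - T := by
  have h := dta.cma
  have hp := dta.prime
  have hac : IsAlgClosed Ω := IsAlgClosure.isAlgClosed F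
  have hal : Algebra.IsAlgebraic F Ω := IsAlgClosure.isAlgebraic
  have hchar : CharZero Ω := charZero_of_injective_algebraMap (algebraMap F Ω).injective
  have hell : (WAB A B).IsElliptic := by
    refine ⟨isUnit_iff_ne_zero.2 ?_⟩
    have hd : (WAB A B).Δ = -16 * (4 * A ^ 3 + 27 * B ^ 2) := by
      unfold WAB WeierstrassCurve.Δ WeierstrassCurve.b₂ WeierstrassCurve.b₄ WeierstrassCurve.b₆ WeierstrassCurve.b₈
      ring
    rw [hd]
    exact mul_ne_zero (by norm_num) dta.cma.disc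
  have hpc : ∀ s ∈ DN N V, p • c s = 0 := fun s hs => c3_nsmul hd _ (hc.tor s hs)
  have hk : ∀ s ∈ DN N V, ∀ t ∈ DN N V, c (s * t * s⁻¹ * t⁻¹) = 0 := by
    intro s hs t ht
    refine hi _ ?_ (comm_inert hp hV s t (mem_DN.1 hs).2 (mem_DN.1 ht).2)
    exact mul_mem (mul_mem (mul_mem hs ht) (inv_mem hs)) (inv_mem ht)
  obtain ⟨P, hP0, hP⟩ := H55K.NB.sah (H55P.acR (WAB A B)) p (H55P.tors_fin (Ω := Ω) (WAB A B) p hp.pos) (DN N V)
    (fun s _ t _ T hT => ac_comm h hp s t T hT)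
    (fun T hT h1 => h0 T hT fun s hs => h1 s hs) c
    (fun s hs t ht => hc.mul s hs t ht) hpc hk
  refine ⟨P, ?_, fun s hs => hP s hs⟩
  refine h0 _ ?_ ?_
  · rw [← map_nsmul, hP0, map_zero]
  · intro s hs
    rw [h.gal]
    have h1 : act π (c s) = 0 := hc.tor s hs
    rw [hP s hs, map_sub] at h1
    exact sub_eq_zero.1 h1

/-- Chunk C3 (S/M). PROOF. T with act π T = 0, s Q - Q = s T - T on the inertia elements of DN N V (mem_CI). Q' = Q - T; the cocycle s -> s Q' - Q' (kum_cc: act π Q' = act π Q) is 0 on inertia; unr_triv: T', act π T' = 0, s Q' - Q' = s T' - T' on DN N V. Q'' = Q' - T' is fixed by DN N V, act π Q'' = act π Q.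
Ker V Q'': H55K.ker_red (V(π) < 1, π prime). -/
theorem kum_ker (dta : Dta A B Om j act mo ψ p) (hπ : Prime π) (hd : π ∣ (p : 𝓞 F)) (hVπ : V.valuation (ak Ω π) < 1)
    {N : IntermediateField F Ω}
    (h0 : ∀ T : Pt (WAB A B) Ω, p • T = 0 → (∀ s ∈ DN N V, ac (WAB A B) s T = T) → T = 0) {Q : Pt (WAB A B) Ω}
    (hK : Ker V (act π Q)) (hQ : ∀ s ∈ DN N V, ac (WAB A B) s (act π Q) = act π Q)
    (hc : (fun s => ac (WAB A B) s Q - Q) ∈ CI (DN N V) V act π) :
    ∃ Q' : Pt (WAB A B) Ω, Ker V Q' ∧ (∀ s ∈ DN N V, ac (WAB A B) s Q' = Q') ∧ act π Q' = act π Q := by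
  have h := dta.cma
  have hp := dta.prime
  -- V(p) < 1
  have hV : V.valuation (p : Ω) < 1 := by
    obtain ⟨c, hc'⟩ := hd
    have h1 : (p : Ω) = ak Ω π * ak Ω c := by
      have h2 : ak Ω (p : 𝓞 F) = ak Ω (π * c) := by rw [hc']
      unfold H55K.ak at h2 ⊢
      rw [← map_mul]
      have h3 : ((π * c : 𝓞 F) : F) = (π : F) * (c : F) := rfl
      rw [← h3, ← h2]
      have h4 : (((p : 𝓞 F) : F)) = (p : F) := map_natCast (algebraMap (𝓞 F) F) p
      rw [h4, map_natCast]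
    rw [h1, map_mul]
    exact mul_lt_one_of_lt_of_le hVπ (H55K.ak_le V c)
  obtain ⟨-, T, hT0, hT⟩ := (mem_CI _ _ _ _).1 hc
  have hπQ : act π (Q - T) = act π Q := by rw [map_sub, hT0, sub_zero]
  have hcc := kum_cc (π := π) h (DN N V) (Q - T) (fun s hs => by rw [hπQ]; exact hQ s hs)
  obtain ⟨T', hT'0, hT'⟩ := unr_triv dta hd hV h0 hcc (by
    intro s hs hsi
    have h1 : ac (WAB A B) s Q - Q = ac (WAB A B) s T - T := hT s hs hsi
    change ac (WAB A B) s (Q - T) - (Q - T) = 0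
    rw [map_sub]
    have h2 : ac (WAB A B) s Q - ac (WAB A B) s T - (Q - T) = (ac (WAB A B) s Q - Q) - (ac (WAB A B) s T - T) := by abel
    rw [h2, h1, sub_self])
  have hπQ' : act π (Q - T - T') = act π Q := by rw [map_sub, hπQ, hT'0, sub_zero]
  refine ⟨Q - T - T', ?_, ?_, hπQ'⟩
  · refine H55K.ker_red h (dta.good V hV) hπ hVπ ?_
    rw [hπQ']
    exact hK
  · intro s hs
    have h1 : ac (WAB A B) s (Q - T) - (Q - T) = ac (WAB A B) s T' - T' := hT' s hs
    rw [map_sub]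
    have h2 : ac (WAB A B) s (Q - T) = (Q - T) + (ac (WAB A B) s T' - T') := by rw [← h1]; abel
    rw [h2]
    abel

end H19B
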