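import Mathlib

/-! # H19B, chunk GA (S/M): indices of additive subgroups (ONLY MATHLIB) -/

namespace H19B

theorem ga_inj {M N : Type} [AddCommGroup M] (A B : AddSubgroup M) [Finite N] (F : B → N)
    (hj : ∀ b b' : B, F b = F b' → (b : M) - b' ∈ A) : A.relIndex B ≠ 0 ∧ A.relIndex B ≤ Nat.card N := by
  have hinj : Function.Injective (fun x : B ⧸ A.addSubgroupOf B => F x.out) := by
    intro x y hxy
    have h1 := hj x.out y.out hxy
    rw [← QuotientAddGroup.out_eq' x, ← QuotientAddGroup.out_eq' y]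
    refine (QuotientAddGroup.eq_iff_sub_mem).2 ?_
    rw [AddSubgroup.mem_addSubgroupOf]
    exact h1
  have hfin : Finite (B ⧸ A.addSubgroupOf B) := Finite.of_injective _ hinj
  have h2 : A.relIndex B = Nat.card (B ⧸ A.addSubgroupOf B) := rfl
  rw [h2]
  exact ⟨Nat.card_ne_zero.2 ⟨⟨QuotientAddGroup.mk 0⟩, hfin⟩, Nat.card_le_card_of_injective _ hinj⟩

/-- Chunk GA (S). PROOF. The quotient of B by A.addSubgroupOf B: the map b -> f b (b a representative: Quotient.out) with values in the finite set R (as a finite type) is injective by hj, so the quotient is finite with at most card R elements;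
AddSubgroup.relIndex, AddSubgroup.index = Nat.card of the quotient. -/
theorem rel_le {M k : Type} [AddCommGroup M] (A B : AddSubgroup M) (f : M → k) (R : Finset k) (hR : ∀ b ∈ B, f b ∈ R)
    (hj : ∀ b ∈ B, ∀ b' ∈ B, f b = f b' → b - b' ∈ A) : A.relIndex B ≠ 0 ∧ A.relIndex B ≤ R.card := by
  have h := ga_inj A B (N := {x : k // x ∈ R}) (fun b => ⟨f b, hR b b.2⟩)
    (fun b b' hb => hj b b.2 b' b'.2 (Subtype.ext_iff.1 hb))
  rw [Nat.card_eq_fintype_card, Fintype.card_coe] at h
  exact h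

/-- Chunk GA (S). The other inequality. PROOF. r : Fin m -> M gives an injective map Fin m -> B / A. -/
theorem rel_ge {M : Type} [AddCommGroup M] (A B : AddSubgroup M) (hf : A.relIndex B ≠ 0) {m : ℕ} (r : Fin m → M) (hr : ∀ i, r i ∈ B)
    (hj : ∀ i i', r i - r i' ∈ A → i = i') : m ≤ A.relIndex B := by
  have h2 : A.relIndex B = Nat.card (B ⧸ A.addSubgroupOf B) := rfl
  rw [h2] at hf ⊢
  have hfin : Finite (B ⧸ A.addSubgroupOf B) := Nat.finite_of_card_ne_zero hf
  have hinj : Function.Injective (fun i : Fin m => ((⟨r i, hr i⟩ : B) : B ⧸ A.addSubgroupOf B)) := by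
    intro i j hij
    have h3 := (QuotientAddGroup.eq_iff_sub_mem).1 hij
    rw [AddSubgroup.mem_addSubgroupOf] at h3
    exact hj i j h3
  have h4 := Nat.card_le_card_of_injective _ hinj
  rw [Nat.card_eq_fintype_card, Fintype.card_fin] at h4
  exact h4

/-- Chunk GA (S). PROOF. Choose representatives of the cosets of A in B, apply g and the projection to B' / A': injective. Or rel_le with k = M' ⧸ A' and R = the (finite) image of B'. -/
theorem rel_map {M M' : Type} [AddCommGroup M] [AddCommGroup M'] (A B : AddSubgroup M) (A' B' : AddSubgroup M') (g : M → M')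
    (hg : ∀ b ∈ B, g b ∈ B') (hj : ∀ b ∈ B, ∀ b' ∈ B, g b - g b' ∈ A' → b - b' ∈ A) (hf : A'.relIndex B' ≠ 0) :
    A.relIndex B ≠ 0 ∧ A.relIndex B ≤ A'.relIndex B' := by
  have h2 : A'.relIndex B' = Nat.card (B' ⧸ A'.addSubgroupOf B') := rfl
  rw [h2] at hf ⊢
  have hfin : Finite (B' ⧸ A'.addSubgroupOf B') := Nat.finite_of_card_ne_zero hf
  refine ga_inj A B (N := B' ⧸ A'.addSubgroupOf B') (fun b => ((⟨g b, hg b b.2⟩ : B') : B' ⧸ A'.addSubgroupOf B')) (fun b b' hb => ?_)
  have h3 := (QuotientAddGroup.eq_iff_sub_mem).1 hb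
  rw [AddSubgroup.mem_addSubgroupOf] at h3
  exact hj b b.2 b' b'.2 h3

/-- Chunk GA (S/M). A decreasing chain. PROOF. Induction on k: AddSubgroup.relIndex_mul_relIndex (A (k+1)) (A k) (A 0). -/
theorem rel_chain {M : Type} [AddCommGroup M] (A : ℕ → AddSubgroup M) (hA : Antitone A) (c : ℕ → ℕ) (k : ℕ)
    (h : ∀ i < k, (A (i + 1)).relIndex (A i) ≠ 0 ∧ (A (i + 1)).relIndex (A i) ≤ c i) :
    (A k).relIndex (A 0) ≠ 0 ∧ (A k).relIndex (A 0) ≤ ∏ i ∈ Finset.range k, c i := by
  induction k with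
  | zero =>
    rw [AddSubgroup.relIndex_self]
    exact ⟨one_ne_zero, le_of_eq (by simp)⟩
  | succ k ih =>
    obtain ⟨h1, h2⟩ := ih fun i hi => h i (Nat.lt_succ_of_lt hi)
    obtain ⟨h3, h4⟩ := h k (Nat.lt_succ_self k)
    rw [← AddSubgroup.relIndex_mul_relIndex (A (k + 1)) (A k) (A 0) (hA (Nat.le_succ k)) (hA (Nat.zero_le k)),
      Finset.prod_range_succ]
    refine ⟨mul_ne_zero h3 h1, ?_⟩
    rw [mul_comm]
    exact Nat.mul_le_mul h2 h4

end H19B
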