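import Mathlib
import Pool.Agent.Lib.H19B.D2
import Pool.Agent.Lib.H19B.GA
import Pool.Agent.Lib.H13X.XP0
import Pool.Agent.Lib.H16S.A3E

/-! # H19B, chunk E1 (M): the filtration of the points in the kernel of reduction -/

open NumberField IsDedekindDomain WeierstrassCurve

namespace H19B

open H55P (IQ Pt ac Dec Inert decS Nm)
open H35P (WAB Ker tt)
open H55K (Tor CMA Dta GV ak cj)

variable {F : Type} [Field F] [NumberField F] [IQ F] {A B : F} {Om : ℂ} {Ω : Type} [Field Ω] [DecidableEq Ω]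
  [Algebra F Ω] [IsAlgClosure F Ω] {j : Ω →+* ℂ} {act : 𝓞 F →+* AddMonoid.End (Pt (WAB A B) Ω)} {mo : Ideal (𝓞 F)}
  {ψ : Ideal (𝓞 F) →*₀ 𝓞 F} {p : ℕ} {V : ValuationSubring Ω} {π : 𝓞 F}

/-- Chunk E1 (S/M). PROOF. H16S.A3E.tt_sub (namespace H16S, file Lib/H16S/A3E.lean) for c = the larger of V(tt P), V(tt Q), < 1 (ttlt): V(tt (P - Q) - (tt P - tt Q)) ≤ V(tt P - tt Q) c^4 < V(tt P - tt Q) if tt P ≠ tt Q; if tt P = tt Q then P = Q (H16S.tt_inj) or the inequality gives tt (P - Q) = 0. -/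
theorem tt_sub_val (hG : GV A B V) {P Q : Pt (WAB A B) Ω} (hP : Ker V P) (hQ : Ker V Q) :
    V.valuation (tt (P - Q)) = V.valuation (tt P - tt Q) := by
  have hI := (H55K.gv_good hG).toIntW
  by_cases he : tt P = tt Q
  · have h1 := H16S.tt_inj hI hP hQ he
    rw [h1, sub_self, sub_self]
    rfl
  · have h2 : (2 : Ω) ≠ 0 := fun h => by
      have h3 := hG.two
      rw [h, map_zero] at h3
      exact zero_ne_one h3
    have hc : max (V.valuation (tt P)) (V.valuation (tt Q)) < 1 := max_lt (H55K.ttlt hG hP) (H55K.ttlt hG hQ)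
    have h3 := H16S.tt_sub h2 hI hP hQ hc (le_max_left _ _) (le_max_right _ _)
    have h4 : V.valuation (tt P - tt Q) ≠ 0 := (Valuation.ne_zero_iff _).2 (sub_ne_zero.2 he)
    have h5 : max (V.valuation (tt P)) (V.valuation (tt Q)) ^ 4 < 1 := pow_lt_one₀ zero_le hc (by norm_num)
    have h6 := mul_lt_of_lt_one_right (zero_lt_iff.2 h4) h5
    exact Valuation.map_eq_of_sub_lt _ (h3.trans_lt h6)

/-- Chunk E1 (M). PROOF. For j : Fin q let P j be the point with tt (P j) = r j * w^(i+1), in Ker V, fixed by DN N V (H13X.local_ptt, r j * w^(i+1) in N; P j = 0 if r j = 0). r from hr. P j in EF i. tt_sub_val: V(tt (P j - P k)) = V(r j - r k) V(w)^(i+1) = V(w)^(i+1) for j ≠ k, not ≤ V(w)^(i+2) (V(w) < 1, w ≠ 0): rel_ge gives q ≤ index.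
Upper bound: f P = the index j with V(tt P / w^(i+1) - r j) < 1 (tt P is fixed by DN N V: H55K.tt_ac; quotient of value ≤ 1; hr; Classical.choose). If f P = f P' = j then V(tt P - tt P') < V(w)^(i+1), V(tt (P - P')) < V(w)^(i+1), tt (P - P') is fixed by DN N V, so its value is V(w)^m, m > i + 1 (hval) or it is 0:
P - P' in EF (i+1). rel_le with k = Fin q, R = Finset.univ. -/
theorem ef_index (h : CMA F A B Om j act) (hG : GV A B V) {N : IntermediateField F Ω} [FiniteDimensional F N] {q : ℕ} {w : Ω} (w0 : w ≠ 0)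
    (w1 : V.valuation w < 1) (wN : w ∈ N) (hq : 0 < q)
    (hr : ∃ r : Fin q → Ω, (∀ i, r i ∈ N ∧ V.valuation (r i) ≤ 1) ∧ (∀ i i', i ≠ i' → V.valuation (r i - r i') = 1) ∧
        ∀ x : Ω, (∀ s ∈ DN N V, s x = x) → V.valuation x ≤ 1 → ∃ i, V.valuation (x - r i) < 1)
    (hval : ∀ y : Ω, y ≠ 0 → (∀ s ∈ DN N V, s y = y) → ∃ i : ℤ, V.valuation y = V.valuation w ^ i) (i : ℕ) :
    (EF hG (DN N V) w w1 (i + 1)).relIndex (EF hG (DN N V) w w1 i) = q := by
  classical
  have w0' : V.valuation w ≠ 0 := (Valuation.ne_zero_iff _).2 w0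
  have wp : 0 < V.valuation w := zero_lt_iff.2 w0'
  have hwi0 : w ^ (i + 1) ≠ 0 := pow_ne_zero _ w0
  have hfw : ∀ s ∈ DN N V, s w = w := fun s hs => by
    have h1 := (mem_DN.1 hs).1
    rw [IntermediateField.mem_fixingSubgroup_iff] at h1
    exact h1 w wN
  have hwlt : V.valuation (w ^ (i + 1)) < 1 := by
    rw [map_pow]
    exact pow_lt_one₀ zero_le w1 (Nat.succ_ne_zero i)
  obtain ⟨r, hr1, hr2, hr3⟩ := hr
  have hP : ∀ k : Fin q, ∃ P : Pt (WAB A B) Ω, Ker V P ∧ (∀ s ∈ DN N V, ac (WAB A B) s P = P) ∧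
      tt P = r k * w ^ (i + 1) := by
    intro k
    by_cases h0 : r k = 0
    · refine ⟨0, trivial, fun s _ => map_zero _, ?_⟩
      rw [h0, zero_mul]
      rfl
    · have ht : V.valuation (r k * w ^ (i + 1)) < 1 := by
        rw [map_mul]
        exact (mul_le_of_le_one_left' (hr1 k).2).trans_lt hwlt
      obtain ⟨Q, B₀, -, h2, h3, h4, h5⟩ := H13X.local_ptt h hG (N := N)
        (mul_mem (hr1 k).1 (pow_mem wN (i + 1))) (mul_ne_zero h0 hwi0) ht
      exact ⟨Q, h4, fun s hs => h3 s (h2 s (mem_DN.1 hs)), h5⟩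
  choose P hP1 hP2 hP3 using hP
  let f : Pt (WAB A B) Ω → Fin q := fun b =>
    if hh : ∃ k, V.valuation (tt b / w ^ (i + 1) - r k) < 1 then hh.choose else ⟨0, hq⟩
  have hf : ∀ b ∈ EF hG (DN N V) w w1 i, V.valuation (tt b / w ^ (i + 1) - r (f b)) < 1 := by
    intro b hb
    obtain ⟨b1, b2, b3⟩ := (mem_EF hG _ w w1 i b).1 hb
    have hh : ∃ k, V.valuation (tt b / w ^ (i + 1) - r k) < 1 := by
      refine hr3 _ (fun s hs => ?_) ?_
      · rw [map_div₀, map_pow, hfw s hs]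
        have h6 := H55K.tt_ac (WAB A B) s b
        rw [b2 s hs] at h6
        rw [← h6]
      · rw [map_div₀, map_pow]
        exact div_le_one_of_le₀ b3 zero_le
    have h7 : f b = hh.choose := dif_pos hh
    rw [h7]
    exact hh.choose_spec
  have hle := rel_le (EF hG (DN N V) w w1 (i + 1)) (EF hG (DN N V) w w1 i) f Finset.univ
    (fun b _ => Finset.mem_univ _) (by
      intro b hb b' hb' hbb
      obtain ⟨b1, b2, b3⟩ := (mem_EF hG _ w w1 i b).1 hb
      obtain ⟨c1, c2, c3⟩ := (mem_EF hG _ w w1 i b').1 hb'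
      have e1 := hf b hb
      have e2 := hf b' hb'
      rw [← hbb] at e2
      have e3 := V.valuation.map_sub_lt e1 e2
      have e4 : tt b / w ^ (i + 1) - r (f b) - (tt b' / w ^ (i + 1) - r (f b)) =
          (tt b - tt b') / w ^ (i + 1) := by ring
      rw [e4, map_div₀, div_lt_one₀ (zero_lt_iff.2 ((Valuation.ne_zero_iff _).2 hwi0)),
        ← tt_sub_val hG b1 c1, map_pow] at e3
      have e5 : ∀ s ∈ DN N V, ac (WAB A B) s (b - b') = b - b' := fun s hs => by
        rw [map_sub, b2 s hs, c2 s hs]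
      refine (mem_EF hG _ w w1 (i + 1) _).2 ⟨H55K.ksub hG b1 c1, e5, ?_⟩
      by_cases e0 : tt (b - b') = 0
      · rw [e0, map_zero]
        exact zero_le
      · obtain ⟨m, hm⟩ := hval _ e0 (fun s hs => by
          have h6 := H55K.tt_ac (WAB A B) s (b - b')
          rw [e5 s hs] at h6
          exact h6.symm)
        rw [hm] at e3 ⊢
        rw [← zpow_natCast, zpow_lt_zpow_iff_right_of_lt_one₀ wp w1] at e3
        rw [← zpow_natCast, zpow_le_zpow_iff_right_of_lt_one₀ wp w1]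
        push_cast at e3 ⊢
        omega)
  have hge := rel_ge (EF hG (DN N V) w w1 (i + 1)) (EF hG (DN N V) w w1 i) hle.1 P
    (fun k => (mem_EF hG _ w w1 i _).2 ⟨hP1 k, hP2 k, by
      rw [hP3 k, map_mul, map_pow]
      exact mul_le_of_le_one_left' (hr1 k).2⟩) (by
      intro k k' hk
      by_contra hne
      obtain ⟨-, -, d3⟩ := (mem_EF hG _ w w1 (i + 1) _).1 hk
      rw [tt_sub_val hG (hP1 k) (hP1 k'), hP3 k, hP3 k', ← sub_mul, map_mul, hr2 k k' hne, one_mul, map_pow] at d3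
      exact absurd d3 (not_le.2 (pow_lt_pow_right_of_lt_one₀ wp w1 (Nat.lt_succ_self _))))
  have hcard := hle.2
  rw [Finset.card_univ, Fintype.card_fin] at hcard
  exact le_antisymm hcard hge

end H19B
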