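import Mathlib
import Pool.Agent.Lib.H19B.D2
import Pool.Agent.Lib.H55K.G4C

/-! # H19B, chunk E2 (S/M): multiplication by π and the filtration -/

open NumberField IsDedekindDomain WeierstrassCurve

namespace H19B

open H55P (IQ Pt ac Dec Inert decS Nm)
open H35P (WAB Ker tt)
open H55K (Tor CMA Dta GV ak cj)

variable {F : Type} [Field F] [NumberField F] [IQ F] {A B : F} {Om : ℂ} {Ω : Type} [Field Ω] [DecidableEq Ω]
  [Algebra F Ω] [IsAlgClosure F Ω] {j : Ω →+* ℂ} {act : 𝓞 F →+* AddMonoid.End (Pt (WAB A B) Ω)} {mo : Ideal (𝓞 F)}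
  {ψ : Ideal (𝓞 F) →*₀ 𝓞 F} {p : ℕ} {V : ValuationSubring Ω} {π : 𝓞 F}

/-- Chunk E2 (S/M). PROOF. H55K.tt_act: V(tt (π P) - π tt P) ≤ V(tt P)^2 ≤ V(w)^(2(J+1)) ≤ V(w)^(J+1+e), and V(π tt P) = V(w)^e V(tt P). H55K.ker_act, CMA.gal. -/
theorem ef_act (h : CMA F A B Om j act) (hG : GV A B V) {D : Subgroup (Ω ≃ₐ[F] Ω)} {w : Ω} (w1 : V.valuation w < 1) {e J : ℕ}
    (he : V.valuation (ak Ω π) = V.valuation w ^ e) (hJ : e ≤ J + 1) (P : Pt (WAB A B) Ω) (hP : P ∈ EF hG D w w1 J) :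
    act π P ∈ EF hG D w w1 (J + e) := by
  rw [mem_EF] at hP ⊢
  obtain ⟨h1, h2, h3⟩ := hP
  refine ⟨H55K.ker_act h hG π h1, fun s hs => by rw [h.gal, h2 s hs], ?_⟩
  have h4 := H55K.tt_act h hG π h1
  have e' : tt (act π P) = (tt (act π P) - ak Ω π * tt P) + ak Ω π * tt P := by ring
  rw [e']
  refine Valuation.map_add_le _ (h4.trans ?_) ?_
  · calc V.valuation (tt P) ^ 2 ≤ (V.valuation w ^ (J + 1)) ^ 2 := pow_le_pow_left' h3 2
      _ = V.valuation w ^ ((J + 1) * 2) := (pow_mul _ _ _).symm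
      _ ≤ V.valuation w ^ (J + e + 1) := pow_le_pow_right_of_le_one' w1.le (by omega)
  · rw [map_mul, he]
    calc V.valuation w ^ e * V.valuation (tt P) ≤ V.valuation w ^ e * V.valuation w ^ (J + 1) := mul_le_mul_right h3 _
      _ = V.valuation w ^ (J + e + 1) := by rw [← pow_add]; congr 1; omega

/-- Chunk E2 (S). PROOF. As above: V(tt (act b P)) ≤ V(tt P). -/
theorem ef_act0 (h : CMA F A B Om j act) (hG : GV A B V) {D : Subgroup (Ω ≃ₐ[F] Ω)} {w : Ω} (w1 : V.valuation w < 1) {i : ℕ} (b : 𝓞 F)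
    (P : Pt (WAB A B) Ω) (hP : P ∈ EF hG D w w1 i) : act b P ∈ EF hG D w w1 i := by
  rw [mem_EF] at hP ⊢
  obtain ⟨h1, h2, h3⟩ := hP
  refine ⟨H55K.ker_act h hG b h1, fun s hs => by rw [h.gal, h2 s hs], ?_⟩
  have h4 := H55K.tt_act h hG b h1
  have e : tt (act b P) = (tt (act b P) - ak Ω b * tt P) + ak Ω b * tt P := by ring
  rw [e]
  refine Valuation.map_add_le _ (h4.trans ?_) ?_
  · exact (H55K.g4c_le (H55K.ttlt hG h1)).trans h3
  · rw [map_mul]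
    exact (mul_le_of_le_one_left' (H55K.ak_le V b)).trans h3

/-- Chunk E2 (S). PROOF. V(tt P) < 1 (ttlt), tt P is fixed by D (tt_ac), so V(tt P) = V(w)^m with m ≥ 1 (hval) or tt P = 0. -/
theorem ef_zero (hG : GV A B V) {D : Subgroup (Ω ≃ₐ[F] Ω)} {w : Ω} (w0 : w ≠ 0) (w1 : V.valuation w < 1)
    (hval : ∀ y : Ω, y ≠ 0 → (∀ s ∈ D, s y = y) → ∃ i : ℤ, V.valuation y = V.valuation w ^ i) (P : Pt (WAB A B) Ω) (hK : Ker V P)
    (hf : ∀ s ∈ D, ac (WAB A B) s P = P) : P ∈ EF hG D w w1 0 := by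
  rw [mem_EF]
  refine ⟨hK, hf, ?_⟩
  by_cases h0 : (tt P : Ω) = 0
  · rw [h0, map_zero]; exact zero_le
  · obtain ⟨m, hm⟩ := hval (tt P) h0 (fun s hs => by rw [← H55K.tt_ac, hf s hs])
    have h1 := H55K.ttlt hG hK
    rw [hm] at h1 ⊢
    have hw : 0 < V.valuation w := zero_lt_iff.mpr ((Valuation.ne_zero_iff _).2 w0)
    have hm1 : 1 ≤ m := by
      by_contra hlt
      have hle : m ≤ 0 := by omega
      have h2 : (1 : V.ValueGroup) ≤ V.valuation w ^ m := one_le_zpow_of_nonpos₀ hw w1.le hle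
      exact absurd h1 (not_lt.2 h2)
    obtain ⟨k, rfl⟩ : ∃ k : ℕ, m = (k : ℤ) := ⟨m.toNat, by omega⟩
    rw [zpow_natCast]
    exact pow_le_pow_right_of_le_one' w1.le (by omega)

/-- Chunk E2 (S). -/
theorem ef_anti (hG : GV A B V) (D : Subgroup (Ω ≃ₐ[F] Ω)) {w : Ω} (w1 : V.valuation w < 1) : Antitone (EF hG D w w1) := by
  intro a b hab P hP
  rw [mem_EF] at hP ⊢
  exact ⟨hP.1, hP.2.1, hP.2.2.trans (pow_le_pow_right_of_le_one' w1.le (by omega))⟩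

end H19B
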