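import Mathlib
import Pool.Agent.Lib.H19B.GA

/-! # H19B, chunk GB (M): counting with filtrations, surjectivity (ONLY MATHLIB) -/

namespace H19B

/-- Chunk GB (M). PROOF. Let B = A 0, fB = (A 0).map f. (A (J+e)).relIndex B = q^(J+e) and (A J).relIndex B = q^J (chain: AddSubgroup.relIndex_mul_relIndex, induction). ((A J).map f) ≤ A (J+e), so (A (J+e)).relIndex B divides (or is at most, all finite) ((A J).map f).relIndex B
= ((A J).map f).relIndex fB * fB.relIndex B (fB ≤ B by h0). ((A J).map f).relIndex fB ≤ (A J).relIndex B = q^J, it divides it (AddSubgroup.relIndex_map_map or an argument with representatives: the map B / A J -> fB / f (A J) is surjective). K ≤ fB: fB.relIndex B ≤ K.relIndex B and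
it is not 0. q^(J+e) ≤ q^J * fB.relIndex B, cancel q^J. -/
theorem count_index {M : Type} [AddCommGroup M] (A : ℕ → AddSubgroup M) (hA : Antitone A) {q : ℕ} (hq : 0 < q)
    (h : ∀ i, (A (i + 1)).relIndex (A i) = q) (f : M →+ M) (h0 : ∀ x ∈ A 0, f x ∈ A 0) (J e : ℕ) (hf : ∀ x ∈ A J, f x ∈ A (J + e))
    (K : AddSubgroup M) (hK : ∀ x ∈ K, ∃ y ∈ A 0, f y = x) (hKf : K.relIndex (A 0) ≠ 0) : q ^ e ≤ K.relIndex (A 0) := by
  classical
  have hch : ∀ k, (A k).relIndex (A 0) = q ^ k := by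
    intro k
    induction k with
    | zero => rw [AddSubgroup.relIndex_self, pow_zero]
    | succ k ih =>
      rw [← AddSubgroup.relIndex_mul_relIndex (A (k + 1)) (A k) (A 0) (hA (Nat.le_succ k)) (hA (Nat.zero_le k)), h k, ih, pow_succ']
  have hfB : (A 0).map f ≤ A 0 := by
    rintro x ⟨y, hy, rfl⟩
    exact h0 y hy
  have hfJ : (A J).map f ≤ A (J + e) := by
    rintro x ⟨y, hy, rfl⟩
    exact hf y hy
  have hJB : (A J).map f ≤ (A 0).map f := AddSubgroup.map_mono (hA (Nat.zero_le J))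
  have hKB : K ≤ (A 0).map f := by
    intro x hx
    obtain ⟨y, hy, rfl⟩ := hK x hx
    exact ⟨y, hy, rfl⟩
  have h1 : ((A 0).map f).relIndex (A 0) ≠ 0 := by
    intro h2
    apply hKf
    have h3 := AddSubgroup.relIndex_dvd_of_le_left (A 0) hKB
    rw [h2] at h3
    exact Nat.eq_zero_of_zero_dvd h3
  have h2 : ((A 0).map f).relIndex (A 0) ≤ K.relIndex (A 0) := AddSubgroup.relIndex_le_of_le_left hKB hKf
  let g : M → M := fun x => if hx : ∃ y ∈ A 0, f y = x then hx.choose else 0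
  have hg : ∀ x, (∃ y ∈ A 0, f y = x) → g x ∈ A 0 ∧ f (g x) = x := by
    intro x hx
    have h3 : g x = hx.choose := dif_pos hx
    rw [h3]
    exact hx.choose_spec
  have h3 := rel_map ((A J).map f) ((A 0).map f) (A J) (A 0) g (fun b hb => (hg b hb).1)
    (fun b hb b' hb' hbb => ⟨g b - g b', hbb, by rw [map_sub, (hg b hb).2, (hg b' hb').2]⟩) (by
      rw [hch J]
      exact (pow_pos hq J).ne')
  rw [hch J] at h3
  have h4 := AddSubgroup.relIndex_mul_relIndex ((A J).map f) ((A 0).map f) (A 0) hJB hfB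
  have h5 : ((A J).map f).relIndex (A 0) ≠ 0 := by
    rw [← h4]
    exact Nat.mul_ne_zero h3.1 h1
  have h6 := AddSubgroup.relIndex_le_of_le_left hfJ h5
  rw [hch (J + e), ← h4, pow_add] at h6
  have h7 : q ^ J * q ^ e ≤ q ^ J * ((A 0).map f).relIndex (A 0) :=
    h6.trans (Nat.mul_le_mul_right _ h3.2)
  exact (Nat.le_of_mul_le_mul_left h7 (pow_pos hq J)).trans h2

/-- Chunk GB (M). PROOF. K = {P in E | g P in A} is a subgroup (hadd: g (P - P') = g P - g P' modulo A; g 0 in A from P = P'), and P -> class of g P is an injective homomorphism of E / K to B / A (A ≤ B). So K.relIndex E ≠ 0 and K.relIndex E ≤ A.relIndex B ≤ m (rel_map), and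
m ≤ K.relIndex E (hE). So the image of E / K in the finite set B / A has at least A.relIndex B elements: the map is surjective. -/
theorem surj_index {M M' : Type} [AddCommGroup M] [AddCommGroup M'] (E : AddSubgroup M) (A B : AddSubgroup M') (hAB : A ≤ B) (g : M → M')
    (hg : ∀ P ∈ E, g P ∈ B) (hadd : ∀ P ∈ E, ∀ P' ∈ E, g (P - P') - (g P - g P') ∈ A) {m : ℕ} (hf : A.relIndex B ≠ 0)
    (hm : A.relIndex B ≤ m) (hE : ∀ K : AddSubgroup M, (∀ P ∈ K, P ∈ E ∧ g P ∈ A) → K.relIndex E ≠ 0 → m ≤ K.relIndex E)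
    (c : M') (hc : c ∈ B) : ∃ P ∈ E, c - g P ∈ A := by
  classical
  have hz : g 0 ∈ A := by
    have h1 := hadd 0 E.zero_mem 0 E.zero_mem
    rwa [sub_zero, sub_self, sub_zero] at h1
  have hng : ∀ P ∈ E, g P ∈ A → g (-P) ∈ A := by
    intro P hP hgP
    have h1 := hadd 0 E.zero_mem P hP
    rw [zero_sub] at h1
    have h2 := A.add_mem h1 (A.sub_mem hz hgP)
    rwa [sub_add_cancel] at h2
  let K : AddSubgroup M :=
    { carrier := {P | P ∈ E ∧ g P ∈ A}
      zero_mem' := ⟨E.zero_mem, hz⟩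
      add_mem' := by
        rintro P P' ⟨h1, h2⟩ ⟨h3, h4⟩
        refine ⟨E.add_mem h1 h3, ?_⟩
        have h5 := hadd P h1 (-P') (E.neg_mem h3)
        rw [sub_neg_eq_add] at h5
        have h6 := A.add_mem h5 (A.sub_mem h2 (hng P' h3 h4))
        rwa [sub_add_cancel] at h6
      neg_mem' := by
        rintro P ⟨h1, h2⟩
        exact ⟨E.neg_mem h1, hng P h1 h2⟩ }
  have hj : ∀ b ∈ E, ∀ b' ∈ E, g b - g b' ∈ A → b - b' ∈ K := by
    intro b hb b' hb' h1
    refine ⟨E.sub_mem hb hb', ?_⟩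
    have h2 := A.add_mem (hadd b hb b' hb') h1
    rwa [sub_add_cancel] at h2
  have h1 := rel_map K E A B g hg hj hf
  have h2 : m ≤ K.relIndex E := hE K (fun P hP => hP) h1.1
  have hle : A.relIndex B ≤ K.relIndex E := hm.trans h2
  have hfi : (A.addSubgroupOf B).FiniteIndex := ⟨hf⟩
  have hfin2 : Finite (B ⧸ A.addSubgroupOf B) := AddSubgroup.finite_quotient_of_finiteIndex
  let φ : (E ⧸ K.addSubgroupOf E) → (B ⧸ A.addSubgroupOf B) := fun x =>
    QuotientAddGroup.mk (⟨g (Quotient.out x : E), hg _ (Quotient.out x : E).2⟩ : B)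
  have hφ : Function.Injective φ := by
    intro x x' hx
    have h3 := QuotientAddGroup.eq.1 hx
    have h4 : -g (Quotient.out x : E) + g (Quotient.out x' : E) ∈ A := h3
    have h5 : g (Quotient.out x' : E) - g (Quotient.out x : E) ∈ A := by
      rw [sub_eq_neg_add]
      exact h4
    have h6 := hj _ (Quotient.out x' : E).2 _ (Quotient.out x : E).2 h5
    rw [← QuotientAddGroup.out_eq' x, ← QuotientAddGroup.out_eq' x']
    apply QuotientAddGroup.eq.2
    show -((Quotient.out x : E) : M) + ((Quotient.out x' : E) : M) ∈ K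
    rw [← sub_eq_neg_add]
    exact h6
  have hbij := hφ.bijective_of_nat_card_le hle
  obtain ⟨x, hx⟩ := hbij.2 (QuotientAddGroup.mk (⟨c, hc⟩ : B))
  have h3 := QuotientAddGroup.eq.1 hx
  refine ⟨(Quotient.out x : E), (Quotient.out x : E).2, ?_⟩
  have h4 : -g (Quotient.out x : E) + c ∈ A := h3
  rw [sub_eq_neg_add]
  exact h4

end H19B
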