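import Mathlib
import Pool.Agent.Lib.H19B.D

/-! # H19B, chunk R1 (S): representatives of cosets -/

namespace H19B

variable {G : Type} [Group G]

/-- Chunk R1 (S). PROOF. The quotient of B by A.subgroupOf B is finite (Subgroup.relIndex, Subgroup.index_ne_zero_iff_finite); S = image of the map Quotient.out (then the
coercion to G). ex: t in B, s = the representative of the coset of t (QuotientGroup.out_eq', QuotientGroup.eq). un: equal cosets. card: the map is injective, Nat.card of the quotient is
the relIndex. -/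
theorem rep_exists (A B : Subgroup G) (hf : A.relIndex B ≠ 0) : ∃ S : Finset G, Rep A B S ∧ S.card = A.relIndex B := by
  classical
  have hfin : Finite (B ⧸ A.subgroupOf B) := by
    have h : (A.subgroupOf B).index ≠ 0 := hf
    exact (Subgroup.index_ne_zero_iff_finite).1 h
  have hft : Fintype (B ⧸ A.subgroupOf B) := Fintype.ofFinite _
  let r : (B ⧸ A.subgroupOf B) → G := fun c => ((Quotient.out c : B) : G)
  have key : ∀ c c' : B ⧸ A.subgroupOf B, (r c)⁻¹ * r c' ∈ A → c = c' := by
    intro c c' h
    have h1 : (Quotient.out c : B)⁻¹ * (Quotient.out c' : B) ∈ A.subgroupOf B := by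
      rw [Subgroup.mem_subgroupOf]
      simpa [r] using h
    have h2 : ((Quotient.out c : B) : B ⧸ A.subgroupOf B) = ((Quotient.out c' : B) : B ⧸ A.subgroupOf B) :=
      QuotientGroup.eq.2 h1
    rw [QuotientGroup.out_eq', QuotientGroup.out_eq'] at h2
    exact h2
  have hinj : Function.Injective r := by
    intro c c' h
    apply key
    rw [h]
    simp [A.one_mem]
  refine ⟨Finset.univ.image r, ⟨?_, ?_, ?_⟩, ?_⟩
  · intro s hs
    obtain ⟨c, -, rfl⟩ := Finset.mem_image.1 hs
    exact (Quotient.out c : B).2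
  · intro t ht
    refine ⟨r ((⟨t, ht⟩ : B) : B ⧸ A.subgroupOf B), Finset.mem_image_of_mem _ (Finset.mem_univ _), ?_⟩
    have h2 : ((Quotient.out (((⟨t, ht⟩ : B) : B ⧸ A.subgroupOf B)) : B) : B ⧸ A.subgroupOf B) = ((⟨t, ht⟩ : B) : B ⧸ A.subgroupOf B) :=
      QuotientGroup.out_eq' _
    have h3 := QuotientGroup.eq.1 h2
    rw [Subgroup.mem_subgroupOf] at h3
    simpa [r] using h3
  · intro s hs s' hs' h
    obtain ⟨c, -, rfl⟩ := Finset.mem_image.1 hs
    obtain ⟨c', -, rfl⟩ := Finset.mem_image.1 hs'
    rw [key c c' h]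
  · rw [Finset.card_image_of_injective _ hinj, Finset.card_univ, ← Nat.card_eq_fintype_card]
    rfl

/-- Chunk R1 (S). PROOF. For s in S, g * s is in B, so (ex) there is s' in S with g s = s' t, t in A, and f (g s) = f s'. The map s -> s' of S to itself is injective: g s1 = s' t1, g s2 = s' t2 give
s1⁻¹ s2 = t1⁻¹ t2 in A, s1 = s2 (un); so it is a bijection of the finite set S (Finset.prod_bij or Finset.prod_nbij with surjectivity from Finset.surj_on_of_inj_on_of_card_le;
or work with the type S and Finite.injective_iff_bijective, Equiv.ofBijective, Finset.prod_coe_sort). -/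
theorem rep_prod {A B : Subgroup G} {S : Finset G} (hS : Rep A B S) {M : Type} [CommMonoid M] (f : G → M)
    (hf : ∀ s ∈ B, ∀ t ∈ A, f (s * t) = f s) (g : G) (hg : g ∈ B) : ∏ s ∈ S, f (g * s) = ∏ s ∈ S, f s := by
  classical
  have hex : ∀ s ∈ S, ∃ s' ∈ S, s'⁻¹ * (g * s) ∈ A := fun s hs => hS.ex _ (B.mul_mem hg (hS.mem s hs))
  choose! k hk1 hk2 using hex
  have hkinj : ∀ s ∈ S, ∀ t ∈ S, k s = k t → s = t := by
    intro s hs t ht h
    apply hS.un s hs t ht
    have e1 := A.inv_mem (hk2 s hs)
    have e2 := hk2 t ht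
    rw [← h] at e2
    have e3 := A.mul_mem e1 e2
    have : ((k s)⁻¹ * (g * s))⁻¹ * ((k s)⁻¹ * (g * t)) = s⁻¹ * t := by group
    rwa [this] at e3
  have himg : S.image k = S := by
    apply Finset.eq_of_subset_of_card_le
    · intro x hx
      obtain ⟨s, hs, rfl⟩ := Finset.mem_image.1 hx
      exact hk1 s hs
    · rw [Finset.card_image_of_injOn (fun s hs t ht h => hkinj s hs t ht h)]
  have h1 : ∀ s ∈ S, f (g * s) = f (k s) := by
    intro s hs
    have h := hf (k s) (hS.mem _ (hk1 s hs)) _ (hk2 s hs)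
    rw [← h]
    congr 1
    group
  rw [Finset.prod_congr rfl h1]
  conv_rhs => rw [← himg]
  rw [Finset.prod_image (fun s hs t ht h => hkinj s hs t ht h)]

/-- Chunk R1 (S). The additive version (apply rep_prod to Multiplicative M, or repeat the proof). -/
theorem rep_sum {A B : Subgroup G} {S : Finset G} (hS : Rep A B S) {M : Type} [AddCommMonoid M] (f : G → M)
    (hf : ∀ s ∈ B, ∀ t ∈ A, f (s * t) = f s) (g : G) (hg : g ∈ B) : ∑ s ∈ S, f (g * s) = ∑ s ∈ S, f s := by
  have h := rep_prod (M := Multiplicative M) hS (fun x => Multiplicative.ofAdd (f x))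
    (fun s hs t ht => by rw [hf s hs t ht]) g hg
  have h' := congrArg Multiplicative.toAdd h
  rw [toAdd_prod, toAdd_prod] at h'
  simpa using h'

end H19B
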