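import Mathlib
import Pool.Agent.Lib.H19B.D

/-! # H19B, chunk Z1 (S/M): powers of a root of unity with exponent in the integers modulo p -/

namespace H19B

section zt

variable {Ω : Type} [Field Ω] {p : ℕ} {ζ : Ω}

/-- Chunk Z1 (S). ZMod.val_zero. -/
theorem zt_zero : zt ζ (0 : ZMod p) = 1 := by
  rw [zt, ZMod.val_zero, pow_zero]

/-- Chunk Z1 (S). ZMod.val_natCast: the exponent is k % p; ζ^p = 1 (pow_mod_orderOf or Nat.div_add_mod). -/
theorem zt_nat (hζ : IsPrimitiveRoot ζ p) (k : ℕ) : zt ζ (k : ZMod p) = ζ ^ k := by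
  rw [zt, ZMod.val_natCast]
  conv_lhs => rw [hζ.eq_orderOf]
  exact pow_mod_orderOf ζ k

/-- Chunk Z1 (S). a = a.val, b = b.val as elements of ZMod p (ZMod.natCast_zmod_val; p ≠ 0: NeZero), zt_nat for a.val + b.val. -/
theorem zt_add (hp : p.Prime) (hζ : IsPrimitiveRoot ζ p) (a b : ZMod p) : zt ζ (a + b) = zt ζ a * zt ζ b := by
  have : NeZero p := ⟨hp.ne_zero⟩
  have h : a + b = ((a.val + b.val : ℕ) : ZMod p) := by
    rw [Nat.cast_add, ZMod.natCast_zmod_val, ZMod.natCast_zmod_val]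
  rw [h, zt_nat hζ, pow_add]
  rfl

/-- Chunk Z1 (S). -/
theorem zt_ne (hp : p.Prime) (hζ : IsPrimitiveRoot ζ p) (a : ZMod p) : zt ζ a ≠ 0 :=
  pow_ne_zero _ (hζ.ne_zero hp.ne_zero)

/-- Chunk Z1 (S). zt_add for a + (-a). -/
theorem zt_neg (hp : p.Prime) (hζ : IsPrimitiveRoot ζ p) (a : ZMod p) : zt ζ (-a) = (zt ζ a)⁻¹ := by
  have h := zt_add hp hζ (-a) a
  rw [neg_add_cancel, zt_zero] at h
  exact eq_inv_of_mul_eq_one_left h.symm

/-- Chunk Z1 (S). zt_nat for k * a.val. -/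
theorem zt_mul (hp : p.Prime) (hζ : IsPrimitiveRoot ζ p) (k : ℕ) (a : ZMod p) : zt ζ ((k : ZMod p) * a) = zt ζ a ^ k := by
  have : NeZero p := ⟨hp.ne_zero⟩
  have h : (k : ZMod p) * a = ((k * a.val : ℕ) : ZMod p) := by
    rw [Nat.cast_mul, ZMod.natCast_zmod_val]
  rw [h, zt_nat hζ, mul_comm, pow_mul]
  rfl

/-- Chunk Z1 (S). -/
theorem zt_pow (hζ : IsPrimitiveRoot ζ p) (a : ZMod p) : zt ζ a ^ p = 1 := by
  rw [zt, ← pow_mul, mul_comm, pow_mul, hζ.pow_eq_one, one_pow]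

/-- Chunk Z1 (S). IsPrimitiveRoot.pow_inj or pow_eq_one_iff_dvd, ZMod.val_lt. -/
theorem zt_inj (hp : p.Prime) (hζ : IsPrimitiveRoot ζ p) (a : ZMod p) (h : zt ζ a = 1) : a = 0 := by
  have : NeZero p := ⟨hp.ne_zero⟩
  have h1 : p ∣ a.val := (hζ.pow_eq_one_iff_dvd _).1 h
  have h2 : a.val = 0 := Nat.eq_zero_of_dvd_of_lt h1 (ZMod.val_lt a)
  exact (ZMod.val_eq_zero a).1 h2

/-- Chunk Z1 (S). IsPrimitiveRoot.eq_pow_of_pow_eq_one; zt_nat. -/
theorem zt_root (hp : p.Prime) (hζ : IsPrimitiveRoot ζ p) {x : Ω} (hx : x ^ p = 1) : ∃ a : ZMod p, x = zt ζ a := by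
  have : NeZero p := ⟨hp.ne_zero⟩
  obtain ⟨i, _, hi⟩ := hζ.eq_pow_of_pow_eq_one hx
  exact ⟨(i : ZMod p), by rw [zt_nat hζ, hi]⟩

theorem z1_val {n : ℕ} (hn : n ≠ 0) (V : ValuationSubring Ω) {x : Ω} (hx : x ^ n = 1) : V.valuation x = 1 := by
  have h : V.valuation x ^ n = 1 := by rw [← map_pow, hx, map_one]
  exact (pow_eq_one_iff_of_nonneg zero_le hn).1 h

/-- Chunk Z1 (S). V(x)^p = 1 for x^p = 1, p ≠ 0 (pow_eq_one_iff in a linearly ordered monoid). -/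
theorem zt_val (hp : p.Prime) (hζ : IsPrimitiveRoot ζ p) (V : ValuationSubring Ω) (a : ZMod p) : V.valuation (zt ζ a) = 1 :=
  z1_val hp.ne_zero V (zt_pow hζ a)

theorem z1_le (V : ValuationSubring Ω) {x : Ω} (hx : V.valuation x ≤ 1) (k : ℕ) : V.valuation (x ^ k - 1) ≤ V.valuation (x - 1) := by
  rw [← geom_sum_mul x k, map_mul]
  have h : V.valuation (∑ i ∈ Finset.range k, x ^ i) ≤ 1 := by
    rw [V.valuation_le_one_iff] at hx ⊢
    exact sum_mem fun i _ => pow_mem hx i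
  calc V.valuation (∑ i ∈ Finset.range k, x ^ i) * V.valuation (x - 1) ≤ 1 * V.valuation (x - 1) := mul_le_mul_left h _
    _ = V.valuation (x - 1) := one_mul _

/-- Chunk Z1 (S/M). PROOF. p = product over 0 < i < p of (1 - ζ^i) (IsPrimitiveRoot.prod_one_sub_pow_eq_order or similar: Mathlib has theorems on eval 1 of cyclotomic p and X^p - 1; the derivative of
X^p - 1 = prod (X - ζ^i) at 1). All factors have the same value: for x, y ≠ 1 with x^p = y^p = 1, y is a power x^k (x is a primitive root: p prime), so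
y - 1 = (x - 1)(1 + x + .. + x^(k-1)), V(y - 1) ≤ V(x - 1), and conversely. So V(zt a - 1)^(p-1) = V(p). -/
theorem zt_sub_one (hp : p.Prime) (hζ : IsPrimitiveRoot ζ p) (V : ValuationSubring Ω) (a : ZMod p) (ha : a ≠ 0) :
    V.valuation (zt ζ a - 1) ^ (p - 1) = V.valuation (p : Ω) := by
  set μ := zt ζ a with hμ
  have h1 : μ ^ p = 1 := zt_pow hζ a
  have h2 : μ ≠ 1 := fun h => ha (zt_inj hp hζ a h)
  have : Fact p.Prime := ⟨hp⟩
  have h3 : orderOf μ = p := orderOf_eq_prime h1 h2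
  have h4 : IsPrimitiveRoot μ p := h3 ▸ IsPrimitiveRoot.orderOf μ
  obtain ⟨m, hm⟩ : ∃ m, p = m + 1 := ⟨p - 1, by have := hp.pos; omega⟩
  have h5 : ∏ k ∈ Finset.range m, (1 - μ ^ (k + 1)) = (p : Ω) := by
    have h6 : IsPrimitiveRoot μ (m + 1) := hm ▸ h4
    rw [h6.prod_one_sub_pow_eq_order, hm]
    push_cast
    ring
  have hv : V.valuation μ ≤ 1 := (z1_val hp.ne_zero V h1).le
  have h7 : ∀ k ∈ Finset.range m, V.valuation (1 - μ ^ (k + 1)) = V.valuation (μ - 1) := by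
    intro k hk
    rw [Finset.mem_range] at hk
    have hs : V.valuation (1 - μ ^ (k + 1)) = V.valuation (μ ^ (k + 1) - 1) := by
      rw [← neg_sub, Valuation.map_neg]
    rw [hs]
    refine le_antisymm (z1_le V hv _) ?_
    have hc : Nat.Coprime (k + 1) p := ((Nat.Prime.coprime_iff_not_dvd hp).2 (Nat.not_dvd_of_pos_of_lt (by omega) (by omega))).symm
    obtain ⟨j, _, hj⟩ := Nat.exists_mul_mod_eq_one_of_coprime hc hp.one_lt
    have h8 : (μ ^ (k + 1)) ^ j = μ := by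
      rw [← pow_mul]
      conv_lhs => rw [← pow_mod_orderOf, h3]
      rw [hj, pow_one]
    have h9 : V.valuation (μ ^ (k + 1)) ≤ 1 := by rw [map_pow]; exact pow_le_one' hv _
    have h10 := z1_le V h9 j
    rw [h8] at h10
    exact h10
  rw [← h5, map_prod, Finset.prod_congr rfl h7, Finset.prod_const, Finset.card_range]
  congr 1
  omega

end zt

section frm

variable {F : Type} [Field F] {Ω : Type} [Field Ω] [Algebra F Ω]

/-- Chunk Z1 (S). s ζ = ζ^((om s).val) (zD), zt a = ζ^a.val; zt_nat, ZMod.natCast_zmod_val. -/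
theorem zt_map (X : Frm F Ω) (h : X.Ok) (s : Ω ≃ₐ[F] Ω) (hs : s ∈ X.D) (a : ZMod X.p) :
    s (zt X.ζ a) = zt X.ζ (X.om s * a) := by
  have : NeZero X.p := ⟨h.pr.ne_zero⟩
  have h1 : s (zt X.ζ a) = (s X.ζ) ^ a.val := by rw [zt, map_pow]
  rw [h1, h.zD s hs, ← zt_mul h.pr h.prim, ZMod.natCast_zmod_val, mul_comm]

/-- Chunk Z1 (S). s ζ ≠ 1 (injective), zt 0 = 1. -/
theorem om_ne (X : Frm F Ω) (h : X.Ok) (s : Ω ≃ₐ[F] Ω) (hs : s ∈ X.D) : X.om s ≠ 0 := by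
  intro h0
  have h1 := h.zD s hs
  rw [h0, zt_zero, ← map_one s] at h1
  exact h.prim.ne_one h.pr.one_lt (s.injective h1)

/-- Chunk Z1 (S). V(p) = V(w)^e, e > 0, V(w) < 1. -/
theorem vp_lt (X : Frm F Ω) (h : X.Ok) : X.V.valuation (X.p : Ω) < 1 := by
  rw [h.ep]
  exact pow_lt_one₀ zero_le h.w1 h.e0.ne'

/-- Chunk Z1 (S). Values of elements fixed by E: V(x) ≤ 1 etc. A nonzero x fixed by E with V(x) < V(w)^i satisfies V(x) ≤ V(w)^(i+1) (h.val: V(x) = V(w)^m, m an integer;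
V(w) < 1, V(w) ≠ 0, so m > i; zpow order lemmas in a linearly ordered group with zero). -/
theorem val_succ (X : Frm F Ω) (h : X.Ok) {x : Ω} (hx : ∀ s ∈ X.E, s x = x) {i : ℕ} (hi : X.V.valuation x < X.V.valuation X.w ^ i) :
    X.V.valuation x ≤ X.V.valuation X.w ^ (i + 1) := by
  rcases eq_or_ne x 0 with rfl | h0
  · rw [map_zero]; exact zero_le
  obtain ⟨m, hm⟩ := h.val x h0 hx
  have hw : 0 < X.V.valuation X.w := zero_lt_iff.2 ((map_ne_zero _).2 h.w0)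
  rw [hm, ← zpow_natCast] at hi ⊢
  have h1 : (i : ℤ) < m := (zpow_lt_zpow_iff_right_of_lt_one₀ hw h.w1).1 hi
  exact (zpow_le_zpow_iff_right_of_lt_one₀ hw h.w1).2 (by push_cast; omega)

/-- Chunk Z1 (S). om is multiplicative on D: (s t) ζ = s (t ζ) = s (zt (om t)) = zt (om s * om t) (zt_map); injectivity of zt (zt_inj, zt_add, zt_neg). -/
theorem om_mul (X : Frm F Ω) (h : X.Ok) (s t : Ω ≃ₐ[F] Ω) (hs : s ∈ X.D) (ht : t ∈ X.D) : X.om (s * t) = X.om s * X.om t := by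
  have h1 := h.zD (s * t) (X.D.mul_mem hs ht)
  rw [AlgEquiv.mul_apply, h.zD t ht, zt_map X h s hs] at h1
  have h2 : zt X.ζ (X.om (s * t) - X.om s * X.om t) = 1 := by
    rw [sub_eq_add_neg, zt_add h.pr h.prim, zt_neg h.pr h.prim, ← h1]
    exact mul_inv_cancel₀ (zt_ne h.pr h.prim _)
  exact sub_eq_zero.1 (zt_inj h.pr h.prim _ h2)

end frm

end H19B
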