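import Mathlib
import Pool.Agent.Lib.H19B.D2
import Pool.Agent.Lib.H19B.F3
import Pool.Agent.Lib.H19B.R1
import Pool.Agent.Lib.H19B.Z1
import Pool.Agent.Lib.H13X.XE

/-! # H19B, chunk C4 (M): cocycles and twisted characters -/

open NumberField IsDedekindDomain WeierstrassCurve

namespace H19B

open H55P (IQ Pt ac Dec Inert decS Nm)
open H35P (WAB Ker tt)
open H55K (Tor CMA Dta GV ak cj)

variable {F : Type} [Field F] [NumberField F] [IQ F] {A B : F} {Om : ℂ} {Ω : Type} [Field Ω] [DecidableEq Ω]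
  [Algebra F Ω] [IsAlgClosure F Ω] {j : Ω →+* ℂ} {act : 𝓞 F →+* AddMonoid.End (Pt (WAB A B) Ω)} {mo : Ideal (𝓞 F)}
  {ψ : Ideal (𝓞 F) →*₀ 𝓞 F} {p : ℕ} {V : ValuationSubring Ω} {π : 𝓞 F}

section c4aux

variable {M : Type} [AddCommGroup M] {p : ℕ} {T₀ : M}

theorem c4_nat (h3 : p • T₀ = 0) (k : ℕ) : (k : ZMod p).val • T₀ = k • T₀ := by
  rw [ZMod.val_natCast]
  conv_rhs => rw [← Nat.mod_add_div k p, add_nsmul, mul_comm, mul_nsmul', h3, nsmul_zero, add_zero]

theorem c4_add [NeZero p] (h3 : p • T₀ = 0) (a b : ZMod p) : (a + b).val • T₀ = a.val • T₀ + b.val • T₀ := by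
  have h : a + b = ((a.val + b.val : ℕ) : ZMod p) := by
    rw [Nat.cast_add, ZMod.natCast_zmod_val, ZMod.natCast_zmod_val]
  rw [h, c4_nat h3, add_nsmul]

theorem c4_mul [NeZero p] (h3 : p • T₀ = 0) (a b : ZMod p) : (a * b).val • T₀ = a.val • (b.val • T₀) := by
  have h : a * b = ((a.val * b.val : ℕ) : ZMod p) := by
    rw [Nat.cast_mul, ZMod.natCast_zmod_val, ZMod.natCast_zmod_val]
  rw [h, c4_nat h3, mul_nsmul']

theorem c4_inj [NeZero p] (h3 : p • T₀ = 0) (h2 : ∀ a : ZMod p, a.val • T₀ = 0 → a = 0) {a b : ZMod p}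
    (h : a.val • T₀ = b.val • T₀) : a = b := by
  have h1 := c4_add h3 (a - b) b
  rw [sub_add_cancel, h] at h1
  exact sub_eq_zero.1 (h2 _ (left_eq_add.1 (by rw [add_comm] at h1; exact h1)))

theorem c4_rep {G : Type} [Group G] {A B : Subgroup G} {S : Finset G} (hS : Rep A B S) : A.relIndex B = S.card := by
  classical
  let f : S → B ⧸ A.subgroupOf B := fun s => ((⟨s.1, hS.mem s.1 s.2⟩ : B) : B ⧸ A.subgroupOf B)
  have hf : Function.Bijective f := by
    constructor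
    · rintro ⟨s, hs⟩ ⟨t, ht⟩ h
      have h1 := QuotientGroup.eq.1 h
      rw [Subgroup.mem_subgroupOf] at h1
      exact Subtype.ext (hS.un s hs t ht h1)
    · intro x
      obtain ⟨t, rfl⟩ := QuotientGroup.mk_surjective x
      obtain ⟨s, hs, h⟩ := hS.ex t.1 t.2
      refine ⟨⟨s, hs⟩, QuotientGroup.eq.2 ?_⟩
      rw [Subgroup.mem_subgroupOf]
      exact h
  have h := Nat.card_eq_of_bijective f hf
  rw [Nat.card_eq_fintype_card, Fintype.card_coe] at h
  rw [h]
  rfl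

end c4aux

/-- The character of a cocycle on C with respect to the generator T₀. -/
noncomputable def ach (X : Frm F Ω) (T₀ : Pt (WAB A B) Ω) (c : (Ω ≃ₐ[F] Ω) → Pt (WAB A B) Ω) : (Ω ≃ₐ[F] Ω) → ZMod X.p :=
  open Classical in fun t => if h : ∃ a : ZMod X.p, c t = a.val • T₀ then h.choose else 0

/-- Chunk C4 (S). Choose_spec; for c in CS and t in C the value c t is killed by π. -/
theorem ach_spec {X : Frm F Ω} {N : IntermediateField F Ω} (hX : Of X act π N) {T₀ : Pt (WAB A B) Ω}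
    (h1 : ∀ T : Pt (WAB A B) Ω, act π T = 0 → ∃ a : ZMod X.p, T = a.val • T₀) {c : (Ω ≃ₐ[F] Ω) → Pt (WAB A B) Ω} (hc : Cc X.D act π c)
    (t : Ω ≃ₐ[F] Ω) (ht : t ∈ X.D) : c t = (ach X T₀ c t).val • T₀ := by
  classical
  have h := h1 (c t) (hc.tor t ht)
  have e : ach X T₀ c t = h.choose := dif_pos h
  rw [e]
  exact h.choose_spec

/-- Chunk C4 (M). PROOF. On C the action on the points killed by p (so on c t, p • c t = 0 as p • T₀ = 0) is trivial: c (s t) = c s + c t, and a.val • T₀ determines a (h2; (a + b).val • T₀ = a.val • T₀ + b.val • T₀ as p • T₀ = 0: ZMod.val_add, or through natCast). tw: s in D, t in C: s (s⁻¹ t s) = t s, so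
c (s * (s⁻¹ t s)) = c s + s c (s⁻¹ t s) and c (t s) = c t + t c s = c t + c s; hence s c (s⁻¹ t s) = c t. hX.ch for the point c (s⁻¹ t s): (et s).val • c t = (om s).val • c (s⁻¹ t s): et s * a t = om s * a (s⁻¹ t s). cont: from hc.cont (c s = 0 gives a s = 0 by h2). (s⁻¹ t s is in C: hX.ok.nrm1.) -/
theorem ach_tw {X : Frm F Ω} {N : IntermediateField F Ω} (hX : Of X act π N) {T₀ : Pt (WAB A B) Ω} (h0 : act π T₀ = 0)
    (h1 : ∀ T : Pt (WAB A B) Ω, act π T = 0 → ∃ a : ZMod X.p, T = a.val • T₀) (h2 : ∀ a : ZMod X.p, a.val • T₀ = 0 → a = 0)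
    (h3 : X.p • T₀ = 0) {c : (Ω ≃ₐ[F] Ω) → Pt (WAB A B) Ω} (hc : Cc X.D act π c) : X.Tw (ach X T₀ c) := by
  have hne : NeZero X.p := ⟨hX.ok.pr.ne_zero⟩
  have hD : ∀ t ∈ X.C, t ∈ X.D := fun t ht => hX.ok.le2 (hX.ok.le1 ht)
  have sp : ∀ t ∈ X.D, c t = (ach X T₀ c t).val • T₀ := fun t ht => ach_spec hX h1 hc t ht
  have hk : ∀ t ∈ X.D, X.p • c t = 0 := by
    intro t ht
    rw [sp t ht, ← mul_nsmul', mul_comm, mul_nsmul', h3, nsmul_zero]
  have hfix : ∀ s ∈ X.C, ∀ t ∈ X.D, ac (WAB A B) s (c t) = c t := fun s hs t ht =>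
    ((hX.C s).1 hs).2 _ (hk t ht)
  refine ⟨?_, ?_, ?_⟩
  · intro s hs t ht
    apply c4_inj h3 h2
    rw [c4_add h3, ← sp _ (X.D.mul_mem (hD s hs) (hD t ht)), ← sp _ (hD s hs), ← sp _ (hD t ht),
      hc.mul s (hD s hs) t (hD t ht), hfix s hs t (hD t ht)]
  · intro s hs t ht
    have ht' : s⁻¹ * t * s ∈ X.C := hX.ok.nrm1 s hs t ht
    have e1 : s * (s⁻¹ * t * s) = t * s := by group
    have e2 := hc.mul s hs _ (hD _ ht')
    have e3 := hc.mul t (hD t ht) s hs
    rw [e1, e3, hfix t ht s hs, add_comm] at e2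
    have e4 : ac (WAB A B) s (c (s⁻¹ * t * s)) = c t := (add_left_cancel e2).symm
    have e5 := hX.ch s hs _ (hc.tor _ (hD _ ht'))
    rw [e4] at e5
    apply c4_inj h3 h2
    rw [c4_mul h3, c4_mul h3, ← sp _ (hD _ ht'), ← sp _ (hD t ht), e5]
  · obtain ⟨L, hL, hc3⟩ := hc.cont
    refine ⟨L, hL, fun s hs hs' => h2 _ ?_⟩
    rw [← sp s (hD s hs)]
    exact hc3 s (hD s hs) hs'

/-- Chunk C4 (M). PROOF. Let c'' = c - c', in CS, with c'' t = 0 for t in C, Inert t (ach c t = ach c' t, ach_spec). Let I = the subgroup D ⊓ inS (inertia), J = C ⊓ I. I acts trivially on Tor (cj π) (H13X.inert_tors, V(cj π) = 1: hypothesis hb), so I ≤ E, and J.relIndex I is finite and not divisible by p: Rep X.C X.E S with p not dividing card S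
(hX.ok.rep) gives that C has index card S in E (finite, prime to p); J = C ⊓ I, so J.relIndex I = C.relIndex I divides or at least is the cardinality of a subgroup of ... : C is normal in E (nrm1), E / C is a group of order card S, and I / J is (isomorphic to) its subgroup I C / C: its order divides card S
(Subgroup.relIndex_dvd_of_le_left / relIndex_inf ... for normal subgroups: Subgroup.relIndex_dvd_index_of_normal). rep_exists J I: representatives S' of I / J, p does not divide card S'. T = -(m • ∑ over s in S' of c'' s), m card S' = 1 modulo p. For g in I: c'' (g s) = c'' g + g c'' s, c'' (g s) depends only on the coset (c'' (s t) = c'' s + s c'' t = c'' s for t in J), so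
∑ c'' s = ∑ c'' (g s) = card S' • c'' g + g ∑ c'' s (rep_sum), hence g T - T = m card S' • c'' g = c'' g (p • c'' g = 0). act π T = 0. -/
theorem ach_inert (h : CMA F A B Om j act) {X : Frm F Ω} {N : IntermediateField F Ω} (hX : Of X act π N) (hG : GV A B X.V)
    (hd : π ∣ (X.p : 𝓞 F)) (hb : X.V.valuation (ak Ω (cj π)) = 1) {T₀ : Pt (WAB A B) Ω} (h0 : act π T₀ = 0)
    (h1 : ∀ T : Pt (WAB A B) Ω, act π T = 0 → ∃ a : ZMod X.p, T = a.val • T₀) (h2 : ∀ a : ZMod X.p, a.val • T₀ = 0 → a = 0)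
    {c c' : (Ω ≃ₐ[F] Ω) → Pt (WAB A B) Ω} (hc : Cc X.D act π c) (hc' : Cc X.D act π c')
    (hi : ∀ t ∈ X.C, Inert X.V t → ach X T₀ c t = ach X T₀ c' t) : c - c' ∈ CI X.D X.V act π := by
  classical
  have hD : ∀ t ∈ X.C, t ∈ X.D := fun t ht => hX.ok.le2 (hX.ok.le1 ht)
  have hcc : Cc X.D act π (c - c') := (CS X.D act π).sub_mem hc hc'
  refine (mem_CI X.D X.V π (c - c')).2 ⟨hcc, ?_⟩
  set d : (Ω ≃ₐ[F] Ω) → Pt (WAB A B) Ω := c - c' with hd0
  have hz : ∀ t ∈ X.C, Inert X.V t → d t = 0 := by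
    intro t ht hti
    rw [hd0, Pi.sub_apply, ach_spec hX h1 hc t (hD t ht), ach_spec hX h1 hc' t (hD t ht), hi t ht hti, sub_self]
  have hpd : ∀ s ∈ X.D, X.p • d s = 0 := by
    intro s hs
    obtain ⟨k, hk⟩ := hd
    rw [← H55K.S.act_nat (act := act) X.p (d s), hk, mul_comm, H55K.S.act_mul, hcc.tor s hs, map_zero]
  let I : Subgroup (Ω ≃ₐ[F] Ω) := X.D ⊓ H55P.inS F X.V
  have hIE : I ≤ X.E := by
    intro s hs
    refine (hX.E s).2 ⟨hs.1, fun T hT => ?_⟩
    exact H13X.inert_tors h hG hb hs.2 hT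
  obtain ⟨S, hS, hSp⟩ := hX.ok.rep
  have hidx : X.C.relIndex X.E = S.card := c4_rep hS
  have hnorm : (X.C.subgroupOf X.E).Normal := by
    constructor
    intro n hn g
    rw [Subgroup.mem_subgroupOf] at hn ⊢
    have h5 := hX.ok.nrm1 (g : Ω ≃ₐ[F] Ω)⁻¹ (X.D.inv_mem (hX.ok.le2 g.2)) _ hn
    rw [inv_inv] at h5
    exact h5
  have hdvd : X.C.relIndex I ∣ S.card := by
    have h6 := Subgroup.relIndex_dvd_index_of_normal (X.C.subgroupOf X.E) (I.subgroupOf X.E)
    rw [Subgroup.relIndex_subgroupOf hIE] at h6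
    rw [← hidx]
    exact h6
  have hp1 : ¬ X.p ∣ X.C.relIndex I := fun h6 => hSp (h6.trans hdvd)
  have hne : (X.C ⊓ I).relIndex I ≠ 0 := by
    rw [Subgroup.inf_relIndex_right]
    exact fun h6 => hp1 (h6 ▸ dvd_zero _)
  obtain ⟨S', hS', hcard⟩ := rep_exists (X.C ⊓ I) I hne
  rw [Subgroup.inf_relIndex_right] at hcard
  have hcop : Nat.Coprime S'.card X.p := by
    rw [hcard]
    exact ((Nat.Prime.coprime_iff_not_dvd hX.ok.pr).2 hp1).symm
  obtain ⟨m, _, hm⟩ := Nat.exists_mul_mod_eq_one_of_coprime hcop hX.ok.pr.one_lt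
  refine ⟨-(m • ∑ s ∈ S', d s), ?_, ?_⟩
  · rw [map_neg, map_nsmul, map_sum, Finset.sum_eq_zero (fun s hs => hcc.tor s (hS'.mem s hs).1), nsmul_zero, neg_zero]
  · intro g hg hgi
    have hgI : g ∈ I := ⟨hg, hgi⟩
    have e1 := rep_sum hS' d (fun s hs t ht => by
      rw [hcc.mul s hs.1 t ht.2.1, hz t ht.1 ht.2.2, map_zero, add_zero]) g hgI
    have e2 : ∑ s ∈ S', d (g * s) = S'.card • d g + ac (WAB A B) g (∑ s ∈ S', d s) := by
      rw [map_sum, ← Finset.sum_const, ← Finset.sum_add_distrib]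
      exact Finset.sum_congr rfl fun s hs => hcc.mul g hg s (hS'.mem s hs).1
    rw [e1] at e2
    have e3 : (S'.card * m) • d g = d g := by
      conv_lhs => rw [← Nat.mod_add_div (S'.card * m) X.p, hm]
      rw [add_nsmul, one_nsmul, mul_comm, mul_nsmul', hpd g hg, nsmul_zero, add_zero]
    rw [map_neg, map_nsmul, sub_neg_eq_add, neg_add_eq_sub, ← nsmul_sub]
    have e4 : ∑ s ∈ S', d s - ac (WAB A B) g (∑ s ∈ S', d s) = S'.card • d g := by
      rw [sub_eq_iff_eq_add]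
      exact e2
    rw [e4, ← mul_nsmul', mul_comm, e3]

end H19B
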