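import Mathlib
import Pool.Agent.Lib.H19B.D2
import Pool.Agent.Lib.H13S.IN4
import Pool.Agent.Lib.H13S.VW

/-! # H19B, chunk F1 (M): the uniformizer -/

open NumberField IsDedekindDomain WeierstrassCurve

namespace H19B

open H55P (IQ Pt ac Dec Inert decS Nm)
open H35P (WAB Ker tt)
open H55K (Tor CMA Dta GV ak cj)

variable {F : Type} [Field F] [NumberField F] [IQ F] {A B : F} {Om : ℂ} {Ω : Type} [Field Ω] [DecidableEq Ω]
  [Algebra F Ω] [IsAlgClosure F Ω] {j : Ω →+* ℂ} {act : 𝓞 F →+* AddMonoid.End (Pt (WAB A B) Ω)} {mo : Ideal (𝓞 F)}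
  {ψ : Ideal (𝓞 F) →*₀ 𝓞 F} {p : ℕ} {V : ValuationSubring Ω} {π : 𝓞 F}

omit [IQ F] [DecidableEq Ω] in
/-- Chunk F1 (M). PROOF. N is not contained in V (1/p is in N), so H13S.exists_below N V gives the prime w0 of N below V: H13S.Abv N V w0 (Abv.le, Abv.lt translate V.valuation on N into w0.valuation N; see Lib/H13S/VW.lean, IN4.lean). An element w of N with
w0.valuation N w = exp (-1) exists (HeightOneSpectrum.valuation_exists_uniformizer). For a in N, a ≠ 0: w0.valuation N a = exp (-i) = (w0.valuation N w)^i for an integer i, hence V(a) = V(w)^i (Abv.le in both directions for a and w^i). For y fixed by the inertia elements fixing N: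
H13S.value_fixed gives a in N with V(y) = V(a). V(w) < 1 by Abv.lt. V(p) = V(w)^i with i > 0 as V(p) < 1, i = e. -/
theorem exists_unif (hp : p.Prime) (hV : V.valuation (p : Ω) < 1) (N : IntermediateField F Ω) [NumberField N] :
    ∃ (w : Ω) (e : ℕ), w ∈ N ∧ w ≠ 0 ∧ V.valuation w < 1 ∧ 0 < e ∧ V.valuation (p : Ω) = V.valuation w ^ e ∧
      ∀ y : Ω, y ≠ 0 → (∀ s ∈ N.fixingSubgroup, Inert V s → s y = y) → ∃ i : ℤ, V.valuation y = V.valuation w ^ i := by
  have hc : CharZero Ω := charZero_of_injective_algebraMap (algebraMap F Ω).injective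
  have hpΩ : (p : Ω) ≠ 0 := Nat.cast_ne_zero.2 hp.ne_zero
  have hcp : (((p : N)) : Ω) = (p : Ω) := by
    have h1 : algebraMap N Ω (p : N) = (p : Ω) := map_natCast _ _
    exact h1
  have hnot : ∃ x : N, (x : Ω) ∉ V := by
    refine ⟨(p : N)⁻¹, ?_⟩
    have e : (((p : N)⁻¹ : N) : Ω) = (p : Ω)⁻¹ := by
      have h1 : (((p : N)⁻¹ : N) : Ω) = (((p : N)) : Ω)⁻¹ := rfl
      rw [h1, hcp]
    rw [← V.valuation_le_one_iff, e, map_inv₀, inv_le_one₀ (zero_lt_iff.2 ((map_ne_zero _).2 hpΩ))]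
    exact not_le.2 hV
  obtain ⟨w0, hw0⟩ := H13S.exists_below N V hnot
  obtain ⟨w, hw⟩ := w0.valuation_exists_uniformizer N
  have hwne : w ≠ 0 := by
    intro h
    rw [h, map_zero] at hw
    exact WithZero.exp_ne_zero hw.symm
  have key : ∀ a : N, a ≠ 0 → ∃ i : ℤ, V.valuation (a : Ω) = V.valuation (w : Ω) ^ i := by
    intro a ha
    have hva : w0.valuation N a ≠ 0 := (map_ne_zero _).2 ha
    obtain ⟨k, hk⟩ : ∃ k : ℤ, w0.valuation N a = WithZero.exp k :=
      ⟨WithZero.log (w0.valuation N a), (WithZero.exp_log hva).symm⟩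
    refine ⟨-k, ?_⟩
    have h1 : w0.valuation N a = w0.valuation N (w ^ (-k)) := by
      rw [map_zpow₀, hw, ← WithZero.exp_zsmul, hk]
      congr 1
      simp
    have h2 : V.valuation (a : Ω) = V.valuation ((w ^ (-k) : N) : Ω) :=
      le_antisymm ((hw0.le _ _).2 h1.le) ((hw0.le _ _).2 h1.ge)
    have e : ((w ^ (-k) : N) : Ω) = (w : Ω) ^ (-k) := map_zpow₀ (algebraMap N Ω) w (-k)
    rw [h2, e, map_zpow₀]
  have hwlt : V.valuation (w : Ω) < 1 := by
    rw [hw0.lt w, hw, ← WithZero.exp_zero, WithZero.exp_lt_exp]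
    norm_num
  have hwΩ : (w : Ω) ≠ 0 := fun h => hwne (Subtype.ext h)
  have hw0v : 0 < V.valuation (w : Ω) := zero_lt_iff.2 ((map_ne_zero _).2 hwΩ)
  obtain ⟨i, hi⟩ := key (p : N) (Nat.cast_ne_zero.2 hp.ne_zero)
  rw [hcp] at hi
  have hipos : 0 < i := by
    by_contra hcon
    have h1 : ∃ n : ℕ, i = -(n : ℤ) := ⟨i.natAbs, by omega⟩
    obtain ⟨n, hn⟩ := h1
    rw [hn, zpow_neg, zpow_natCast] at hi
    rw [hi] at hV
    have h2 : V.valuation (w : Ω) ^ n ≤ 1 := pow_le_one₀ zero_le' hwlt.le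
    exact absurd hV (not_lt.2 ((one_le_inv₀ (pow_pos hw0v n)).2 h2))
  obtain ⟨e, he⟩ := Int.eq_ofNat_of_zero_le hipos.le
  refine ⟨w, e, w.2, hwΩ, hwlt, by omega, ?_, ?_⟩
  · rw [hi, he, zpow_natCast]
  · intro y hy hs
    obtain ⟨a, ha, hya⟩ := H13S.value_fixed N V y hy hs
    obtain ⟨i, hi⟩ := key a ha
    exact ⟨i, hya.trans hi⟩

end H19B
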