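import Mathlib
import Pool.Agent.Lib.H19B.D2
import Pool.Agent.Lib.H13X.XE
import Pool.Agent.Lib.H13X.XNB

/-! # H19B, chunk F2 (M): residue fields -/

open NumberField IsDedekindDomain WeierstrassCurve

namespace H19B

open H55P (IQ Pt ac Dec Inert decS Nm)
open H35P (WAB Ker tt)
open H55K (Tor CMA Dta GV ak cj)

variable {F : Type} [Field F] [NumberField F] [IQ F] {A B : F} {Om : ℂ} {Ω : Type} [Field Ω] [DecidableEq Ω]
  [Algebra F Ω] [IsAlgClosure F Ω] {j : Ω →+* ℂ} {act : 𝓞 F →+* AddMonoid.End (Pt (WAB A B) Ω)} {mo : Ideal (𝓞 F)}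
  {ψ : Ideal (𝓞 F) →*₀ 𝓞 F} {p : ℕ} {V : ValuationSubring Ω} {π : 𝓞 F}

theorem f2_roots {K : Type} [Field K] {q : ℕ} (hq : 1 < q) (r : Fin q → K) (hr : Function.Injective r)
    (hroot : ∀ i, r i ^ q = r i) (x : K) (hx : x ^ q = x) : ∃ i, x = r i := by
  classical
  by_contra hc
  rw [not_exists] at hc
  have hP : (Polynomial.X ^ q - Polynomial.X : Polynomial K) ≠ 0 := FiniteField.X_pow_card_sub_X_ne_zero K hq
  have hd : (Polynomial.X ^ q - Polynomial.X : Polynomial K).natDegree = q :=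
    FiniteField.X_pow_card_sub_X_natDegree_eq K hq
  have h1 : (insert x (Finset.univ.image r)).card = q + 1 := by
    rw [Finset.card_insert_of_notMem, Finset.card_image_of_injective _ hr, Finset.card_univ, Fintype.card_fin]
    intro h
    obtain ⟨i, -, hi⟩ := Finset.mem_image.1 h
    exact hc i hi.symm
  have h2 : insert x (Finset.univ.image r) ⊆ (Polynomial.X ^ q - Polynomial.X : Polynomial K).roots.toFinset := by
    intro y hy
    rw [Multiset.mem_toFinset, Polynomial.mem_roots hP, Polynomial.IsRoot.def]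
    rw [Polynomial.eval_sub, Polynomial.eval_pow, Polynomial.eval_X, sub_eq_zero]
    rcases Finset.mem_insert.1 hy with h | h
    · rw [h]; exact hx
    · obtain ⟨i, -, hi⟩ := Finset.mem_image.1 h
      rw [← hi]
      exact hroot i
  have h3 := Finset.card_le_card h2
  have h4 := Multiset.toFinset_card_le (Polynomial.X ^ q - Polynomial.X : Polynomial K).roots
  have h5 := Polynomial.card_roots' (Polynomial.X ^ q - Polynomial.X : Polynomial K)
  rw [hd] at h5
  omega

theorem f2_res {Ω : Type} [Field Ω] (V : ValuationSubring Ω) (x y : V) :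
    IsLocalRing.residue V x = IsLocalRing.residue V y ↔ V.valuation ((x : Ω) - (y : Ω)) < 1 := by
  rw [← sub_eq_zero, ← map_sub, IsLocalRing.residue_eq_zero_iff]
  exact ValuationSubring.valuation_lt_one_iff V (x - y)

theorem f2_roots2 {Ω : Type} [Field Ω] (V : ValuationSubring Ω) {q : ℕ} (hq : 1 < q) (r : Fin q → Ω)
    (hr : ∀ i, V.valuation (r i) ≤ 1) (hrr : ∀ i i', i ≠ i' → V.valuation (r i - r i') = 1)
    (hroot : ∀ i, V.valuation (r i - r i ^ q) < 1) (x : Ω) (hx : V.valuation x ≤ 1)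
    (hxx : V.valuation (x - x ^ q) < 1) : ∃ i, V.valuation (x - r i) < 1 := by
  have hr' : ∀ i, r i ∈ V := fun i => (V.valuation_le_one_iff _).1 (hr i)
  have hx' : x ∈ V := (V.valuation_le_one_iff _).1 hx
  have key : ∀ y : V, V.valuation ((y : Ω) - (y : Ω) ^ q) < 1 →
      (IsLocalRing.residue V y) ^ q = IsLocalRing.residue V y := by
    intro y hy
    rw [← map_pow]
    symm
    rw [f2_res]
    exact hy
  obtain ⟨i, hi⟩ := f2_roots (K := IsLocalRing.ResidueField V) hq (fun i => IsLocalRing.residue V ⟨r i, hr' i⟩)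
    (by
      intro i i' h
      by_contra hne
      have h1 := (f2_res V _ _).1 h
      have h2 := hrr i i' hne
      have h3 : V.valuation (r i - r i') < 1 := h1
      rw [h2] at h3
      exact lt_irrefl _ h3)
    (fun i => key ⟨r i, hr' i⟩ (hroot i)) (IsLocalRing.residue V ⟨x, hx'⟩) (key ⟨x, hx'⟩ hxx)
  exact ⟨i, (f2_res V _ _).1 hi⟩

omit [DecidableEq Ω] [IsAlgClosure F Ω] [IQ F] in
theorem f2_exp {N : IntermediateField F Ω} [NumberField N]
    (V : ValuationSubring Ω) (β : 𝓞 F) (hβ : Prime β) (hV : V.valuation (ak Ω β) < 1)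
    (w : HeightOneSpectrum (𝓞 N)) (hw : H13S.Abv N V w) :
    ∃ f : ℕ, 0 < f ∧ Ideal.absNorm w.asIdeal = Nm β ^ f := by
  have hwp := w.isPrime
  have hwm := w.isMaximal
  have hbot : Ideal.span {β} ≠ ⊥ := by
    rw [Ne, Ideal.span_singleton_eq_bot]
    exact hβ.ne_zero
  have hp : (Ideal.span {β}).IsPrime := (Ideal.span_singleton_prime hβ.ne_zero).2 hβ
  have hm : (Ideal.span {β}).IsMaximal := hp.isMaximal hbot
  have hmem : algebraMap (𝓞 F) (𝓞 N) β ∈ w.asIdeal := by
    rw [← HeightOneSpectrum.valuation_lt_one_iff_mem (K := N), ← hw.lt]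
    exact hV
  have hlies : w.asIdeal.LiesOver (Ideal.span {β}) := by
    constructor
    refine hm.eq_of_le (Ideal.IsPrime.ne_top inferInstance) ?_
    rw [Ideal.span_singleton_le_iff_mem]
    exact hmem
  refine ⟨w.asIdeal.inertiaDeg (𝓞 F), Ideal.inertiaDeg_pos w.asIdeal (𝓞 F), ?_⟩
  rw [← Ideal.absNorm_pow_inertiaDeg (Ideal.span {β}) w.asIdeal]
  rfl

theorem f2_Nm (hp : p.Prime) (hπ : Prime π) (hd : π ∣ (p : 𝓞 F)) : p ∣ Nm π := by
  obtain ⟨c, hc⟩ := hd
  have h1 : Nm π ∣ p ^ 2 := ⟨Nm c, by rw [← H55K.Nm_mul, ← hc, H55K.Nm_nat]⟩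
  have h2 : Nm π ≠ 1 := by
    intro h
    unfold H55P.Nm at h
    rw [Ideal.absNorm_eq_one_iff, Ideal.span_singleton_eq_top] at h
    exact hπ.not_isUnit h
  obtain ⟨i, hi, h3⟩ := (Nat.dvd_prime_pow hp).1 h1
  have hi0 : i ≠ 0 := by
    rintro rfl
    exact h2 (by rw [h3, pow_zero])
  rw [h3]
  exact dvd_pow_self p hi0

omit [DecidableEq Ω] in
/-- Chunk F2 (M). PROOF. Copy of H13R.g1_res and H13R.g1_exp (file Lib/H13R/G1.lean, 90 lines, written for Ω = AlgebraicClosure F; all lemmas used there, H13S.exists_below, H13X.exists_frobK, H13X.yn2_approx, are general; β = π, l = p, V(p) < 1 because π divides p) gives q = Nm π ^ f with f > 0,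
the Frobenius element φ and representatives r in N. p divides Nm π (Nm π is divisible by p: π divides p, Nm π divides p^2 and is not 1: H55K.gf_Nm's proof), so p divides q; q > 1.
Last property: let x be fixed by the elements of DN N V, V(x) ≤ 1. φ x = x, so V(x^q - x) < 1. The q elements r i are pairwise incongruent and satisfy V(r^q - r) < 1 (φ r = r), so in the residue field of V (IsLocalRing.ResidueField V) the polynomial T^q - T has the q distinct roots r i and equals prod (T - r i)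
(Polynomial.card_roots'; the residue class of x is a root, and the set of the r i has q elements, so it is the set of all roots): some V(x - r i) < 1. -/
theorem exists_res (hp : p.Prime) (hπ : Prime π) (hd : π ∣ (p : 𝓞 F)) (hV : V.valuation (ak Ω π) < 1) (N : IntermediateField F Ω)
    [NumberField N] : ∃ (q : ℕ) (φ : Ω ≃ₐ[F] Ω), 1 < q ∧ p ∣ q ∧ φ ∈ DN N V ∧ (∀ x : Ω, V.valuation x ≤ 1 → V.valuation (φ x - x ^ q) < 1) ∧
      ∃ r : Fin q → Ω, (∀ i, r i ∈ N ∧ V.valuation (r i) ≤ 1) ∧ (∀ i i', i ≠ i' → V.valuation (r i - r i') = 1) ∧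
        ∀ x : Ω, (∀ s ∈ DN N V, s x = x) → V.valuation x ≤ 1 → ∃ i, V.valuation (x - r i) < 1 := by
  classical
  have hpV : V.valuation (p : Ω) < 1 := by
    obtain ⟨c, hc⟩ := hd
    have e : (p : Ω) = ak Ω π * ak Ω c := by
      have h1 : algebraMap F Ω (((p : 𝓞 F) : 𝓞 F) : F) = algebraMap F Ω ((π * c : 𝓞 F) : F) := by rw [hc]
      simpa using h1
    rw [e, map_mul]
    refine mul_lt_one_of_lt_of_le hV ?_
    have h2 : IsIntegral ℤ (ak Ω c) := (RingOfIntegers.isIntegral_coe c).map ((algebraMap F Ω).toIntAlgHom)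
    have h3 : IsIntegral V (ak Ω c) := h2.tower_top
    obtain ⟨y, hy⟩ := (IsIntegrallyClosed.isIntegral_iff (R := V) (K := Ω)).1 h3
    rw [← hy]
    exact (V.valuation_le_one_iff _).2 y.2
  have hp0 : (p : Ω) ≠ 0 := by
    have hcz : CharZero Ω := charZero_of_injective_algebraMap (algebraMap F Ω).injective
    exact Nat.cast_ne_zero.2 hp.ne_zero
  have hlinv : ((p : Ω)⁻¹) ∉ V := by
    rw [← V.valuation_le_one_iff, map_inv₀, not_le]
    exact (one_lt_inv₀ (zero_lt_iff.2 ((map_ne_zero _).2 hp0))).2 hpV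
  have hN : ∃ x : N, (x : Ω) ∉ V := by
    refine ⟨(p : N)⁻¹, ?_⟩
    have e : (((p : N)⁻¹ : N) : Ω) = (p : Ω)⁻¹ := by simp
    rw [e]
    exact hlinv
  obtain ⟨w, hw⟩ := H13S.exists_below N V hN
  have hwm := w.isMaximal
  obtain ⟨f, hf0, hf⟩ := f2_exp V π hπ hV w hw
  obtain ⟨φ, hφN, hφD, hφ⟩ := H13X.exists_frobK N hw
  have hpq : p ∣ Ideal.absNorm w.asIdeal := by
    rw [hf]
    exact dvd_pow (f2_Nm hp hπ hd) hf0.ne'
  have hq1 : 1 < Ideal.absNorm w.asIdeal := by
    have h0 : Ideal.absNorm w.asIdeal ≠ 0 := by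
      rw [Ne, Ideal.absNorm_eq_zero_iff]
      exact w.ne_bot
    exact lt_of_lt_of_le hp.one_lt (Nat.le_of_dvd (Nat.pos_of_ne_zero h0) hpq)
  have hφ' : ∀ x : Ω, V.valuation x ≤ 1 → V.valuation (φ x - x ^ Ideal.absNorm w.asIdeal) < 1 := fun x hx =>
    hφ x ((V.valuation_le_one_iff _).1 hx)
  refine ⟨Ideal.absNorm w.asIdeal, φ, hq1, hpq, mem_DN.2 ⟨hφN, hφD⟩, hφ', ?_⟩
  have hcard : Nat.card (𝓞 N ⧸ w.asIdeal) = Ideal.absNorm w.asIdeal := rfl
  have hfin : Finite (𝓞 N ⧸ w.asIdeal) := Ideal.finiteQuotientOfFreeOfNeBot _ w.ne_bot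
  have e : Fin (Ideal.absNorm w.asIdeal) ≃ (𝓞 N ⧸ w.asIdeal) := by
    rw [← hcard]
    exact (Finite.equivFin _).symm
  have hmk : ∀ y : 𝓞 N ⧸ w.asIdeal, Ideal.Quotient.mk w.asIdeal (Quotient.out y) = y := fun y =>
    Quotient.out_eq y
  have hrN : ∀ i, (((Quotient.out (e i) : 𝓞 N) : N) : Ω) ∈ N ∧ V.valuation (((Quotient.out (e i) : 𝓞 N) : N) : Ω) ≤ 1 :=
    fun i => ⟨((Quotient.out (e i) : 𝓞 N) : N).2, H13S.vw_int N V _⟩
  have hrr : ∀ i i', i ≠ i' → V.valuation ((((Quotient.out (e i) : 𝓞 N) : N) : Ω) - (((Quotient.out (e i') : 𝓞 N) : N) : Ω)) = 1 := by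
    intro i i' hii
    have e1 : (((Quotient.out (e i) : 𝓞 N) : N) : Ω) - (((Quotient.out (e i') : 𝓞 N) : N) : Ω) =
        (((Quotient.out (e i) - Quotient.out (e i') : 𝓞 N) : N) : Ω) := by simp
    rw [e1]
    refine le_antisymm (H13S.vw_int N V _) (not_lt.1 fun h' => hii ?_)
    have h2 := (w.valuation_lt_one_iff_mem _).1 ((hw.lt _).1 h')
    rw [← Ideal.Quotient.eq_zero_iff_mem, map_sub, hmk, hmk, sub_eq_zero] at h2
    exact e.injective h2
  refine ⟨fun i => (((Quotient.out (e i) : 𝓞 N) : N) : Ω), hrN, hrr, ?_⟩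
  intro x hx hxV
  refine f2_roots2 V hq1 (fun i => (((Quotient.out (e i) : 𝓞 N) : N) : Ω)) (fun i => (hrN i).2) hrr ?_ x hxV ?_
  · intro i
    have h1 := hφ' _ (hrN i).2
    have h2 : φ (((Quotient.out (e i) : 𝓞 N) : N) : Ω) = (((Quotient.out (e i) : 𝓞 N) : N) : Ω) :=
      (IntermediateField.mem_fixingSubgroup_iff N φ).1 hφN _ (hrN i).1
    rw [h2] at h1
    exact h1
  · have h1 := hφ' x hxV
    rw [hx φ (mem_DN.2 ⟨hφN, hφD⟩)] at h1
    exact h1

end H19B
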