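import Mathlib
import Pool.Agent.Lib.H19B.D2

/-! # H19B, chunk F4 (S/M): the cyclotomic character -/

open NumberField IsDedekindDomain WeierstrassCurve

namespace H19B

open H55P (IQ Pt ac Dec Inert decS Nm)
open H35P (WAB Ker tt)
open H55K (Tor CMA Dta GV ak cj)

variable {F : Type} [Field F] [NumberField F] [IQ F] {A B : F} {Om : ℂ} {Ω : Type} [Field Ω] [DecidableEq Ω]
  [Algebra F Ω] [IsAlgClosure F Ω] {j : Ω →+* ℂ} {act : 𝓞 F →+* AddMonoid.End (Pt (WAB A B) Ω)} {mo : Ideal (𝓞 F)}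
  {ψ : Ideal (𝓞 F) →*₀ 𝓞 F} {p : ℕ} {V : ValuationSubring Ω} {π : 𝓞 F}

/-- Chunk F4 (S/M). PROOF. T₀ ≠ 0 in Tor act π, T₀' ≠ 0 in Tor act (cj π) (h.gen); a = (κ s).val, b = (η s).val as elements of 𝓞 F: ac s T₀ = act a T₀ (act_nat), ac s T₀' = act b T₀'. c with s ζ = ζ^c (IsPrimitiveRoot.eq_pow_of_pow_eq_one). H55K.S.char_id: π divides cj b * a - c = b a - c (cj_nat), an integer;
so p = Nm π divides (b a - c)^2 (Nm of an integer), p divides b a - c, (c : ZMod p) = κ s * η s; ζ^c = zt ζ (c : ZMod p) (exponents modulo p: pow_mod_orderOf, ZMod.val_natCast). -/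
theorem cyc_ch (dta : Dta A B Om j act mo ψ p) (hπ : Prime π) (hd : π ∣ (p : 𝓞 F)) (hs : ¬ π ∣ cj π) {ζ : Ω} (hζ : IsPrimitiveRoot ζ p)
    {κ η : (Ω ≃ₐ[F] Ω) → ZMod p} (h1 : ∀ s, ∀ T : Pt (WAB A B) Ω, act π T = 0 → ac (WAB A B) s T = (κ s).val • T)
    (h2 : ∀ s, ∀ T : Pt (WAB A B) Ω, act (cj π) T = 0 → ac (WAB A B) s T = (η s).val • T) (s : Ω ≃ₐ[F] Ω) :
    s ζ = zt ζ (κ s * η s) := by
  classical
  have hp := dta.prime
  haveI : Fact p.Prime := ⟨hp⟩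
  have hπ' : Prime (cj π) := H55K.cj_prime hπ
  obtain ⟨T₀, hT, -, h0, -⟩ := dta.cma.gen π hπ.ne_zero
  obtain ⟨T₀', hT', -, h0', -⟩ := dta.cma.gen (cj π) hπ'.ne_zero
  have hT0 : T₀ ≠ 0 := by
    intro h
    have h3 : π ∣ 1 := (h0 1).1 (by rw [h, map_zero])
    exact hπ.not_unit (isUnit_of_dvd_one h3)
  have hT0' : T₀' ≠ 0 := by
    intro h
    have h3 : cj π ∣ 1 := (h0' 1).1 (by rw [h, map_zero])
    exact hπ'.not_unit (isUnit_of_dvd_one h3)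
  have hTk : act π T₀ = 0 := (h0 π).2 dvd_rfl
  have hTk' : act (cj π) T₀' = 0 := (h0' (cj π)).2 dvd_rfl
  have hs1 : s ζ ^ p = 1 := by rw [← map_pow, hζ.pow_eq_one, map_one]
  obtain ⟨c, -, hc⟩ := hζ.eq_pow_of_pow_eq_one hs1
  have ha : ac (WAB A B) s T₀ = act (((κ s).val : ℕ) : 𝓞 F) T₀ := by
    rw [h1 s T₀ hTk, H55K.S.act_nat]
  have hb : ac (WAB A B) s T₀' = act (((η s).val : ℕ) : 𝓞 F) T₀' := by
    rw [h2 s T₀' hTk', H55K.S.act_nat]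
  have h3 := H55K.S.char_id π p dta hπ hd ζ hζ s _ _ c T₀ T₀' hT hT0 hT' hT0' ha hb hc.symm
  rw [H55K.cj_nat] at h3
  have h4 : (p : ℤ) ∣ ((η s).val : ℤ) * ((κ s).val : ℤ) - (c : ℤ) := by
    by_contra hn
    obtain ⟨u, v, huv⟩ := ((Nat.prime_iff_prime_int.1 hp).coprime_iff_not_dvd).2 hn
    have h5 : ((u : ℤ) : 𝓞 F) * (p : 𝓞 F) + ((v : ℤ) : 𝓞 F) * ((((η s).val : ℕ) : 𝓞 F) * (((κ s).val : ℕ) : 𝓞 F) - (c : 𝓞 F)) = 1 := by
      have h6 := congrArg (Int.cast : ℤ → 𝓞 F) huv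
      push_cast at h6
      exact h6
    refine hπ.not_unit (isUnit_of_dvd_one ?_)
    rw [← h5]
    exact dvd_add (hd.mul_left _) (h3.mul_left _)
  have h5 : (c : ZMod p) = κ s * η s := by
    have h6 := (ZMod.intCast_zmod_eq_zero_iff_dvd _ p).2 h4
    push_cast at h6
    rw [ZMod.natCast_zmod_val, ZMod.natCast_zmod_val, sub_eq_zero] at h6
    rw [← h6, mul_comm]
  unfold zt
  rw [← h5, ZMod.val_natCast, ← hc]
  exact pow_eq_pow_mod c hζ.pow_eq_one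

end H19B
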