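import Mathlib
import Pool.Agent.Lib.H19B.D2
import Pool.Agent.Lib.H13X.XE

/-! # H19B, chunk F5 (M): a Frobenius element moves the etale points -/

open NumberField IsDedekindDomain WeierstrassCurve

namespace H19B

open H55P (IQ Pt ac Dec Inert decS Nm)
open H35P (WAB Ker tt)
open H55K (Tor CMA Dta GV ak cj)

variable {F : Type} [Field F] [NumberField F] [IQ F] {A B : F} {Om : ℂ} {Ω : Type} [Field Ω] [DecidableEq Ω]
  [Algebra F Ω] [IsAlgClosure F Ω] {j : Ω →+* ℂ} {act : 𝓞 F →+* AddMonoid.End (Pt (WAB A B) Ω)} {mo : Ideal (𝓞 F)}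
  {ψ : Ideal (𝓞 F) →*₀ 𝓞 F} {p : ℕ} {V : ValuationSubring Ω} {π : 𝓞 F}

/-- Chunk F5 (M). The action of the decomposition group on the points killed by an element of value 1 is determined by the action on the residue classes. PROOF. V(b) = 1. If φ fixes all T in Tor act b then every s in DN N V fixes them: T = 0 clear; T ≠ 0 in Tor act b is not in Ker V
(H55K.tor_unit), so its coordinates x, y have value ≤ 1 (not_ker, gv_y). φ T = T gives φ x = x, V(x^q - x) < 1 (hφ), so x is congruent to some r i in N (h3; the elements r i are all roots of T^q - T modulo V) and s x is congruent to s (r i) = r i, hence to x (H55P.dec_lt1: s preserves V( ) < 1); the same for y.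
So s T and T are congruent, H55K.cls_xy: s T - T in Ker V, and it is killed by b: s T = T (tor_unit). -/
theorem frob_fix (h : CMA F A B Om j act) (hG : GV A B V) {b : 𝓞 F} (hb : V.valuation (ak Ω b) = 1) {N : IntermediateField F Ω}
    {q : ℕ} {φ : Ω ≃ₐ[F] Ω} (hφ : ∀ x : Ω, V.valuation x ≤ 1 → V.valuation (φ x - x ^ q) < 1) {r : Fin q → Ω}
    (h1 : ∀ i, r i ∈ N ∧ V.valuation (r i) ≤ 1) (h3 : ∀ x : Ω, V.valuation x ≤ 1 → V.valuation (x ^ q - x) < 1 → ∃ i, V.valuation (x - r i) < 1)
    (hf : ∀ T : Pt (WAB A B) Ω, act b T = 0 → ac (WAB A B) φ T = T) (s : Ω ≃ₐ[F] Ω) (hs : s ∈ DN N V) (T : Pt (WAB A B) Ω)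
    (hT : act b T = 0) : ac (WAB A B) s T = T := by
  have hTm : T ∈ Tor act b := hT
  by_cases hT0 : T = 0
  · rw [hT0]
    exact map_zero _
  have hK : ¬ Ker V T := fun hk => hT0 (H55K.tor_unit h hG hb hTm hk)
  obtain ⟨-, hx1⟩ := H55K.not_ker V hK
  have hy1 := H55K.gv_y hG hK
  obtain ⟨hsN, hsD⟩ := mem_DN.1 hs
  rw [IntermediateField.mem_fixingSubgroup_iff] at hsN
  have key : ∀ x : Ω, V.valuation x ≤ 1 → φ x = x → V.valuation (s x - x) < 1 := by
    intro x hx hfx
    have h2 := hφ x hx
    rw [hfx] at h2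
    have h4 : V.valuation (x ^ q - x) < 1 := by
      rw [← Valuation.map_neg, neg_sub]
      exact h2
    obtain ⟨i, hi⟩ := h3 x hx h4
    have hri : s (r i) = r i := hsN _ (h1 i).1
    have h5 : V.valuation (s (x - r i)) < 1 := (H55P.dec_lt1 V s hsD _).2 hi
    rw [map_sub, hri] at h5
    have e : s x - x = (s x - r i) - (x - r i) := by ring
    rw [e]
    exact lt_of_le_of_lt (V.valuation.map_sub _ _) (max_lt h5 hi)
  have hfT := hf T hT
  have hxx : φ (H55K.xc T) = H55K.xc T := by
    rw [← H55K.xc_ac, hfT]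
  have hyy : φ (H55K.yc T) = H55K.yc T := by
    rw [← H55K.yc_ac, hfT]
  have hsm : ac (WAB A B) s T ∈ Tor act b := H55K.S.ac_mem h s hTm
  have hsT : ¬ Ker V (ac (WAB A B) s T) := by
    intro hk
    exact H55K.ac_ne (WAB A B) s hT0 (H55K.tor_unit h hG hb hsm hk)
  have hker := H55K.cls_xy hG hsT hK (by rw [H55K.xc_ac]; exact key _ hx1 hxx)
    (by rw [H55K.yc_ac]; exact key _ hy1 hyy)
  exact sub_eq_zero.1 (H55K.tor_unit h hG hb (sub_mem hsm hTm) hker)

omit [NumberField F] [IQ F] [DecidableEq Ω] [IsAlgClosure F Ω] in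
/-- Chunk F5 (S/M). q representatives which are pairwise incongruent roots of T^q - T modulo V are all roots (Polynomial.card_roots' in the residue field IsLocalRing.ResidueField V). -/
theorem roots_all {q : ℕ} (hq : 1 < q) {φ : Ω ≃ₐ[F] Ω} (hφ : ∀ x : Ω, V.valuation x ≤ 1 → V.valuation (φ x - x ^ q) < 1) {r : Fin q → Ω}
    (h1 : ∀ i, φ (r i) = r i ∧ V.valuation (r i) ≤ 1) (h2 : ∀ i i', i ≠ i' → V.valuation (r i - r i') = 1) (x : Ω)
    (hx : V.valuation x ≤ 1) (hxq : V.valuation (x ^ q - x) < 1) : ∃ i, V.valuation (x - r i) < 1 := by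
  classical
  have hmem : ∀ z : Ω, V.valuation z ≤ 1 → z ∈ V := fun z hz => (V.valuation_le_one_iff z).1 hz
  have hzero : ∀ z : V, IsLocalRing.residue V z = 0 ↔ V.valuation (z : Ω) < 1 := by
    intro z
    rw [IsLocalRing.residue_eq_zero_iff]
    exact V.valuation_lt_one_iff z
  obtain ⟨P, hP⟩ : ∃ P : Polynomial (IsLocalRing.ResidueField V), P = Polynomial.X ^ q - Polynomial.X := ⟨_, rfl⟩
  have hP0 : P ≠ 0 := by
    rw [hP]
    exact FiniteField.X_pow_card_sub_X_ne_zero _ hq
  have hPd : P.natDegree = q := by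
    rw [hP]
    exact FiniteField.X_pow_card_sub_X_natDegree_eq _ hq
  have hroot : ∀ z : V, V.valuation ((z : Ω) ^ q - z) < 1 → IsLocalRing.residue V z ∈ P.roots.toFinset := by
    intro z hz
    rw [Multiset.mem_toFinset, Polynomial.mem_roots hP0, Polynomial.IsRoot.def, hP, Polynomial.eval_sub,
      Polynomial.eval_pow, Polynomial.eval_X, ← map_pow, ← map_sub, hzero]
    exact hz
  by_contra hno
  push Not at hno
  let R : Fin q → V := fun i => ⟨r i, hmem _ (h1 i).2⟩
  let X0 : V := ⟨x, hmem x hx⟩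
  have hRi : Function.Injective (fun i => IsLocalRing.residue V (R i)) := by
    intro i i' hii
    by_contra hne
    have h3 : IsLocalRing.residue V (R i - R i') = 0 := by
      rw [map_sub]
      exact sub_eq_zero.2 hii
    rw [hzero] at h3
    have h4 : V.valuation (r i - r i') < 1 := h3
    rw [h2 i i' hne] at h4
    exact lt_irrefl _ h4
  have hX : IsLocalRing.residue V X0 ∉ Finset.univ.image (fun i => IsLocalRing.residue V (R i)) := by
    intro hm
    obtain ⟨i, -, hi⟩ := Finset.mem_image.1 hm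
    have h3 : IsLocalRing.residue V (X0 - R i) = 0 := by
      rw [map_sub]
      exact sub_eq_zero.2 hi.symm
    rw [hzero] at h3
    have h4 : V.valuation (x - r i) < 1 := h3
    exact absurd h4 (not_lt.2 (hno i))
  have hsub : insert (IsLocalRing.residue V X0) (Finset.univ.image (fun i => IsLocalRing.residue V (R i))) ⊆
      P.roots.toFinset := by
    intro z hz
    rcases Finset.mem_insert.1 hz with hz1 | hz1
    · rw [hz1]
      exact hroot X0 hxq
    · obtain ⟨i, -, hi⟩ := Finset.mem_image.1 hz1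
      rw [← hi]
      refine hroot (R i) ?_
      have h5 := hφ (r i) (h1 i).2
      rw [(h1 i).1] at h5
      show V.valuation (r i ^ q - r i) < 1
      rw [← Valuation.map_neg, neg_sub]
      exact h5
  have hc := Finset.card_le_card hsub
  rw [Finset.card_insert_of_notMem hX, Finset.card_image_of_injective _ hRi, Finset.card_univ, Fintype.card_fin] at hc
  have hc2 := (Multiset.toFinset_card_le P.roots).trans (Polynomial.card_roots' P)
  rw [hPd] at hc2
  omega

end H19B
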