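import Mathlib
import Pool.Agent.Lib.H19B.D2
import Pool.Agent.Lib.H19B.F1
import Pool.Agent.Lib.H19B.F2
import Pool.Agent.Lib.H19B.F3
import Pool.Agent.Lib.H19B.F4
import Pool.Agent.Lib.H19B.F5
import Pool.Agent.Lib.H19B.R1
import Pool.Agent.Lib.H19B.Z1
import Pool.Agent.Lib.H13X.XE

/-! # H19B, chunk F6 (M/L): the frame exists -/

open NumberField IsDedekindDomain WeierstrassCurve

namespace H19B

open H55P (IQ Pt ac Dec Inert decS Nm)
open H35P (WAB Ker tt)
open H55K (Tor CMA Dta GV ak cj)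

variable {F : Type} [Field F] [NumberField F] [IQ F] {A B : F} {Om : ℂ} {Ω : Type} [Field Ω] [DecidableEq Ω]
  [Algebra F Ω] [IsAlgClosure F Ω] {j : Ω →+* ℂ} {act : 𝓞 F →+* AddMonoid.End (Pt (WAB A B) Ω)} {mo : Ideal (𝓞 F)}
  {ψ : Ideal (𝓞 F) →*₀ 𝓞 F} {p : ℕ} {V : ValuationSubring Ω} {π : 𝓞 F}

omit [NumberField F] [IQ F] [IsAlgClosure F Ω] in
theorem f6_mod {M : Type} [AddCommGroup M] {T : M} (hT : p • T = 0) (n : ℕ) : (n % p) • T = n • T := by
  conv_rhs => rw [← Nat.div_add_mod n p, add_nsmul, mul_nsmul, hT, nsmul_zero, zero_add]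

/-- The subgroup of the elements of D which fix the points with the property P. -/
def f6Fix (D : Subgroup (Ω ≃ₐ[F] Ω)) (P : Pt (WAB A B) Ω → Prop) : Subgroup (Ω ≃ₐ[F] Ω) where
  carrier := {s | s ∈ D ∧ ∀ T : Pt (WAB A B) Ω, P T → ac (WAB A B) s T = T}
  one_mem' := ⟨D.one_mem, fun T _ => H55K.S.ac_one T⟩
  mul_mem' := by
    rintro s t ⟨h1, h2⟩ ⟨h3, h4⟩
    exact ⟨D.mul_mem h1 h3, fun T hT => by rw [H55K.S.ac_mul, h4 T hT, h2 T hT]⟩
  inv_mem' := by
    rintro s ⟨h1, h2⟩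
    refine ⟨D.inv_mem h1, fun T hT => ?_⟩
    apply H55K.S.ac_inj s
    rw [H55K.S.ac_inv, h2 T hT]

theorem f6_mem {D : Subgroup (Ω ≃ₐ[F] Ω)} {P : Pt (WAB A B) Ω → Prop} {s : Ω ≃ₐ[F] Ω} :
    s ∈ f6Fix D P ↔ s ∈ D ∧ ∀ T : Pt (WAB A B) Ω, P T → ac (WAB A B) s T = T := Iff.rfl

theorem f6_nrm {D : Subgroup (Ω ≃ₐ[F] Ω)} {P : Pt (WAB A B) Ω → Prop} (hP : ∀ s ∈ D, ∀ T, P T → P (ac (WAB A B) s T))
    {s t : Ω ≃ₐ[F] Ω} (hs : s ∈ D) (ht : t ∈ f6Fix D P) : s⁻¹ * t * s ∈ f6Fix D P := by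
  refine ⟨D.mul_mem (D.mul_mem (D.inv_mem hs) ht.1) hs, fun T hT => ?_⟩
  rw [H55K.S.ac_mul, H55K.S.ac_mul, ht.2 _ (hP s hs T hT), ← H55K.S.ac_mul, inv_mul_cancel, H55K.S.ac_one]

/-- A multiplicative function to the nonzero integers modulo p. -/
noncomputable def f6Hom {G : Type} [Group G] (hp : p.Prime) (κ : G → ZMod p) (h1 : ∀ s t, κ (s * t) = κ s * κ t)
    (h2 : ∀ s, κ s ≠ 0) : G →* ZMod p where
  toFun := κ
  map_one' := by
    have hpf : Fact p.Prime := ⟨hp⟩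
    have h3 := h1 1 1
    rw [mul_one] at h3
    exact (mul_eq_left₀ (h2 1)).1 h3.symm
  map_mul' := h1

theorem f6_rep {G : Type} [Group G] (hp : p.Prime) (κ : G → ZMod p) (h1 : ∀ s t, κ (s * t) = κ s * κ t)
    (h2 : ∀ s, κ s ≠ 0) (C E : Subgroup G) (hCE : ∀ s ∈ E, κ s = 1 ↔ s ∈ C) : ∃ S : Finset G, Rep C E S ∧ ¬ p ∣ S.card := by
  have hpf : Fact p.Prime := ⟨hp⟩
  let f : E →* (ZMod p)ˣ := ((f6Hom hp κ h1 h2).comp E.subtype).toHomUnits
  have hf : ∀ s : E, ((f s : (ZMod p)ˣ) : ZMod p) = κ (s : G) := fun s => rfl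
  have h3 : f.ker = C.subgroupOf E := by
    ext s
    rw [MonoidHom.mem_ker, Subgroup.mem_subgroupOf, ← hCE s.1 s.2, ← hf s, Units.val_eq_one]
  have h4 : C.relIndex E = Nat.card f.range := by
    rw [Subgroup.relIndex, ← h3, Subgroup.index_ker]
  have h5 : Nat.card f.range ∣ Nat.card (ZMod p)ˣ := Subgroup.card_subgroup_dvd_card _
  rw [Nat.card_eq_fintype_card (α := (ZMod p)ˣ), ZMod.card_units] at h5
  have h6 : 0 < p - 1 := Nat.sub_pos_of_lt hp.one_lt
  have h7 : C.relIndex E ∣ p - 1 := by rw [h4]; exact h5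
  have h8 : 0 < C.relIndex E := Nat.pos_of_dvd_of_pos h7 h6
  obtain ⟨S, hS1, hS2⟩ := rep_exists C E h8.ne'
  refine ⟨S, hS1, fun h => ?_⟩
  rw [hS2] at h
  have h9 := Nat.le_of_dvd h6 (h.trans h7)
  omega

theorem f6_pow {φ : Ω ≃ₐ[F] Ω} {q : ℕ} (hφ : ∀ x : Ω, V.valuation x ≤ 1 → V.valuation (φ x - x ^ q) < 1)
    (hd : φ ∈ decS F V) {x : Ω} (hx : V.valuation x ≤ 1) (k : ℕ) : V.valuation ((φ ^ k) x - x ^ q ^ k) < 1 := by
  induction k with
  | zero =>
    rw [pow_zero, pow_zero, pow_one, AlgEquiv.one_apply, sub_self, map_zero]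
    exact zero_lt_one
  | succ k ih =>
    have h1 : V.valuation (φ ((φ ^ k) x - x ^ q ^ k)) < 1 := (H55P.dec_lt1 V φ hd _).2 ih
    have h2 : V.valuation (x ^ q ^ k) ≤ 1 := by
      rw [map_pow]
      exact pow_le_one' hx _
    have h3 := hφ _ h2
    have h4 : (φ ^ (k + 1)) x - x ^ q ^ (k + 1) = (φ (x ^ q ^ k) - (x ^ q ^ k) ^ q) + φ ((φ ^ k) x - x ^ q ^ k) := by
      rw [pow_succ' φ k, AlgEquiv.mul_apply, map_sub, pow_succ q k, pow_mul]
      ring
    rw [h4]
    exact V.valuation.map_add_lt h3 h1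

/-- Chunk F6 (M/L). Assembly of the frame. PROOF. V(p) < 1 since π divides p. V(cj π) = 1: cj π does not divide π (hs, symmetric; dichotomy) and if V(cj π) < 1 then, u π + v cj π = 1 (tors_split), V(1) < 1. GV A B V: dta.good. w, e: F1. q, φ, r: F2. κ for π and η for cj π: F3 (cj (cj π) = π: cj_cj, cj_prime, cj_dvd).
ζ: a primitive p-th root of unity in Ω (algebraically closed of characteristic 0: IsSepClosed/IsAlgClosed: HasEnoughRootsOfUnity or H35L.x2_prim with k = 1). n = (η φ).val. om s = κ s * η s, et = η. D = DN N V, E, C as in Of (subgroups of D: closed under products and inverses since ac is an action).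
Ok: nrm1, nrm2: ac (s⁻¹ t s) T = ac s⁻¹ (ac t (ac s T)), and ac s T is again killed by p (by cj π). rep: E ≥ C, C = elements of E with κ = 1 (tors_split: a point killed by p is a sum), so the map E -> (ZMod p) units, s -> κ s, is a homomorphism with kernel C: C.relIndex E divides the order p - 1 of the group of
units, so it is not 0 and not divisible by p; rep_exists. val: for y fixed by E, the elements s fixing N, Inert V s, are in D (H55P.inert_dec) and in E (H13X.inert_tors with V(cj π) = 1), F1. res: η φ ≠ 0, (η φ)^(p-1) = 1 (ZMod.pow_card_sub_one_eq_one), so φ^(p-1) in E, φ^(p-1) x = x, and V(φ^k x - x^(q^k)) < 1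
by induction (φ preserves V( ) < 1; V(a^q - b^q) < 1 if V(a - b) < 1). n1: if η φ = 1 then φ fixes Tor (cj π) (F3), so all s in D fix Tor (cj π) (frob_fix with h3 from roots_all; φ r = r as r in N, φ in D), and T₀' ≠ 0 in Tor (cj π): contradiction to h0.
zD: cyc_ch. om1, et1: F3. fw: w in N. fro, phi: F2. Of: ch: T in Tor π: η • (κ • T) = (om).val • T: both are determined modulo p, p • T = 0. ch': F3. rs: F2. The last property of the values is the one of F1. -/
theorem exists_frm (dta : Dta A B Om j act mo ψ p) (hπ : Prime π) (hd : π ∣ (p : 𝓞 F)) (hs : ¬ π ∣ cj π)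
    (hV : V.valuation (ak Ω π) < 1) (N : IntermediateField F Ω) [NumberField N]
    (h0 : ∀ T : Pt (WAB A B) Ω, act (cj π) T = 0 → (∀ s ∈ DN N V, ac (WAB A B) s T = T) → T = 0) :
    ∃ X : Frm F Ω, X.p = p ∧ X.V = V ∧ Of X act π N ∧
      ∀ y : Ω, y ≠ 0 → (∀ s ∈ N.fixingSubgroup, Inert V s → s y = y) → ∃ i : ℤ, V.valuation y = V.valuation X.w ^ i := by
  have hp := dta.prime
  have hpf : Fact p.Prime := ⟨hp⟩
  have hA := dta.cma
  obtain ⟨hpp, u, v, huv⟩ := tors_split hA hp dta.unr hπ hd hs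
  have hπ' := H55K.cj_prime hπ
  have hd' : cj π ∣ (p : 𝓞 F) := ⟨π, by rw [mul_comm, hpp]⟩
  have hs' : ¬ cj π ∣ cj (cj π) := by
    rw [H55K.cj_dvd, H55K.cj_cj]
    exact hs
  have hle : ∀ x : 𝓞 F, V.valuation (ak Ω x) ≤ 1 := fun x => H55K.S.vo_le V x
  have hp0 : V.valuation (p : Ω) < 1 := by
    have e1 : (p : Ω) = ak Ω (p : 𝓞 F) := by simp [ak]
    have e2 := H55K.S.vo_mul V π (cj π)
    rw [hpp] at e2
    rw [e1]
    refine lt_of_eq_of_lt e2 ?_
    exact mul_lt_one_of_nonneg_of_lt_one_left zero_le hV (hle _)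
  have hc1 : V.valuation (ak Ω (cj π)) = 1 := H55K.S.vo_unit ⟨u, v, huv⟩ hV
  have hG : GV A B V := dta.good V hp0
  obtain ⟨w, e, hwN, hw0, hw1, he0, hep, hval⟩ := exists_unif hp hp0 N
  obtain ⟨q, φ, hq1, hpq, hφD, hφ, r, hr1, hr2, hr3⟩ := exists_res hp hπ hd hV N
  obtain ⟨κ, hκ1, hκ2, hκ3, hκ4⟩ := exists_ch hA hp dta.unr hπ hd hs
  obtain ⟨η, hη1, hη2, hη3, hη4⟩ := exists_ch hA hp dta.unr hπ' hd' hs'
  have hac : IsAlgClosed Ω := IsAlgClosure.isAlgClosed F
  have hchar : CharZero Ω := charZero_of_injective_algebraMap (algebraMap F Ω).injective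
  have hn0 : NeZero p := ⟨hp.ne_zero⟩
  have hn1 : NeZero (p : Ω) := ⟨Nat.cast_ne_zero.2 hp.ne_zero⟩
  obtain ⟨ζ, hζ⟩ := HasEnoughRootsOfUnity.exists_primitiveRoot Ω p
  have hact : ∀ T : Pt (WAB A B) Ω, act (p : 𝓞 F) T = p • T := fun T => H55K.S.act_nat p T
  have hkp : ∀ T : Pt (WAB A B) Ω, act π T = 0 → p • T = 0 := fun T hT => by
    rw [← hact, ← hpp, mul_comm, H55K.S.act_mul, hT, map_zero]
  have hkp' : ∀ T : Pt (WAB A B) Ω, act (cj π) T = 0 → p • T = 0 := fun T hT => by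
    rw [← hact, ← hpp, H55K.S.act_mul, hT, map_zero]
  have hspl : ∀ T : Pt (WAB A B) Ω, p • T = 0 → act (v * cj π) T + act (u * π) T = T ∧ act π (act (v * cj π) T) = 0 ∧
      act (cj π) (act (u * π) T) = 0 := by
    intro T hT
    refine ⟨?_, ?_, ?_⟩
    · rw [← H55K.S.act_add, add_comm, huv, H55K.S.act_one]
    · rw [← H55K.S.act_mul]
      have e1 : π * (v * cj π) = v * (p : 𝓞 F) := by rw [← hpp]; ring
      rw [e1, H55K.S.act_mul, hact, hT, map_zero]
    · rw [← H55K.S.act_mul]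
      have e1 : cj π * (u * π) = u * (p : 𝓞 F) := by rw [← hpp]; ring
      rw [e1, H55K.S.act_mul, hact, hT, map_zero]
  let X : Frm F Ω :=
    { p := p
      q := q
      e := e
      n := (η φ).val
      V := V
      D := DN N V
      E := f6Fix (DN N V) (fun T : Pt (WAB A B) Ω => act (cj π) T = 0)
      C := f6Fix (DN N V) (fun T : Pt (WAB A B) Ω => p • T = 0)
      w := w
      φ := φ
      ζ := ζ
      om := fun s => κ s * η s
      et := η }
  have hCE : ∀ s ∈ X.E, κ s = 1 ↔ s ∈ X.C := by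
    intro s hsE
    rw [hκ4 s]
    constructor
    · intro hk
      refine ⟨hsE.1, fun T hT => ?_⟩
      obtain ⟨h1, h2, h3⟩ := hspl T hT
      have h4 := hk _ h2
      have h5 := hsE.2 _ h3
      have h6 : ac (WAB A B) s (act (v * cj π) T + act (u * π) T) = act (v * cj π) T + act (u * π) T := by
        rw [map_add, h4, h5]
      rwa [h1] at h6
    · intro hC T hT
      exact hC.2 T (hkp T hT)
  have hη1' : ∀ s ∈ X.E, η s = 1 := fun s hsE => (hη4 s).2 hsE.2
  have hle1 : X.C ≤ X.E := fun s hsC => ⟨hsC.1, fun T hT => hsC.2 T (hkp' T hT)⟩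
  have hφf : ∀ i, φ (r i) = r i := fun i =>
    (IntermediateField.mem_fixingSubgroup_iff N φ).1 (mem_DN.1 hφD).1 (r i) (hr1 i).1
  have hOk : X.Ok := by
    refine
      { pr := hp
        odd := lt_of_lt_of_le (by norm_num) dta.five
        dec := fun s hs => (mem_DN.1 hs).2
        le1 := hle1
        le2 := fun s hs => hs.1
        nrm1 := fun s hs t ht => f6_nrm (fun s _ T hT => by rw [← map_nsmul, hT, map_zero]) hs ht
        nrm2 := fun s hs t ht => f6_nrm (fun s _ T hT => by rw [← hA.gal, hT, map_zero]) hs ht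
        rep := f6_rep hp κ hκ2 hκ3 X.C X.E hCE
        fw := fun s hs => (IntermediateField.mem_fixingSubgroup_iff N s).1 (mem_DN.1 hs).1 w hwN
        w0 := hw0
        w1 := hw1
        val := fun x hx0 hx => hval x hx0 fun s hsN hsI => hx s
          ⟨mem_DN.2 ⟨hsN, H55P.inert_dec V s hsI⟩, fun T hT => H13X.inert_tors hA hG hc1 hsI (H55K.S.mem_Tor.2 hT)⟩
        e0 := he0
        ep := hep
        q0 := hq1
        qp := hpq
        res := ?_
        phi := hφD
        fro := hφ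
        etn := (ZMod.natCast_zmod_val (η φ)).symm
        n1 := ?_
        prim := hζ
        zD := fun s _ => cyc_ch dta hπ hd hs hζ hκ1 hη1 s
        om1 := fun s hsC => by
          show κ s * η s = 1
          rw [(hCE s (hle1 hsC)).2 hsC, hη1' s (hle1 hsC), one_mul]
        et1 := hη1' }
    · intro x hx hxE
      have h1 : φ ^ (p - 1) ∈ X.E := by
        refine ⟨(DN N V).pow_mem hφD _, (hη4 _).1 ?_⟩
        have h2 : η (φ ^ (p - 1)) = η φ ^ (p - 1) := map_pow (f6Hom hp η hη2 hη3) φ (p - 1)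
        rw [h2]
        exact ZMod.pow_card_sub_one_eq_one (hη3 φ)
      have h3 := f6_pow hφ (mem_DN.1 hφD).2 hx (p - 1)
      rw [hxE _ h1] at h3
      rw [← neg_sub, Valuation.map_neg]
      exact h3
    · intro h1
      have h2 : η φ = 1 := by
        rw [← ZMod.natCast_zmod_val (η φ)]
        exact h1
      obtain ⟨T₀, hT1, _, hT2, _⟩ := exists_T0 hA hp dta.unr hπ' hd' hs'
      have h3 : T₀ = 0 := by
        refine h0 T₀ hT1 fun s hsD => ?_
        exact frob_fix hA hG hc1 hφ hr1 (fun x hx hxq => roots_all hq1 hφ (fun i => ⟨hφf i, (hr1 i).2⟩) hr2 x hx hxq)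
          ((hη4 φ).1 h2) s hsD T₀ hT1
      have h4 := hT2 1 (by rw [h3, nsmul_zero])
      exact one_ne_zero h4
  refine ⟨X, rfl, rfl, ?_, hval⟩
  exact
    { ok := hOk
      D := rfl
      E := fun s => Iff.rfl
      C := fun s => Iff.rfl
      wN := hwN
      rs := ⟨r, hr1, hr2, hr3⟩
      ch := fun s _ T hT => by
        show (η s).val • ac (WAB A B) s T = (κ s * η s).val • T
        rw [hκ1 s T hT, ZMod.val_mul, f6_mod (hkp T hT), mul_nsmul]
      ch' := fun s _ T hT => hη1 s T hT }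

end H19B
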