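import Mathlib

/-! # H19B, chunk NC (S/M): counting exponents (ONLY MATHLIB) -/

namespace H19B

/-- Chunk NC (S/M). The number of exponents i with 0 < i, i (p-1) < e p, p not dividing i, is e. PROOF. k is the largest integer with k (p-1) < e p. Product of a constant over a filtered range: Finset.prod_ite, Finset.prod_const; the number of i < k with p not dividing i + 1 is
k - k / p (Nat.card_multiples or Nat.count, Finset.card of multiples of p in Ioc 0 k: Nat.Ioc_filter_dvd_card_eq_div; p divides i + 1 for k / p values). k - k / p = e: write e = (p-1) a + b with 0 ≤ b < p - 1. If b > 0: k = largest with k (p-1) < p (p-1) a + p b, and p b = (p-1) b + b with 0 < b < p - 1,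
so k = p a + b, k / p = a (b < p), k - k / p = (p - 1) a + b = e. If b = 0: k = p a - 1, k / p = a - 1 (a > 0), k - k / p = (p-1) a = e. (The hypotheses hk1, hk2 say that k is the largest integer with this property.) -/
theorem prod_count {p q e k : ℕ} (hp : 2 < p) (he : 0 < e) (hk1 : k * (p - 1) < e * p) (hk2 : e * p ≤ (k + 1) * (p - 1)) :
    ∏ i ∈ Finset.range k, (if p ∣ i + 1 then 1 else q) = q ^ e := by
  have h0 := Finset.card_filter_add_card_filter_not (s := Finset.range k) (fun i => p ∣ i + 1)
  rw [Nat.card_multiples, Finset.card_range] at h0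
  rw [Finset.prod_ite, Finset.prod_const_one, one_mul, Finset.prod_const]
  have hk := Nat.div_add_mod k p
  have hr : k % p < p := Nat.mod_lt _ (by omega)
  generalize k / p = m at *
  generalize k % p = r at *
  generalize (Finset.filter (fun i => ¬ p ∣ i + 1) (Finset.range k)).card = c at *
  obtain ⟨P, rfl⟩ : ∃ P, p = P + 1 := ⟨p - 1, by omega⟩
  rw [Nat.add_sub_cancel] at hk1 hk2
  have hc : c = P * m + r := by
    have h1 : (P + 1) * m = P * m + m := by ring
    omega
  subst hc
  subst hk
  congr 1
  apply le_antisymm
  · by_contra hlt
    push Not at hlt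
    nlinarith
  · by_contra hlt
    push Not at hlt
    nlinarith

end H19B
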