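import Mathlib
import Pool.Agent.Lib.H19B.D
import Pool.Agent.Lib.H19B.Z1

/-! # H19B, chunk P1 (M): p-th powers of one-units -/

namespace H19B

variable {F : Type} [Field F] {Ω : Type} [Field Ω] [Algebra F Ω]

/-- Chunk P1 (S). PROOF. (1 + y)^p = 1 + y^p + p y z with V(z) ≤ 1 for V(y) ≤ 1: add_pow or Commute.exists_add_pow_prime_eq (exists_add_pow_prime_eq: (x + y)^p = x^p + y^p + p x y r); apply it in the subring V (r in V). -/
theorem pow_one_add {p : ℕ} (hp : p.Prime) (V : ValuationSubring Ω) {y : Ω} (hy : V.valuation y ≤ 1) :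
    ∃ z : Ω, V.valuation z ≤ 1 ∧ (1 + y) ^ p = 1 + y ^ p + p * y * z := by
  have hyV : y ∈ V := (V.valuation_le_one_iff _).1 hy
  obtain ⟨r, hr⟩ := exists_add_pow_prime_eq hp (1 : V) ⟨y, hyV⟩
  refine ⟨r, (V.valuation_le_one_iff _).2 r.2, ?_⟩
  have h2 := congrArg (Subtype.val) hr
  push_cast at h2
  rw [h2]
  ring

/-- Chunk P1 (S). In fact z = 1 + (multiple of y) up to the maximal ideal: the linear coefficient. PROOF. (1+y)^p = ∑ over i of (p choose i) y^i; the terms 0 < i < p are p y (1 + y z'): (p choose i) = p c_i (Nat.Prime.dvd_choose_self), c_1 = 1. -/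
theorem pow_one_add' {p : ℕ} (hp : p.Prime) (V : ValuationSubring Ω) {y : Ω} (hy : V.valuation y ≤ 1) :
    ∃ z : Ω, V.valuation z ≤ 1 ∧ (1 + y) ^ p = 1 + y ^ p + p * y * (1 + y * z) := by
  obtain ⟨P, rfl⟩ : ∃ P, p = P + 2 := ⟨p - 2, by have := hp.two_le; omega⟩
  have hc : ∀ i ∈ Finset.range P, ((Nat.choose (P + 2) (i + 2) : ℕ) : Ω)
      = ((P + 2 : ℕ) : Ω) * ((Nat.choose (P + 2) (i + 2) / (P + 2) : ℕ) : Ω) := by
    intro i hi
    have hd : (P + 2) ∣ Nat.choose (P + 2) (i + 2) :=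
      hp.dvd_choose_self (by omega) (by have := Finset.mem_range.1 hi; omega)
    rw [← Nat.cast_mul, Nat.mul_div_cancel' hd]
  refine ⟨∑ i ∈ Finset.range P, y ^ i * ((Nat.choose (P + 2) (i + 2) / (P + 2) : ℕ) : Ω), ?_, ?_⟩
  · refine Valuation.map_sum_le _ fun i _ => ?_
    rw [map_mul, map_pow]
    exact mul_le_one' (pow_le_one' hy _) ((V.valuation_le_one_iff _).2 (natCast_mem V _))
  · have hs : ∑ i ∈ Finset.range P, y ^ (i + 2) * ((Nat.choose (P + 2) (i + 2) : ℕ) : Ω)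
        = ((P + 2 : ℕ) : Ω) * y * (y * ∑ i ∈ Finset.range P, y ^ i * ((Nat.choose (P + 2) (i + 2) / (P + 2) : ℕ) : Ω)) := by
      rw [Finset.mul_sum, Finset.mul_sum]
      refine Finset.sum_congr rfl fun i hi => ?_
      rw [hc i hi]
      ring
    rw [add_comm 1 y, add_pow, Finset.sum_range_succ, Finset.sum_range_succ', Finset.sum_range_succ']
    simp only [one_pow, mul_one, Nat.choose_self, Nat.cast_one, pow_zero, Nat.choose_zero_right, zero_add, pow_one,
      Nat.choose_one_right, add_assoc, one_add_one_eq_two]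
    rw [hs]
    ring

/-- Chunk P1 (M). PROOF. First V(γ - 1) < 1: V(γ)^p = V(γ^p) = 1 as V(γ^p - 1) < 1 (i > 0: p does not divide 0; V(w) < 1), so V(γ) = 1, y = γ - 1 has V(y) ≤ 1, pow_one_add: V(y^p) ≤ max (V(γ^p - 1), V(p)) < 1. If y = 0 then γ^p - 1 = 0, clear (V(w) ≠ 0).
Otherwise V(y) = V(w)^j, j an integer (h.val, y is fixed by E), j ≥ 1. V(γ^p - 1) ≤ max (V(w)^(p j), V(w)^(e + j)) (V(p) = V(w)^e). If p j ≠ e + j the value is exactly the larger one, V(w)^min(pj, e+j) (use pow_one_add', V(1 + y z) = 1).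
(1) p j < e + j: V(w)^(pj) = V(γ^p - 1) ≤ V(w)^i, so p j ≥ i, and p j ≠ i as p does not divide i: p j > i, <. (2) p j ≥ e + j: j (p-1) ≥ e; V(γ^p - 1) ≤ V(w)^(e+j) and (e + j)(p - 1) ≥ e (p - 1) + e = e p > i (p - 1), so e + j > i, <. -/
theorem pow_claim (X : Frm F Ω) (h : X.Ok) {γ : Ω} (hγ : ∀ s ∈ X.E, s γ = γ) {i : ℕ} (hi : ¬ X.p ∣ i)
    (hie : i * (X.p - 1) < X.e * X.p) (h1 : X.V.valuation (γ ^ X.p - 1) ≤ X.V.valuation X.w ^ i) :
    X.V.valuation (γ ^ X.p - 1) < X.V.valuation X.w ^ i := by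
  have hW0 : X.V.valuation X.w ≠ 0 := (Valuation.ne_zero_iff _).2 h.w0
  have hWp : 0 < X.V.valuation X.w := zero_lt_iff.2 hW0
  have hWip : 0 < X.V.valuation X.w ^ i := zero_lt_iff.2 (pow_ne_zero _ hW0)
  have hi0 : i ≠ 0 := by
    rintro rfl
    exact hi (dvd_zero _)
  have hWi1 : X.V.valuation X.w ^ i < 1 := pow_lt_one₀ zero_le h.w1 hi0
  have h2 : X.V.valuation (γ ^ X.p - 1) < 1 := lt_of_le_of_lt h1 hWi1
  have h3 : X.V.valuation (γ ^ X.p) = 1 := by
    have e : γ ^ X.p = 1 + (γ ^ X.p - 1) := by ring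
    rw [e]
    exact Valuation.map_one_add_of_lt _ h2
  have h4 : X.V.valuation γ = 1 := by
    rw [map_pow] at h3
    exact (pow_eq_one_iff.1 h3).resolve_right h.pr.ne_zero
  obtain ⟨y, hy⟩ : ∃ y : Ω, γ = 1 + y := ⟨γ - 1, by ring⟩
  have hy1 : X.V.valuation y ≤ 1 := by
    have e : y = γ - 1 := by
      rw [hy]
      ring
    rw [e]
    exact (Valuation.map_sub _ _ _).trans (max_le h4.le (by rw [map_one]))
  have hyE : ∀ s ∈ X.E, s y = y := by
    intro s hs
    have e : y = γ - 1 := by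
      rw [hy]
      ring
    rw [e, map_sub, map_one, hγ s hs]
  have hp1 : X.V.valuation (X.p : Ω) < 1 := vp_lt X h
  have hylt : X.V.valuation y < 1 := by
    obtain ⟨z, hz1, hz2⟩ := pow_one_add h.pr X.V hy1
    rw [← hy] at hz2
    have e : y ^ X.p = (γ ^ X.p - 1) - X.p * y * z := by
      rw [hz2]
      ring
    have h5 : X.V.valuation (y ^ X.p) < 1 := by
      rw [e]
      refine lt_of_le_of_lt (Valuation.map_sub _ _ _) (max_lt h2 ?_)
      rw [map_mul, map_mul, mul_assoc]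
      exact lt_of_le_of_lt (mul_le_of_le_one_right' (mul_le_one' hy1 hz1)) hp1
    rw [map_pow] at h5
    exact (pow_lt_one_iff h.pr.ne_zero).1 h5
  by_cases hy0 : y = 0
  · rw [hy, hy0, add_zero, one_pow, sub_self, map_zero]
    exact hWip
  obtain ⟨j, hj⟩ := h.val y hy0 hyE
  have hj1 : 0 < j := by
    rw [hj] at hylt
    by_contra hj0
    push Not at hj0
    have h6 : X.V.valuation X.w ^ (0 : ℤ) ≤ X.V.valuation X.w ^ j := zpow_le_zpow_right_of_le_one₀ hWp h.w1.le hj0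
    rw [zpow_zero] at h6
    exact absurd hylt (not_lt.2 h6)
  obtain ⟨J, rfl⟩ : ∃ J : ℕ, j = (J : ℤ) := ⟨j.toNat, (Int.toNat_of_nonneg hj1.le).symm⟩
  rw [zpow_natCast] at hj
  have hJ1 : 0 < J := by exact_mod_cast hj1
  obtain ⟨z, hz1, hz2⟩ := pow_one_add' h.pr X.V hy1
  rw [← hy] at hz2
  have e : γ ^ X.p - 1 = y ^ X.p + X.p * y * (1 + y * z) := by
    rw [hz2]
    ring
  have hv1 : X.V.valuation (y ^ X.p) = X.V.valuation X.w ^ (J * X.p) := by rw [map_pow, hj, ← pow_mul]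
  have hv2 : X.V.valuation (X.p * y * (1 + y * z)) = X.V.valuation X.w ^ (X.e + J) := by
    have h7 : X.V.valuation (1 + y * z) = 1 := by
      refine Valuation.map_one_add_of_lt _ ?_
      rw [map_mul]
      exact lt_of_le_of_lt (mul_le_of_le_one_right' hz1) hylt
    rw [map_mul, h7, mul_one, map_mul, h.ep, hj, ← pow_add]
  rcases lt_or_ge (J * X.p) (X.e + J) with hlt | hge
  · have h8 : X.V.valuation (X.p * y * (1 + y * z)) < X.V.valuation (y ^ X.p) := by
      rw [hv1, hv2]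
      exact pow_lt_pow_right_of_lt_one₀ hWp h.w1 hlt
    have h9 : X.V.valuation (γ ^ X.p - 1) = X.V.valuation X.w ^ (J * X.p) := by
      rw [e, Valuation.map_add_eq_of_lt_left _ h8, hv1]
    rw [h9] at h1 ⊢
    have h10 : i ≤ J * X.p := (pow_le_pow_iff_right_of_lt_one₀ hWp h.w1).1 h1
    have h11 : i ≠ J * X.p := by
      intro h12
      exact hi (h12 ▸ dvd_mul_left _ _)
    exact pow_lt_pow_right_of_lt_one₀ hWp h.w1 (lt_of_le_of_ne h10 h11)
  · have h8 : X.V.valuation (y ^ X.p) ≤ X.V.valuation X.w ^ (X.e + J) := by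
      rw [hv1]
      exact pow_le_pow_of_le_one hWp.le h.w1.le hge
    have h9 : X.V.valuation (γ ^ X.p - 1) ≤ X.V.valuation X.w ^ (X.e + J) := by
      rw [e]
      exact Valuation.map_add_le _ h8 hv2.le
    refine lt_of_le_of_lt h9 (pow_lt_pow_right_of_lt_one₀ hWp h.w1 ?_)
    obtain ⟨P, hP⟩ : ∃ P, X.p = P + 1 := ⟨X.p - 1, by have := h.pr.one_lt; omega⟩
    rw [hP] at hie hge
    rw [Nat.add_sub_cancel] at hie
    by_contra h12
    push Not at h12
    have h13 : (X.e + J) * P ≤ i * P := Nat.mul_le_mul_right P h12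
    have h14 : X.e ≤ J * P := by
      rw [mul_add, mul_one] at hge
      omega
    have h15 : (X.e + J) * P = X.e * P + J * P := by ring
    have h16 : X.e * (P + 1) = X.e * P + X.e := by ring
    omega

end H19B
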