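import Mathlib
import Pool.Agent.Lib.H19B.D2
import Pool.Agent.Lib.H19B.E1
import Pool.Agent.Lib.H55K.G5E
import Pool.Agent.Lib.H13S.IN4

/-! # H19B, chunk C6 (M): the value of the parameter of act π Q -/

open NumberField IsDedekindDomain WeierstrassCurve

namespace H19B

open H55P (IQ Pt ac Dec Inert decS Nm)
open H35P (WAB Ker tt)
open H55K (Tor CMA Dta GV ak cj)

variable {F : Type} [Field F] [NumberField F] [IQ F] {A B : F} {Om : ℂ} {Ω : Type} [Field Ω] [DecidableEq Ω]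
  [Algebra F Ω] [IsAlgClosure F Ω] {j : Ω →+* ℂ} {act : 𝓞 F →+* AddMonoid.End (Pt (WAB A B) Ω)} {mo : Ideal (𝓞 F)}
  {ψ : Ideal (𝓞 F) →*₀ 𝓞 F} {p : ℕ} {V : ValuationSubring Ω} {π : 𝓞 F}

/-- Chunk C6 (M). PROOF. Nm π = p (H55K.S.dichotomy, or hypothesis hN); S = the finite set of the nonzero points killed by π (H55K.exists_TN: card S = Nm π - 1 = p - 1); for R in S: Ker V R (H55K.tor_ker), V(tt R)^(p-1) = V(π) (H55K.tor_ram, file Lib/H55K/G5C or G5D). x = V(tt Q) ≠ 0.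
V(tt (Q + R)) = V(tt (Q - (-R))) = V(tt Q + tt R) (tt_sub_val, tt_neg). H55K.ker_prod: x * prod V(tt (Q + R)) = V(tt (π Q)). If x^(p-1) > V(π): x > V(tt R), so all V(tt (Q + R)) = x and V(tt (π Q)) = x^p: first alternative. If x^(p-1) ≤ V(π): x ≤ V(tt R) for R in S, V(tt (Q + R)) ≤ V(tt R), so V(tt (π Q))^(p-1) ≤
x^(p-1) * (prod V(tt R))^(p-1) = x^(p-1) * V(π)^(p-1) ≤ V(π)^p. -/
theorem pi_val (h : CMA F A B Om j act) (hG : GV A B V) (hπ : Prime π) (hN : Nm π = p) (hp : p.Prime) (hV : V.valuation (ak Ω π) < 1)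
    {Q : Pt (WAB A B) Ω} (hQ : Ker V Q) (h0 : Q ≠ 0) :
    V.valuation (tt (act π Q)) = V.valuation (tt Q) ^ p ∨ V.valuation (tt (act π Q)) ^ (p - 1) ≤ V.valuation (ak Ω π) ^ p := by
  classical
  have hp2 : 2 ≤ p := hp.two_le
  have hp1 : p - 1 ≠ 0 := by omega
  obtain ⟨S, hS, hcard⟩ := H55K.exists_TN h hπ.ne_zero
  have hR : ∀ R ∈ S, Ker V R ∧ V.valuation (tt R) ^ (p - 1) = V.valuation (ak Ω π) := by
    intro R hR
    have h1 := (hS R).1 hR
    have h2 := H55K.tor_ram h hG hπ hV (T := R) h1.1 h1.2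
    rw [hN] at h2
    exact h2
  have hval : ∀ R ∈ S, V.valuation (tt (Q + R)) = V.valuation (tt Q + tt R) := by
    intro R hRS
    have h1 := tt_sub_val hG hQ (H55K.kneg (hR R hRS).1)
    rw [sub_neg_eq_add, H55K.tt_neg, sub_neg_eq_add] at h1
    exact h1
  have hprod := H55K.ker_prod h hG hπ hV hS hQ
  rw [← hprod]
  rw [hN] at hcard
  rcases lt_or_ge (V.valuation (ak Ω π)) (V.valuation (tt Q) ^ (p - 1)) with hx | hx
  · left
    have h1 : ∀ R ∈ S, V.valuation (tt (Q + R)) = V.valuation (tt Q) := by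
      intro R hRS
      rw [hval R hRS]
      refine Valuation.map_add_eq_of_lt_left _ ?_
      by_contra hc
      have h2 := pow_le_pow_left' (not_lt.1 hc) (p - 1)
      rw [(hR R hRS).2] at h2
      exact absurd hx (not_lt.2 h2)
    rw [Finset.prod_congr rfl h1, Finset.prod_const, hcard, ← pow_succ', Nat.sub_add_cancel (by omega)]
  · right
    have h1 : ∀ R ∈ S, V.valuation (tt (Q + R)) ≤ V.valuation (tt R) := by
      intro R hRS
      rw [hval R hRS]
      refine Valuation.map_add_le _ ?_ le_rfl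
      rw [← (hR R hRS).2] at hx
      exact le_of_pow_le_pow_left₀ hp1 zero_le hx
    have h2 : (∏ R ∈ S, V.valuation (tt (Q + R))) ^ (p - 1) ≤ V.valuation (ak Ω π) ^ (p - 1) := by
      rw [← Finset.prod_pow]
      have h3 : ∏ R ∈ S, V.valuation (tt (Q + R)) ^ (p - 1) ≤ ∏ R ∈ S, V.valuation (ak Ω π) := by
        refine Finset.prod_le_prod' fun R hRS => ?_
        rw [← (hR R hRS).2]
        exact pow_le_pow_left' (h1 R hRS) _
      rwa [Finset.prod_const, hcard] at h3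
    rw [mul_pow]
    have h4 := mul_le_mul' hx h2
    rwa [← pow_succ', Nat.sub_add_cancel (by omega)] at h4

/-- Chunk C6 (M). PROOF. Let P = act π Q in EF (with index i) and c = (fun s => s Q - Q) in CI: T with act π T = 0 and s (Q - T) = Q - T for the inertia elements s of DN N V; Q' = Q - T, act π Q' = P, Ker V Q' (H55K.ker_red). If P = 0 clear. Otherwise Q' ≠ 0, tt Q' ≠ 0 is fixed by the inertia elements of N (tt_ac; Inert V s and s fixing N implies s in DN N V: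
H55P.inert_dec), so V(tt Q') = V(w)^m for an integer m (hval), and V(tt P) = V(w)^k with k ≥ i + 1 (hval; P is fixed by DN N V, which contains the inertia elements of N). Suppose k = i + 1 (otherwise V(tt P) ≤ V(w)^(i+2), done). pi_val: either V(w)^(i+1) = V(w)^(m p), so p divides i + 1, contradiction; or
V(w)^((i+1)(p-1)) ≤ V(π)^p = V(w)^(e p), so (i+1)(p-1) ≥ e p, contradiction. -/
theorem kum_step (dta : Dta A B Om j act mo ψ p) (hG : GV A B V) (hπ : Prime π) (hd : π ∣ (p : 𝓞 F)) (hs : ¬ π ∣ cj π)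
    (hV : V.valuation (ak Ω π) < 1) {N : IntermediateField F Ω} {w : Ω} (w0 : w ≠ 0) (w1 : V.valuation w < 1) {e : ℕ}
    (he : V.valuation (ak Ω π) = V.valuation w ^ e)
    (hval : ∀ y : Ω, y ≠ 0 → (∀ s ∈ N.fixingSubgroup, Inert V s → s y = y) → ∃ i : ℤ, V.valuation y = V.valuation w ^ i) {i : ℕ}
    (hi : ¬ p ∣ i + 1) (hie : (i + 1) * (p - 1) < e * p) {Q : Pt (WAB A B) Ω} (hP : act π Q ∈ EF hG (DN N V) w w1 i)
    (hc : (fun s => ac (WAB A B) s Q - Q) ∈ CI (DN N V) V act π) : act π Q ∈ EF hG (DN N V) w w1 (i + 1) := by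
  classical
  have hN : Nm π = p := by
    rcases H55K.S.dichotomy dta.prime dta.unr hπ hd with h1 | h1
    · exact absurd h1.1.symm.dvd hs
    · exact h1.2.2.1
  have hw0 : V.valuation w ≠ 0 := (V.valuation.ne_zero_iff).2 w0
  have hwp : 0 < V.valuation w := zero_lt_iff.2 hw0
  by_cases hP0 : act π Q = 0
  · rw [hP0]
    exact zero_mem _
  obtain ⟨hK, hfix, hle⟩ := (mem_EF hG _ w w1 i _).1 hP
  obtain ⟨-, T, hT, hTs⟩ := (mem_CI _ _ _ _).1 hc
  have hQ' : act π (Q - T) = act π Q := by rw [map_sub, hT, sub_zero]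
  have hKQ : Ker V (Q - T) := H55K.ker_red dta.cma hG hπ hV (by rw [hQ']; exact hK)
  have hQ0 : Q - T ≠ 0 := by
    intro h0
    rw [h0, map_zero] at hQ'
    exact hP0 hQ'.symm
  have htt0 : tt (Q - T) ≠ 0 := fun h0 => hQ0 ((H55K.tt_zero hG hKQ).1 h0)
  obtain ⟨m, hm⟩ := hval _ htt0 (fun s hs hi => by
    have hsD : s ∈ DN N V := mem_DN.2 ⟨hs, H55P.inert_dec V s hi⟩
    have h1 := hTs s hsD hi
    rw [← H55K.tt_ac, map_sub]
    congr 1
    have h2 : ac (WAB A B) s Q - Q = ac (WAB A B) s T - T := h1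
    rw [sub_eq_sub_iff_sub_eq_sub]
    exact h2)
  have hPtt0 : tt (act π Q) ≠ 0 := fun h0 => hP0 ((H55K.tt_zero hG hK).1 h0)
  obtain ⟨k, hk⟩ := hval _ hPtt0 (fun s hs hi => by
    rw [← H55K.tt_ac, hfix s (mem_DN.2 ⟨hs, H55P.inert_dec V s hi⟩)])
  have hmono : ∀ a b : ℤ, V.valuation w ^ a ≤ V.valuation w ^ b ↔ b ≤ a := fun a b =>
    zpow_le_zpow_iff_right_of_lt_one₀ hwp w1
  have hinj : ∀ a b : ℤ, V.valuation w ^ a = V.valuation w ^ b → a = b := fun a b hab =>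
    le_antisymm ((hmono b a).1 hab.ge) ((hmono a b).1 hab.le)
  have hk1 : (i : ℤ) + 1 ≤ k := by
    have h1 := hle
    rw [hk, ← zpow_natCast] at h1
    have h2 := (hmono _ _).1 h1
    push_cast at h2
    exact h2
  refine (mem_EF hG _ w w1 (i + 1) _).2 ⟨hK, hfix, ?_⟩
  rw [hk, ← zpow_natCast, hmono]
  push_cast
  rcases lt_or_ge (i + 1 : ℤ) k with h3 | h3
  · omega
  exfalso
  have hki : k = ((i + 1 : ℕ) : ℤ) := by
    push_cast
    omega
  rcases pi_val dta.cma hG hπ hN dta.prime hV hKQ hQ0 with h4 | h4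
  · rw [hQ', hk, hm, hki, ← zpow_natCast (V.valuation w ^ m) p, ← zpow_mul] at h4
    have h5 := hinj _ _ h4
    refine hi (Int.natCast_dvd_natCast.1 ?_)
    rw [h5]
    exact dvd_mul_left _ _
  · rw [hQ', hk, he, hki, zpow_natCast, ← pow_mul, ← pow_mul, ← zpow_natCast, ← zpow_natCast, hmono] at h4
    have h5 : e * p ≤ (i + 1) * (p - 1) := by exact_mod_cast h4
    omega

end H19B
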