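import Mathlib
import Pool.Agent.Lib.H19B.D
import Pool.Agent.Lib.H19B.Z1

/-! # H19B, chunk K1 (M): Kummer generators exist (independence of characters) -/

namespace H19B

variable {F : Type} [Field F] {Ω : Type} [Field Ω] [Algebra F Ω]

/-- Restriction to an intermediate field. -/
noncomputable def k1_res (L : IntermediateField F Ω) (s : Ω ≃ₐ[F] Ω) : L →ₐ[F] Ω := (s : Ω →ₐ[F] Ω).comp L.val

theorem k1_res_apply (L : IntermediateField F Ω) (s : Ω ≃ₐ[F] Ω) (x : L) : k1_res L s x = s (x : Ω) := rfl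

theorem k1_eq (X : Frm F Ω) {a : (Ω ≃ₐ[F] Ω) → ZMod X.p} (ha : X.Tw a) (L : IntermediateField F Ω)
    (hL : ∀ s ∈ X.C, s ∈ L.fixingSubgroup → a s = 0) {t t' : Ω ≃ₐ[F] Ω} (ht : t ∈ X.C) (ht' : t' ∈ X.C)
    (h : k1_res L t = k1_res L t') : a t = a t' := by
  have h1 : t⁻¹ * t' ∈ X.C := X.C.mul_mem (X.C.inv_mem ht) ht'
  have h2 : t⁻¹ * t' ∈ L.fixingSubgroup := by
    rw [IntermediateField.mem_fixingSubgroup_iff]
    intro x hx
    have h3 : t x = t' x := DFunLike.congr_fun h (⟨x, hx⟩ : L)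
    rw [AlgEquiv.mul_apply, ← h3]
    exact t.symm_apply_apply x
  have h4 := ha.add t ht (t⁻¹ * t') h1
  rw [hL _ h1 h2, add_zero, mul_inv_cancel_left] at h4
  exact h4.symm

/-- Composition with an automorphism as a permutation. -/
noncomputable def k1_perm (L : IntermediateField F Ω) (s : Ω ≃ₐ[F] Ω) : (L →ₐ[F] Ω) ≃ (L →ₐ[F] Ω) where
  toFun r := (s : Ω →ₐ[F] Ω).comp r
  invFun r := (s.symm : Ω →ₐ[F] Ω).comp r
  left_inv r := by ext x; exact s.symm_apply_apply _
  right_inv r := by ext x; exact s.apply_symm_apply _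

/-- Chunk K1 (M). PROOF. Let L be finite over F with a s = 0 for s in C fixing L (ha.cont). The set R of the F-homomorphisms L -> Ω which are restrictions of elements of C is finite (Finite (L →ₐ[F] Ω)).
For t, t' in C with equal restriction, t⁻¹ t' is in C and fixes L, so a t' = a t + a (t⁻¹ t') = a t (ha.add): a defines a function a' on R. The homomorphisms in R are
linearly independent over Ω as functions on L (linearIndependent_monoidHom L Ω, restricted to R; or linearIndependent_toLinearMap / AlgHom), and the coefficients zt (-a' r) are not 0, so there is x in L with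
β = ∑ over r in R of zt (-a' r) * r x ≠ 0. For s in C: s fixes ζ (om s = 1, zt_map), s ∘ r is again in R, r -> s ∘ r is a bijection of R, a' (s ∘ r) = a s + a' r, hence
s β = ∑ zt (-a' r) (s ∘ r) x = ∑ zt (a s - a' (s ∘ r)) (s ∘ r) x = zt (a s) β. -/
theorem kummer_gen (X : Frm F Ω) (h : X.Ok) (a : (Ω ≃ₐ[F] Ω) → ZMod X.p) (ha : X.Tw a) :
    ∃ β : Ω, β ≠ 0 ∧ ∀ t ∈ X.C, t β = zt X.ζ (a t) * β := by
  classical
  obtain ⟨L, hfin, hL⟩ := ha.cont
  haveI : Fintype (L →ₐ[F] Ω) := Fintype.ofFinite _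
  set c : (L →ₐ[F] Ω) → Ω := fun r => if hr : ∃ t ∈ X.C, k1_res L t = r then zt X.ζ (-a hr.choose) else 0 with hc
  have hc1 : ∀ t ∈ X.C, c (k1_res L t) = zt X.ζ (-a t) := by
    intro t ht
    have hr : ∃ t' ∈ X.C, k1_res L t' = k1_res L t := ⟨t, ht, rfl⟩
    have h1 : c (k1_res L t) = zt X.ζ (-a hr.choose) := dif_pos hr
    rw [h1, k1_eq X ha L hL hr.choose_spec.1 ht hr.choose_spec.2]
  have hc0 : ∀ r, (¬ ∃ t ∈ X.C, k1_res L t = r) → c r = 0 := fun r hr => dif_neg hr
  have hli : LinearIndependent Ω (fun (r : L →ₐ[F] Ω) => (fun x => r x : L → Ω)) := by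
    have h1 := linearIndependent_monoidHom L Ω
    have h2 : Function.Injective (fun r : L →ₐ[F] Ω => (r : L →* Ω)) := by
      intro r r' hrr
      ext x
      exact DFunLike.congr_fun hrr x
    exact h1.comp _ h2
  obtain ⟨x, hx⟩ : ∃ x : L, ∑ r : L →ₐ[F] Ω, c r * r x ≠ 0 := by
    by_contra hcon
    push Not at hcon
    have h1 := (Fintype.linearIndependent_iff.1 hli) c (by
      funext x
      rw [Finset.sum_apply]
      exact hcon x) (k1_res L 1)
    rw [hc1 1 X.C.one_mem] at h1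
    exact zt_ne h.pr h.prim _ h1
  refine ⟨_, hx, fun s hs => ?_⟩
  have hsD : s ∈ X.D := h.le2 (h.le1 hs)
  have hfix : ∀ b : ZMod X.p, s (zt X.ζ b) = zt X.ζ b := fun b => by
    rw [zt_map X h s hsD, h.om1 s hs, one_mul]
  have hsc : ∀ r, s (c r) = zt X.ζ (a s) * c (k1_perm L s r) := by
    intro r
    by_cases hr : ∃ t ∈ X.C, k1_res L t = r
    · obtain ⟨t, ht, rfl⟩ := hr
      have h1 : k1_perm L s (k1_res L t) = k1_res L (s * t) := by ext x; rfl
      rw [h1, hc1 t ht, hc1 _ (X.C.mul_mem hs ht), hfix, ← zt_add h.pr h.prim, ha.add s hs t ht]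
      congr 1
      ring
    · have hr' : ¬ ∃ t ∈ X.C, k1_res L t = k1_perm L s r := by
        rintro ⟨t, ht, h1⟩
        refine hr ⟨s⁻¹ * t, X.C.mul_mem (X.C.inv_mem hs) ht, ?_⟩
        ext x
        have h2 : t (x : Ω) = s (r x) := DFunLike.congr_fun h1 x
        show s⁻¹ (t (x : Ω)) = r x
        rw [h2]
        exact s.symm_apply_apply _
      rw [hc0 r hr, hc0 _ hr', map_zero, mul_zero]
  rw [map_sum]
  calc ∑ r, s (c r * r x) = ∑ r, zt X.ζ (a s) * (c (k1_perm L s r) * (k1_perm L s r) x) := by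
        refine Finset.sum_congr rfl fun r _ => ?_
        rw [map_mul, hsc r, mul_assoc]
        rfl
    _ = zt X.ζ (a s) * ∑ r, c (k1_perm L s r) * (k1_perm L s r) x := by rw [Finset.mul_sum]
    _ = zt X.ζ (a s) * ∑ r, c r * r x := by
        rw [Equiv.sum_comp (k1_perm L s) (fun r => c r * r x)]

end H19B
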