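import Mathlib
import Pool.Agent.Lib.H19B.K2

/-! # H19B, chunk K3 (S/M): rules for Kummer generators, the Frobenius equation -/

namespace H19B

variable {F : Type} [Field F] {Ω : Type} [Field Ω] [Algebra F Ω]

/-- Chunk K3 (S). zt_add. -/
theorem kg_mul (X : Frm F Ω) (h : X.Ok) {a b : (Ω ≃ₐ[F] Ω) → ZMod X.p} {β γ : Ω} (hβ : X.Kg a β) (hγ : X.Kg b γ) :
    X.Kg (a + b) (β * γ) := by
  obtain ⟨b0, b1, b2⟩ := hβ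
  obtain ⟨c0, c1, c2⟩ := hγ
  refine ⟨mul_ne_zero b0 c0, fun s hs => ?_, fun t ht => ?_⟩
  · rw [mul_pow, map_mul, b1 s hs, c1 s hs]
  · rw [map_mul, b2 t ht, c2 t ht, Pi.add_apply, zt_add h.pr h.prim]
    ring

/-- Chunk K3 (S). zt_neg. -/
theorem kg_inv (X : Frm F Ω) (h : X.Ok) {a : (Ω ≃ₐ[F] Ω) → ZMod X.p} {β : Ω} (hβ : X.Kg a β) : X.Kg (-a) β⁻¹ := by
  obtain ⟨b0, b1, b2⟩ := hβ
  refine ⟨inv_ne_zero b0, fun s hs => ?_, fun t ht => ?_⟩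
  · rw [inv_pow, map_inv₀, b1 s hs]
  · rw [map_inv₀, b2 t ht, Pi.neg_apply, zt_neg h.pr h.prim, mul_inv]

/-- Chunk K3 (S). zt_mul. The character of β^k is k a; it is a if k = 1 modulo p. -/
theorem kg_pow (X : Frm F Ω) (h : X.Ok) {a : (Ω ≃ₐ[F] Ω) → ZMod X.p} {β : Ω} (hβ : X.Kg a β) (k : ℕ) (hk : (k : ZMod X.p) = 1) :
    X.Kg a (β ^ k) := by
  obtain ⟨b0, b1, b2⟩ := hβ
  refine ⟨pow_ne_zero k b0, fun s hs => ?_, fun t ht => ?_⟩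
  · rw [← pow_mul, mul_comm, pow_mul, map_pow, b1 s hs]
  · rw [map_pow, b2 t ht, mul_pow, ← zt_mul h.pr h.prim, hk, one_mul]

/-- Chunk K3 (S). -/
theorem kg_scale (X : Frm F Ω) (h : X.Ok) {a : (Ω ≃ₐ[F] Ω) → ZMod X.p} {β γ : Ω} (hβ : X.Kg a β) (h0 : γ ≠ 0)
    (hγ : ∀ s ∈ X.E, s γ = γ) : X.Kg a (β * γ) := by
  obtain ⟨b0, b1, b2⟩ := hβ
  refine ⟨mul_ne_zero b0 h0, fun s hs => ?_, fun t ht => ?_⟩
  · rw [mul_pow, map_mul, b1 s hs, map_pow, hγ s hs]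
  · rw [map_mul, b2 t ht, hγ t (h.le1 ht), mul_assoc]

/-- Chunk K3 (S). -/
theorem kg_one (X : Frm F Ω) (h : X.Ok) : X.Kg 0 1 := by
  refine ⟨one_ne_zero, fun s hs => ?_, fun t ht => ?_⟩
  · rw [one_pow, map_one]
  · rw [map_one, Pi.zero_apply, zt_zero, one_mul]

/-- Chunk K3 (M). PROOF. t (φ β) = φ ((φ⁻¹ t φ) β) = φ (zt (a (φ⁻¹ t φ)) β) = zt (om φ * a (φ⁻¹ t φ)) φ β = zt (et φ * a t) φ β = zt (a t)^n φ β (ha.tw, h.etn, zt_mul) for t in C. So δ = φ β / β^n is fixed by C, and δ^p = φ (β^p) / (β^p)^n is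
fixed by E: for s in E, s φ (β^p) = φ ((φ⁻¹ s φ) β^p) = φ (β^p) as φ⁻¹ s φ is in E (h.nrm2, h.phi). kummer_avg gives γ. -/
theorem kg_frob (X : Frm F Ω) (h : X.Ok) {a : (Ω ≃ₐ[F] Ω) → ZMod X.p} (ha : X.Tw a) {β : Ω} (hβ : X.Kg a β) :
    ∃ γ : Ω, γ ≠ 0 ∧ (∀ s ∈ X.E, s γ = γ) ∧ X.φ (β ^ X.p) = (β ^ X.p) ^ X.n * γ ^ X.p := by
  obtain ⟨b0, b1, b2⟩ := hβ
  have hc : ∀ s t : Ω ≃ₐ[F] Ω, ∀ x : Ω, t (s x) = s ((s⁻¹ * t * s) x) := by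
    intro s t x
    have h3 : s * (s⁻¹ * t * s) = t * s := by group
    have h4 : (s * (s⁻¹ * t * s)) x = (t * s) x := by rw [h3]
    rw [AlgEquiv.mul_apply, AlgEquiv.mul_apply t s] at h4
    exact h4.symm
  have hz : ∀ t ∈ X.C, t (X.φ β) = zt X.ζ (a t) ^ X.n * X.φ β := by
    intro t ht
    rw [hc X.φ t β, b2 _ (h.nrm1 X.φ h.phi t ht), map_mul, zt_map X h X.φ h.phi, ha.tw X.φ h.phi t ht, h.etn,
      zt_mul h.pr h.prim]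
  have hp : X.φ β ≠ 0 := by
    intro h0
    exact b0 (by simpa using h0)
  have hn : β ^ X.n ≠ 0 := pow_ne_zero _ b0
  have hδ : X.φ β / β ^ X.n ≠ 0 := div_ne_zero hp hn
  have hδp : (X.φ β / β ^ X.n) ^ X.p = X.φ (β ^ X.p) / (β ^ X.p) ^ X.n := by
    rw [div_pow, map_pow, ← pow_mul, ← pow_mul, mul_comm X.n X.p]
  have e1 : ∀ t ∈ X.C, t (X.φ β / β ^ X.n) = X.φ β / β ^ X.n := by
    intro t ht
    have hzt : zt X.ζ (a t) ^ X.n ≠ 0 := pow_ne_zero _ (zt_ne h.pr h.prim _)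
    rw [map_div₀, hz t ht, map_pow, b2 t ht, mul_pow, mul_div_mul_left _ _ hzt]
  have e2 : ∀ s ∈ X.E, s ((X.φ β / β ^ X.n) ^ X.p) = (X.φ β / β ^ X.n) ^ X.p := by
    intro s hs
    have e3 : s ((β ^ X.p) ^ X.n) = (β ^ X.p) ^ X.n := by rw [map_pow s (β ^ X.p) X.n, b1 s hs]
    have e4 : s (X.φ (β ^ X.p)) = X.φ (β ^ X.p) := by rw [hc X.φ s, b1 _ (h.nrm2 X.φ h.phi s hs)]
    rw [hδp, map_div₀, e3, e4]
  obtain ⟨γ, g0, g1, g2⟩ := kummer_avg X h hδ e1 e2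
  refine ⟨γ, g0, g1, ?_⟩
  rw [g2, hδp, mul_div_cancel₀ _ (pow_ne_zero _ (pow_ne_zero _ b0))]

end H19B
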