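import Mathlib
import Pool.Agent.Lib.H19B.K1
import Pool.Agent.Lib.H19B.K3

/-! # H19B, chunk K4 (M): every twisted character has a Kummer generator β with β^p = 1 modulo the maximal ideal -/

namespace H19B

open H55P (Dec Inert)

variable {F : Type} [Field F] {Ω : Type} [Field Ω] [Algebra F Ω]

theorem k4_dec {V : ValuationSubring Ω} {s : Ω ≃ₐ[F] Ω} (hs : Dec V s) {u : Ω} (hu : V.valuation u = 1) : V.valuation (s u) = 1 := by
  have hu0 : u ≠ 0 := by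
    rintro rfl
    rw [map_zero] at hu
    exact zero_ne_one hu
  have h1 : V.valuation (s u) ≤ 1 := by
    rw [V.valuation_le_one_iff]
    exact (hs u).2 ((V.valuation_le_one_iff u).1 hu.le)
  have h2 : V.valuation (s u)⁻¹ ≤ 1 := by
    have h3 : V.valuation u⁻¹ ≤ 1 := by rw [map_inv₀, hu, inv_one]
    rw [V.valuation_le_one_iff, ← map_inv₀]
    exact (hs u⁻¹).2 ((V.valuation_le_one_iff _).1 h3)
  refine le_antisymm h1 ?_
  rw [map_inv₀] at h2
  have h3 : 0 < V.valuation (s u) := zero_lt_iff.2 ((map_ne_zero _).2 ((map_ne_zero s).2 hu0))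
  exact (inv_le_one₀ h3).1 h2

/-- Chunk K4 (M). PROOF. β with Kg a β (kummer_gen, kummer_norm), x = β^p fixed by E, V(x) = V(w)^i, i an integer (h.val). kg_frob: φ x = x^n γ^p with γ ≠ 0 fixed by E, V(γ) = V(w)^g. V(φ x) = V(x): φ is in the decomposition group
(h.dec: V(y) ≤ 1 iff V(φ y) ≤ 1; so for the element y = φ x / x ... : V(φ x) = V(w)^i because x = w^i u with V(u) = 1, φ x = w^i φ u (φ w = w) and V(φ u) = 1: u and u⁻¹ have value ≤ 1, hence φ u and its inverse too). So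
i = n i + p g (V(w) < 1, V(w) ≠ 0: powers with different integer exponents are different), p divides (n - 1) i, and n ≠ 1 modulo p (h.n1), so i = p k. w is fixed by E (h.fw, h.le2): β1 = β * w^(-k) satisfies Kg a β1 (kg_scale) and
V(β1^p) = 1. Let Q = q^(p-1), m = (Q - 1) * (p - 1): m = 1 modulo p, since p divides Q (p divides q), so (Q - 1)(p - 1) = (-1)(-1) = 1 modulo p. y = β1^p has value 1 and is fixed by E; V(y^Q - y) < 1 (h.res), so V(y^(Q-1) - 1) < 1 and V(y^m - 1) < 1 (z = y^(Q-1) : V(z^(p-1) - 1) ≤ V(z - 1)). β' = β1^m (kg_pow):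
V(β'^p - 1) = V(y^m - 1) < 1 = V(w)^0, so it is ≤ V(w)^1 (val_succ; y^m - 1 is fixed by E). -/
theorem kg_unit (X : Frm F Ω) (h : X.Ok) (a : (Ω ≃ₐ[F] Ω) → ZMod X.p) (ha : X.Tw a) : X.Fl 0 a := by
  obtain ⟨β0, hβ0, hb⟩ := kummer_gen X h a ha
  obtain ⟨β, hβ⟩ := kummer_norm X h a ha hβ0 hb
  have hp := h.pr
  have hx0 : β ^ X.p ≠ 0 := pow_ne_zero _ hβ.ne
  obtain ⟨i, hi⟩ := h.val _ hx0 hβ.fx
  obtain ⟨γ, hγ0, hγE, hγ⟩ := kg_frob X h ha hβ
  obtain ⟨g, hg⟩ := h.val γ hγ0 hγE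
  have hw0 : 0 < X.V.valuation X.w := zero_lt_iff.2 ((map_ne_zero _).2 h.w0)
  have hwne : X.V.valuation X.w ≠ 0 := hw0.ne'
  -- value of φ x
  have hu : X.V.valuation (β ^ X.p * X.w ^ (-i)) = 1 := by
    rw [map_mul, map_zpow₀, hi, ← zpow_add₀ hwne, add_neg_cancel, zpow_zero]
  have hφu := k4_dec (h.dec X.φ h.phi) hu
  have hφw : X.φ X.w = X.w := h.fw X.φ h.phi
  have hφx : X.V.valuation (X.φ (β ^ X.p)) = X.V.valuation X.w ^ i := by
    rw [map_mul, map_zpow₀, hφw, map_mul, map_zpow₀, zpow_neg] at hφu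
    exact (mul_inv_eq_one₀ (zpow_ne_zero _ hwne)).1 hφu
  have hexp : X.V.valuation X.w ^ i = X.V.valuation X.w ^ ((X.n : ℤ) * i + (X.p : ℤ) * g) := by
    have e1 : X.V.valuation ((β ^ X.p) ^ X.n) = X.V.valuation X.w ^ ((X.n : ℤ) * i) := by
      rw [map_pow X.V.valuation (β ^ X.p) X.n, hi, ← zpow_natCast, ← zpow_mul, mul_comm i]
    have e2 : X.V.valuation (γ ^ X.p) = X.V.valuation X.w ^ ((X.p : ℤ) * g) := by
      rw [map_pow, hg, ← zpow_natCast, ← zpow_mul, mul_comm g]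
    rw [← hφx, hγ, map_mul, e1, e2, zpow_add₀ hwne]
  have heq : i = (X.n : ℤ) * i + (X.p : ℤ) * g := by
    rcases lt_trichotomy i ((X.n : ℤ) * i + (X.p : ℤ) * g) with h1 | h1 | h1
    · exact absurd hexp ((zpow_lt_zpow_iff_right_of_lt_one₀ hw0 h.w1).2 h1).ne'
    · exact h1
    · exact absurd hexp ((zpow_lt_zpow_iff_right_of_lt_one₀ hw0 h.w1).2 h1).ne
  have hpi : (X.p : ℤ) ∣ i := by
    have h1 : (X.p : ℤ) ∣ ((X.n : ℤ) - 1) * i := ⟨-g, by linear_combination -heq⟩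
    rcases (Nat.prime_iff_prime_int.1 hp).dvd_or_dvd h1 with h2 | h2
    · exfalso
      apply h.n1
      have h3 : (((X.n : ℤ) - 1 : ℤ) : ZMod X.p) = 0 := (ZMod.intCast_zmod_eq_zero_iff_dvd _ _).2 h2
      push_cast at h3
      exact sub_eq_zero.1 h3
    · exact h2
  obtain ⟨k, hk⟩ := hpi
  have hwk0 : X.w ^ (-k) ≠ 0 := zpow_ne_zero _ h.w0
  have hwkE : ∀ s ∈ X.E, s (X.w ^ (-k)) = X.w ^ (-k) := fun s hs => by rw [map_zpow₀, h.fw s (h.le2 hs)]
  have hK1 := kg_scale X h hβ hwk0 hwkE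
  set β1 := β * X.w ^ (-k) with hβ1
  set y := β1 ^ X.p with hy
  have hyV : X.V.valuation y = 1 := by
    rw [hy, hβ1, mul_pow, map_mul, hi, map_pow, map_zpow₀, ← zpow_natCast, ← zpow_mul, ← zpow_add₀ hwne, hk]
    have h1 : (X.p : ℤ) * k + -k * (X.p : ℤ) = 0 := by ring
    rw [h1, zpow_zero]
  have hyE : ∀ s ∈ X.E, s y = y := hK1.fx
  have hy0 : y ≠ 0 := by
    intro h0
    rw [h0, map_zero] at hyV
    exact zero_ne_one hyV
  set Q := X.q ^ (X.p - 1) with hQ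
  have hQ1 : 1 ≤ Q := Nat.one_le_pow _ _ (lt_trans Nat.zero_lt_one h.q0)
  have hres : X.V.valuation (y ^ Q - y) < 1 := h.res y hyV.le hyE
  have hz : X.V.valuation (y ^ (Q - 1) - 1) < 1 := by
    have h1 : y ^ Q - y = y * (y ^ (Q - 1) - 1) := by
      have h2 : y ^ Q = y * y ^ (Q - 1) := by rw [← pow_succ', Nat.sub_add_cancel hQ1]
      rw [h2]; ring
    rw [h1, map_mul, hyV, one_mul] at hres
    exact hres
  have hzV : X.V.valuation (y ^ (Q - 1)) ≤ 1 := by rw [map_pow, hyV, one_pow]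
  have hm : X.V.valuation (y ^ ((Q - 1) * (X.p - 1)) - 1) < 1 := by
    rw [pow_mul]
    exact lt_of_le_of_lt (z1_le X.V hzV _) hz
  have hmod : (((Q - 1) * (X.p - 1) : ℕ) : ZMod X.p) = 1 := by
    have h1 : ((Q : ℕ) : ZMod X.p) = 0 := by
      rw [ZMod.natCast_eq_zero_iff]
      exact dvd_pow h.qp (by have := h.odd; omega)
    rw [Nat.cast_mul, Nat.cast_sub hQ1, Nat.cast_sub hp.one_lt.le, h1, ZMod.natCast_self]
    ring
  refine ⟨ha, β1 ^ ((Q - 1) * (X.p - 1)), kg_pow X h hK1 _ hmod, ?_⟩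
  have h1 : (β1 ^ ((Q - 1) * (X.p - 1))) ^ X.p = y ^ ((Q - 1) * (X.p - 1)) := by
    rw [hy, ← pow_mul, ← pow_mul, mul_comm X.p]
  rw [h1]
  refine val_succ X h (fun s hs => ?_) (by rw [pow_zero]; exact hm)
  rw [map_sub, map_one, map_pow, hyE s hs]

end H19B
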