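import Mathlib
import Pool.Agent.Lib.H19B.K3
import Pool.Agent.Lib.H19B.P1

/-! # H19B, chunk K6 (M): the leading coefficient of a Kummer generator -/

namespace H19B

variable {F : Type} [Field F] {Ω : Type} [Field Ω] [Algebra F Ω]

theorem k6_nat (V : ValuationSubring Ω) (n : ℕ) : V.valuation (n : Ω) ≤ 1 :=
  (V.valuation_le_one_iff _).2 (natCast_mem V n)

theorem k6_pow (V : ValuationSubring Ω) {u : Ω} (hu : V.valuation u ≤ 1) (n : ℕ) :
    V.valuation ((1 + u) ^ n - 1 - n * u) ≤ V.valuation u ^ 2 := by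
  induction n with
  | zero => simp
  | succ n ih =>
    have e : (1 + u) ^ (n + 1) - 1 - ((n + 1 : ℕ) : Ω) * u = ((1 + u) ^ n - 1 - n * u) * (1 + u) + n * u ^ 2 := by
      push_cast
      ring
    rw [e]
    refine Valuation.map_add_le _ ?_ ?_
    · rw [map_mul]
      have h1 : V.valuation (1 + u) ≤ 1 := Valuation.map_add_le _ (by rw [map_one]) hu
      exact (mul_le_mul' ih h1).trans (by rw [mul_one])
    · rw [map_mul, map_pow]
      exact (mul_le_mul' (k6_nat V n) le_rfl).trans (by rw [one_mul])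

/-- Chunk K6 (M). PROOF. i > 0 as p does not divide i. x = β^p = 1 + λ w^i with V(λ) ≤ 1. kg_frob: φ x = x^n γ^p, γ ≠ 0 fixed by E. φ x = 1 + φ(λ) w^i (φ w = w), V(φ λ) ≤ 1, V(φ λ - λ^q) < 1 (h.fro). x^n = 1 + n λ w^i + (terms of value ≤ V(w)^(2i) < V(w)^i)
(for instance by induction on n: V(x^n - 1 - n λ w^i) < V(w)^i). So V(φ x - 1) ≤ V(w)^i, V(x^n - 1) ≤ V(w)^i, V(x^n) = 1, V(γ^p - 1) = V((φ x - x^n) / x^n) ≤ V(w)^i, hence V(γ^p - 1) < V(w)^i (pow_claim), V(φ x - x^n) < V(w)^i,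
V(φ(λ) - n λ) < 1, V(λ^q - n λ) < 1. -/
theorem lead_eq (X : Frm F Ω) (h : X.Ok) {a : (Ω ≃ₐ[F] Ω) → ZMod X.p} (ha : X.Tw a) {β : Ω} (hβ : X.Kg a β) {i : ℕ}
    (hi : ¬ X.p ∣ i) (hie : i * (X.p - 1) < X.e * X.p) (h1 : X.V.valuation (β ^ X.p - 1) ≤ X.V.valuation X.w ^ i) {l : Ω}
    (hl : β ^ X.p - 1 = l * X.w ^ i) : X.V.valuation l ≤ 1 ∧ X.V.valuation (l ^ X.q - X.n * l) < 1 := by
  have hW0 : X.V.valuation X.w ≠ 0 := (Valuation.ne_zero_iff _).2 h.w0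
  have hWi0 : X.V.valuation X.w ^ i ≠ 0 := pow_ne_zero _ hW0
  have hWip : 0 < X.V.valuation X.w ^ i := zero_lt_iff.2 hWi0
  have hi0 : i ≠ 0 := by
    rintro rfl
    exact hi (dvd_zero _)
  have hWi1 : X.V.valuation X.w ^ i < 1 := pow_lt_one₀ zero_le h.w1 hi0
  have hl1 : X.V.valuation l ≤ 1 := by
    rw [hl, map_mul, map_pow] at h1
    exact le_of_mul_le_mul_right (h1.trans (by rw [one_mul])) hWip
  refine ⟨hl1, ?_⟩
  obtain ⟨γ, g0, g1, g2⟩ := kg_frob X h ha hβ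
  have hx : β ^ X.p = 1 + l * X.w ^ i := by rw [← hl]; ring
  have hu : X.V.valuation (l * X.w ^ i) ≤ X.V.valuation X.w ^ i := by
    rw [← hl]
    exact h1
  have hu1 : X.V.valuation (l * X.w ^ i) < 1 := lt_of_le_of_lt hu hWi1
  have hφx : X.φ (β ^ X.p) = 1 + X.φ l * X.w ^ i := by
    rw [hx, map_add, map_one, map_mul, map_pow, h.fw X.φ h.phi]
  have hf : X.V.valuation (X.φ l - l ^ X.q) < 1 := h.fro l hl1
  have hφl : X.V.valuation (X.φ l) ≤ 1 := by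
    have e : X.φ l = (X.φ l - l ^ X.q) + l ^ X.q := by ring
    rw [e]
    refine Valuation.map_add_le _ hf.le ?_
    rw [map_pow]
    exact pow_le_one' hl1 _
  have hq : X.V.valuation ((1 + l * X.w ^ i) ^ X.n - 1 - X.n * (l * X.w ^ i)) < X.V.valuation X.w ^ i := by
    refine lt_of_le_of_lt (k6_pow X.V hu1.le X.n) ?_
    refine lt_of_le_of_lt (pow_le_pow_left₀ zero_le hu 2) ?_
    rw [pow_two]
    exact mul_lt_of_lt_one_left hWip hWi1
  have hn1 : X.V.valuation ((β ^ X.p) ^ X.n - 1) ≤ X.V.valuation X.w ^ i := by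
    have e : (β ^ X.p) ^ X.n - 1 = ((1 + l * X.w ^ i) ^ X.n - 1 - X.n * (l * X.w ^ i)) + X.n * (l * X.w ^ i) := by
      rw [hx]
      ring
    rw [e]
    refine Valuation.map_add_le _ hq.le ?_
    rw [map_mul]
    exact (mul_le_mul' (k6_nat X.V X.n) hu).trans (by rw [one_mul])
  have hn2 : X.V.valuation ((β ^ X.p) ^ X.n) = 1 := by
    have e : (β ^ X.p) ^ X.n = 1 + ((β ^ X.p) ^ X.n - 1) := by ring
    rw [e]
    exact Valuation.map_one_add_of_lt _ (lt_of_le_of_lt hn1 hWi1)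
  have hφ1 : X.V.valuation (X.φ (β ^ X.p) - 1) ≤ X.V.valuation X.w ^ i := by
    have e : X.φ (β ^ X.p) - 1 = X.φ l * X.w ^ i := by
      rw [hφx]
      ring
    rw [e, map_mul, map_pow]
    exact (mul_le_mul' hφl le_rfl).trans (by rw [one_mul])
  have hd : X.V.valuation (X.φ (β ^ X.p) - (β ^ X.p) ^ X.n) = X.V.valuation (γ ^ X.p - 1) := by
    have e : X.φ (β ^ X.p) - (β ^ X.p) ^ X.n = (β ^ X.p) ^ X.n * (γ ^ X.p - 1) := by
      rw [g2]
      ring
    rw [e, map_mul, hn2, one_mul]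
  have hd1 : X.V.valuation (γ ^ X.p - 1) ≤ X.V.valuation X.w ^ i := by
    rw [← hd]
    have e : X.φ (β ^ X.p) - (β ^ X.p) ^ X.n = (X.φ (β ^ X.p) - 1) - ((β ^ X.p) ^ X.n - 1) := by ring
    rw [e]
    exact (Valuation.map_sub _ _ _).trans (max_le hφ1 hn1)
  have hd2 : X.V.valuation (X.φ (β ^ X.p) - (β ^ X.p) ^ X.n) < X.V.valuation X.w ^ i := by
    rw [hd]
    exact pow_claim X h g1 hi hie hd1
  have hd3 : X.V.valuation ((X.φ l - X.n * l) * X.w ^ i) < X.V.valuation X.w ^ i := by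
    have e : (X.φ l - X.n * l) * X.w ^ i = (X.φ (β ^ X.p) - (β ^ X.p) ^ X.n)
        + ((1 + l * X.w ^ i) ^ X.n - 1 - X.n * (l * X.w ^ i)) := by
      rw [hφx, hx]
      ring
    rw [e]
    exact Valuation.map_add_lt _ hd2 hq
  have hd4 : X.V.valuation (X.φ l - X.n * l) < 1 := by
    rw [map_mul, map_pow] at hd3
    exact lt_of_mul_lt_mul_right (hd3.trans_le (by rw [one_mul])) hWip.le
  have e : l ^ X.q - X.n * l = (X.φ l - X.n * l) - (X.φ l - l ^ X.q) := by ring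
  rw [e]
  exact lt_of_le_of_lt (Valuation.map_sub _ _ _) (max_lt hd4 hf)

end H19B
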