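import Mathlib
import Pool.Agent.Lib.H19B.K4
import Pool.Agent.Lib.H19B.K6
import Pool.Agent.Lib.H19B.K7
import Pool.Agent.Lib.H19B.K8
import Pool.Agent.Lib.H19B.GA
import Pool.Agent.Lib.H19B.NC

/-! # H19B, chunk FS (M): the index of the unramified twisted characters -/

namespace H19B

open H55P (Dec Inert)

variable {F : Type} [Field F] {Ω : Type} [Field Ω] [Algebra F Ω]

theorem fs_one (X : Frm F Ω) {x : Ω} (hx : X.V.valuation (x - 1) < 1) : X.V.valuation x = 1 := by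
  have h1 := Valuation.map_one_add_of_lt X.V.valuation hx
  rwa [add_sub_cancel] at h1

theorem fs_lt (X : Frm F Ω) (h : X.Ok) (i : ℕ) : X.V.valuation X.w ^ (i + 1) < 1 :=
  pow_lt_one₀ zero_le h.w1 (Nat.succ_ne_zero i)

/-- Chunk FS (S). PROOF. Kg 0 1 (kg_one); kg_mul and β^p γ^p - 1 = (β^p - 1) γ^p + (γ^p - 1), V(γ^p) = 1 (V(γ^p - 1) < 1); kg_inv and β^(-p) - 1 = -(β^p - 1) / β^p. -/
theorem fl_zero (X : Frm F Ω) (h : X.Ok) (i : ℕ) : X.Fl i 0 := by
  refine ⟨X.TS.zero_mem, 1, kg_one X h, ?_⟩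
  rw [one_pow, sub_self, map_zero]
  exact zero_le

/-- Chunk FS (S). -/
theorem fl_add (X : Frm F Ω) (h : X.Ok) (i : ℕ) {a b : (Ω ≃ₐ[F] Ω) → ZMod X.p} (ha : X.Fl i a) (hb : X.Fl i b) : X.Fl i (a + b) := by
  obtain ⟨ta, β, hβ, hβ'⟩ := ha
  obtain ⟨tb, γ, hγ, hγ'⟩ := hb
  refine ⟨X.TS.add_mem ta tb, β * γ, kg_mul X h hβ hγ, ?_⟩
  have h1 : X.V.valuation (γ ^ X.p) = 1 := fs_one X (hγ'.trans_lt (fs_lt X h i))
  have e1 : (β * γ) ^ X.p - 1 = (β ^ X.p - 1) * γ ^ X.p + (γ ^ X.p - 1) := by ring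
  rw [e1]
  refine (Valuation.map_add _ _ _).trans (max_le ?_ hγ')
  rw [map_mul, h1, mul_one]
  exact hβ'

/-- Chunk FS (S). -/
theorem fl_neg (X : Frm F Ω) (h : X.Ok) (i : ℕ) {a : (Ω ≃ₐ[F] Ω) → ZMod X.p} (ha : X.Fl i a) : X.Fl i (-a) := by
  obtain ⟨ta, β, hβ, hβ'⟩ := ha
  refine ⟨X.TS.neg_mem ta, β⁻¹, kg_inv X h hβ, ?_⟩
  have h1 : X.V.valuation (β ^ X.p) = 1 := fs_one X (hβ'.trans_lt (fs_lt X h i))
  have h2 : β ^ X.p ≠ 0 := pow_ne_zero _ hβ.ne
  have e1 : (β⁻¹) ^ X.p - 1 = -((β ^ X.p - 1) * (β ^ X.p)⁻¹) := by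
    rw [inv_pow]
    field_simp
    ring
  rw [e1, Valuation.map_neg, map_mul, map_inv₀, h1, inv_one, mul_one]
  exact hβ'

/-- The filtration of the twisted characters. -/
def TF (X : Frm F Ω) (h : X.Ok) (i : ℕ) : AddSubgroup ((Ω ≃ₐ[F] Ω) → ZMod X.p) where
  carrier := {a | X.Fl i a}
  zero_mem' := fl_zero X h i
  add_mem' := fun ha hb => fl_add X h i ha hb
  neg_mem' := fun ha => fl_neg X h i ha

theorem mem_TF (X : Frm F Ω) (h : X.Ok) (i : ℕ) (a : (Ω ≃ₐ[F] Ω) → ZMod X.p) : a ∈ TF X h i ↔ X.Fl i a := Iff.rfl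

/-- Chunk FS (S). V(w) < 1. -/
theorem tf_anti (X : Frm F Ω) (h : X.Ok) : Antitone (TF X h) := by
  intro i j hij a ha
  obtain ⟨ta, β, hβ, hβ'⟩ := ha
  exact ⟨ta, β, hβ, hβ'.trans (pow_le_pow_of_le_one zero_le h.w1.le (by omega))⟩

/-- Chunk FS (S). kg_unit. -/
theorem tf_zero (X : Frm F Ω) (h : X.Ok) : TF X h 0 = X.TS := by
  ext a
  exact ⟨fun ha => ha.tw, fun ha => kg_unit X h a ha⟩

/-- Chunk FS (M). PROOF. If p divides i + 1: TF i = TF (i+1) (improve), the index is 1. Otherwise rel_le with k = the residue field of V (IsLocalRing.ResidueField X.V), f a = class of (β^p - 1) / w^(i+1) (an element of V) for a chosen generator β of a (Classical.choose; 0 if there is none),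
R = the roots of the polynomial T^q - n T (not zero, of degree q: q > 1; Polynomial.card_roots'); f a is a root by lead_eq (V(x) < 1 iff the residue class is 0: ValuationSubring.valuation_lt_one_iff / IsLocalRing.residue_eq_zero_iff). If f a = f b with generators β, γ: β γ⁻¹ is a generator of a - b (kg_mul, kg_inv)
and (β/γ)^p - 1 = (β^p - γ^p) / γ^p has value < V(w)^(i+1), fixed by E, so ≤ V(w)^(i+2) (val_succ). -/
theorem tf_step (X : Frm F Ω) (h : X.Ok) (i : ℕ) (hi : (i + 1) * (X.p - 1) < X.e * X.p) :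
    (TF X h (i + 1)).relIndex (TF X h i) ≠ 0 ∧ (TF X h (i + 1)).relIndex (TF X h i) ≤ if X.p ∣ i + 1 then 1 else X.q := by
  classical
  by_cases hp : X.p ∣ i + 1
  · rw [if_pos hp]
    have h1 : TF X h i ≤ TF X h (i + 1) := by
      intro a ha
      obtain ⟨ta, β, hβ, hβ'⟩ := ha
      obtain ⟨γ, hγ, hγ'⟩ := improve X h hβ (Nat.succ_pos i) hp hi hβ'
      exact ⟨ta, γ, hγ, hγ'⟩
    rw [AddSubgroup.relIndex_eq_one.2 h1]
    exact ⟨one_ne_zero, le_rfl⟩
  · rw [if_neg hp]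
    have hw : X.w ^ (i + 1) ≠ 0 := pow_ne_zero _ h.w0
    have hch : ∀ a : (Ω ≃ₐ[F] Ω) → ZMod X.p, ∃ (β : Ω) (l : X.V), a ∈ TF X h i →
        X.Kg a β ∧ X.V.valuation (β ^ X.p - 1) ≤ X.V.valuation X.w ^ (i + 1) ∧ β ^ X.p - 1 = l * X.w ^ (i + 1) ∧
          X.V.valuation ((l : Ω) ^ X.q - X.n * l) < 1 := by
      intro a
      by_cases ha : a ∈ TF X h i
      · obtain ⟨ta, β, hβ, hβ'⟩ := ha
        have hl : β ^ X.p - 1 = ((β ^ X.p - 1) / X.w ^ (i + 1)) * X.w ^ (i + 1) := (div_mul_cancel₀ _ hw).symm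
        obtain ⟨h1, h2⟩ := lead_eq X h ta hβ hp hi hβ' hl
        exact ⟨β, ⟨_, (ValuationSubring.valuation_le_one_iff _ _).1 h1⟩, fun _ => ⟨hβ, hβ', hl, h2⟩⟩
      · exact ⟨0, 0, fun h' => absurd h' ha⟩
    choose β l hβl using hch
    obtain ⟨P, hP⟩ : ∃ P : Polynomial (IsLocalRing.ResidueField X.V),
        P = Polynomial.X ^ X.q - Polynomial.C (X.n : IsLocalRing.ResidueField X.V) * Polynomial.X := ⟨_, rfl⟩
    have hPd : P.natDegree = X.q := by
      rw [hP]
      apply Polynomial.natDegree_eq_of_degree_eq_some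
      rw [Polynomial.degree_sub_eq_left_of_degree_lt]
      · exact Polynomial.degree_X_pow _
      · rw [Polynomial.degree_X_pow]
        refine (Polynomial.degree_C_mul_X_le _).trans_lt ?_
        exact_mod_cast h.q0
    have hP0 : P ≠ 0 := by
      intro h0
      rw [h0, Polynomial.natDegree_zero] at hPd
      have := h.q0
      omega
    have hres : ∀ x : X.V, X.V.valuation (x : Ω) < 1 → IsLocalRing.residue X.V x = 0 := fun x hx =>
      (IsLocalRing.residue_eq_zero_iff x).2 ((ValuationSubring.valuation_lt_one_iff _ x).2 hx)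
    have hres' : ∀ x : X.V, IsLocalRing.residue X.V x = 0 → X.V.valuation (x : Ω) < 1 := fun x hx =>
      (ValuationSubring.valuation_lt_one_iff _ x).1 ((IsLocalRing.residue_eq_zero_iff x).1 hx)
    have h1 := rel_le (TF X h (i + 1)) (TF X h i) (fun a => IsLocalRing.residue X.V (l a)) P.roots.toFinset
      (fun a ha => by
        obtain ⟨-, -, -, h2⟩ := hβl a ha
        rw [Multiset.mem_toFinset, Polynomial.mem_roots hP0, Polynomial.IsRoot.def, hP]
        rw [Polynomial.eval_sub, Polynomial.eval_pow, Polynomial.eval_X, Polynomial.eval_mul, Polynomial.eval_C,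
          Polynomial.eval_X]
        have h3 := hres ((l a) ^ X.q - X.n * l a) (by
          push_cast
          exact h2)
        rw [map_sub, map_pow, map_mul, map_natCast] at h3
        exact h3)
      (fun a ha b hb hab => by
        obtain ⟨ka, va, la, -⟩ := hβl a ha
        obtain ⟨kb, vb, lb, -⟩ := hβl b hb
        have h4 : IsLocalRing.residue X.V (l a - l b) = 0 := by
          rw [map_sub, sub_eq_zero]
          exact hab
        have h5 := hres' _ h4
        have h6 : X.V.valuation ((β b) ^ X.p) = 1 := fs_one X (vb.trans_lt (fs_lt X h i))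
        have h7 : (β b) ^ X.p ≠ 0 := pow_ne_zero _ kb.ne
        have hk := kg_mul X h ka (kg_inv X h kb)
        rw [← sub_eq_add_neg] at hk
        refine ⟨X.TS.sub_mem ha.tw hb.tw, _, hk, ?_⟩
        refine val_succ X h ?_ ?_
        · intro s hs
          rw [map_sub, map_one, hk.fx s hs]
        · have e1 : (β a * (β b)⁻¹) ^ X.p - 1 = (((l a - l b : X.V) : Ω) * X.w ^ (i + 1)) * ((β b) ^ X.p)⁻¹ := by
            have e2 : (β a) ^ X.p - (β b) ^ X.p = ((l a - l b : X.V) : Ω) * X.w ^ (i + 1) := by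
              push_cast
              linear_combination la - lb
            rw [← e2, mul_pow, inv_pow]
            field_simp
          rw [e1, map_mul, map_inv₀, h6, inv_one, mul_one, map_mul, map_pow]
          have h8 : X.V.valuation X.w ^ (i + 1) ≠ 0 := pow_ne_zero _ ((Valuation.ne_zero_iff _).2 h.w0)
          exact mul_lt_of_lt_one_left (zero_lt_iff.2 h8) h5)
    refine ⟨h1.1, h1.2.trans ?_⟩
    refine (Multiset.toFinset_card_le _).trans ?_
    rw [← hPd]
    exact Polynomial.card_roots' P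

/-- Chunk FS (M). PROOF. k = the largest integer with k (p-1) < e p (k = (e p - 1) / (p - 1)). For i < k: (i+1)(p-1) < e p, tf_step. rel_chain and prod_count: (TF k).relIndex (TF 0) ≤ q^e, not 0. TF k ≤ TI: a in TF k has a generator with V(β^p - 1) ≤ V(w)^(k+1), (k+1)(p-1) ≥ e p, kg_inert.
So TI.relIndex TS ≤ (TF k).relIndex TS, not 0 (AddSubgroup.relIndex_dvd_of_le_left, relIndex_ne_zero...), tf_zero. -/
theorem ti_index (X : Frm F Ω) (h : X.Ok) : X.TI.relIndex X.TS ≠ 0 ∧ X.TI.relIndex X.TS ≤ X.q ^ X.e := by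
  have hp2 := h.odd
  have he := h.e0
  have hep : 0 < X.e * X.p := Nat.mul_pos he (by omega)
  obtain ⟨k, hk⟩ : ∃ k : ℕ, k = (X.e * X.p - 1) / (X.p - 1) := ⟨_, rfl⟩
  have hk1 : k * (X.p - 1) < X.e * X.p := by
    have h1 := Nat.div_mul_le_self (X.e * X.p - 1) (X.p - 1)
    rw [← hk] at h1
    omega
  have hk2 : X.e * X.p ≤ (k + 1) * (X.p - 1) := by
    have h1 := Nat.lt_mul_div_succ (X.e * X.p - 1) (show 0 < X.p - 1 by omega)
    rw [← hk, mul_comm (X.p - 1)] at h1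
    omega
  have h1 := rel_chain (TF X h) (tf_anti X h) (fun i => if X.p ∣ i + 1 then 1 else X.q) k (fun i hi =>
    tf_step X h i ((Nat.mul_le_mul_right _ (Nat.succ_le_of_lt hi)).trans_lt hk1))
  rw [tf_zero X h, prod_count hp2 he hk1 hk2] at h1
  have h2 : TF X h k ≤ X.TI := by
    intro a ha
    obtain ⟨ta, β, hβ, hβ'⟩ := ha
    exact ⟨ta, fun t ht hi => kg_inert X h hβ hk2 hβ' t ht hi⟩
  have h3 : X.TI.relIndex X.TS ∣ (TF X h k).relIndex X.TS := AddSubgroup.relIndex_dvd_of_le_left X.TS h2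
  exact ⟨fun h0 => h1.1 (Nat.eq_zero_of_zero_dvd (h0 ▸ h3)), (Nat.le_of_dvd (Nat.pos_of_ne_zero h1.1) h3).trans h1.2⟩

end H19B
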