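import Mathlib
import Pool.Agent.Lib.H19B.GA

/-! # H19B, chunk GC (M): counting with a filtration and a subgroup (ONLY MATHLIB) -/

namespace H19B

theorem gc_aux {M : Type} [AddCommGroup M] (A : ℕ → AddSubgroup M) (hA : Antitone A) {q : ℕ}
    (h : ∀ i, (A (i + 1)).relIndex (A i) = q) (K : AddSubgroup M) (hK0 : K ≤ A 0) (hKf : K.relIndex (A 0) ≠ 0)
    (g : ℕ → Prop) [DecidablePred g] (k : ℕ) (hK : ∀ i < k, g i → ∀ x ∈ K, x ∈ A i → x ∈ A (i + 1)) :
    ∏ i ∈ Finset.range k, (if g i then q else 1) ≤ (K ⊔ A k).relIndex (A 0) := by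
  induction k with
  | zero =>
    rw [sup_eq_right.2 hK0, AddSubgroup.relIndex_self]
    simp
  | succ k ih =>
    have h1 := ih fun i hi => hK i (Nat.lt_succ_of_lt hi)
    have hle : K ⊔ A (k + 1) ≤ K ⊔ A k := sup_le_sup_left (hA (Nat.le_succ k)) K
    have hle0 : K ⊔ A k ≤ A 0 := sup_le hK0 (hA (Nat.zero_le k))
    have hmul := AddSubgroup.relIndex_mul_relIndex (K ⊔ A (k + 1)) (K ⊔ A k) (A 0) hle hle0
    have hne : (K ⊔ A (k + 1)).relIndex (A 0) ≠ 0 := by
      intro h0
      exact hKf (AddSubgroup.relIndex_eq_zero_of_le_left le_sup_left h0)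
    have hne2 : (K ⊔ A (k + 1)).relIndex (K ⊔ A k) ≠ 0 := by
      intro h0
      rw [h0, zero_mul] at hmul
      exact hne hmul.symm
    rw [Finset.prod_range_succ, ← hmul, mul_comm]
    refine Nat.mul_le_mul ?_ h1
    by_cases hg : g k
    · rw [if_pos hg, ← h k]
      refine (rel_map (A (k + 1)) (A k) (K ⊔ A (k + 1)) (K ⊔ A k) id
        (fun b hb => AddSubgroup.mem_sup_right hb) ?_ hne2).2
      intro b hb b' hb' hbb
      obtain ⟨x, hx, y, hy, hxy⟩ := AddSubgroup.mem_sup.1 hbb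
      have hxy' : x + y = b - b' := hxy
      have hyk : y ∈ A k := hA (Nat.le_succ k) hy
      have hxe : x = (b - b') - y := by rw [← hxy']; abel
      have hxk : x ∈ A k := by
        rw [hxe]
        exact AddSubgroup.sub_mem _ (AddSubgroup.sub_mem _ hb hb') hyk
      have hx1 := hK k (Nat.lt_succ_self k) hg x hx hxk
      rw [← hxy']
      exact AddSubgroup.add_mem _ hx1 hy
    · rw [if_neg hg]
      exact Nat.one_le_iff_ne_zero.2 hne2

/-- Chunk GC (M). PROOF. Replace K by K ⊓ A 0 (AddSubgroup.inf_relIndex_right). B i = K ⊔ A i (for K ≤ A 0), decreasing, B 0 = A 0, K ≤ B k. Induction on k: the product over i < k is ≤ (B k).relIndex (B 0), which is not 0 since K ≤ B k and K.relIndex (A 0) ≠ 0. Step: (B (k+1)).relIndex (B 0) =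
(B (k+1)).relIndex (B k) * (B k).relIndex (B 0) (AddSubgroup.relIndex_mul_relIndex), and (B (k+1)).relIndex (B k) ≥ 1, and ≥ q if g k: rel_ge with q representatives r of A k / A (k+1) (or rel_map: A (k+1) ≤ A k, the map A k -> B k: for a, b in A k with a - b in B (k+1): a - b = x + y, x in K, y in A (k+1) ≤ A k, so x = (a - b) - y is in
K and in A k, hence in A (k+1) by hK, and a - b in A (k+1); so (A (k+1)).relIndex (A k) ≤ (B (k+1)).relIndex (B k)). Finally (B k).relIndex (B 0) ≤ K.relIndex (A 0). -/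
theorem count_filt {M : Type} [AddCommGroup M] (A : ℕ → AddSubgroup M) (hA : Antitone A) {q : ℕ} (hq : 0 < q)
    (h : ∀ i, (A (i + 1)).relIndex (A i) = q) (K : AddSubgroup M) (hKf : K.relIndex (A 0) ≠ 0) (g : ℕ → Prop) [DecidablePred g] (k : ℕ)
    (hK : ∀ i < k, g i → ∀ x ∈ K, x ∈ A i → x ∈ A (i + 1)) :
    ∏ i ∈ Finset.range k, (if g i then q else 1) ≤ K.relIndex (A 0) := by
  have _ := hq
  have h1 := gc_aux A hA h (K ⊓ A 0) inf_le_right (by rw [AddSubgroup.inf_relIndex_right]; exact hKf) g k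
    (fun i hi hg x hx hxi => hK i hi hg x hx.1 hxi)
  refine h1.trans ?_
  rw [← AddSubgroup.inf_relIndex_right K (A 0)]
  refine AddSubgroup.relIndex_le_of_le_left le_sup_left ?_
  rw [AddSubgroup.inf_relIndex_right]
  exact hKf

end H19B
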