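import Mathlib
import Pool.Agent.Lib.H19B.D2
import Pool.Agent.Lib.H19B.F6
import Pool.Agent.Lib.H19B.FS
import Pool.Agent.Lib.H19B.GB
import Pool.Agent.Lib.H19B.C1
import Pool.Agent.Lib.H19B.C6
import Pool.Agent.Lib.H19B.NC
import Pool.Agent.Lib.H19B.GC
import Pool.Agent.Lib.H19B.E1
import Pool.Agent.Lib.H19B.E2
import Pool.Agent.Lib.H19B.C4

/-! # H19B, chunk C5 (M): the local lemma -/

open NumberField IsDedekindDomain WeierstrassCurve

namespace H19B

open H55P (IQ Pt ac Dec Inert decS Nm)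
open H35P (WAB Ker tt)
open H55K (Tor CMA Dta GV ak cj)

variable {F : Type} [Field F] [NumberField F] [IQ F] {A B : F} {Om : ℂ} {Ω : Type} [Field Ω] [DecidableEq Ω]
  [Algebra F Ω] [IsAlgClosure F Ω] {j : Ω →+* ℂ} {act : 𝓞 F →+* AddMonoid.End (Pt (WAB A B) Ω)} {mo : Ideal (𝓞 F)}
  {ψ : Ideal (𝓞 F) →*₀ 𝓞 F} {p : ℕ} {V : ValuationSubring Ω} {π : 𝓞 F}

/-- Chunk C5 (M). THE LOCAL LEMMA. PROOF. exists_frm: X (rcases p, V); T₀ from exists_T0. ti_index: TI.relIndex TS ≤ q^e, not 0. rel_map with A = CI, B = CS, A' = TI, B' = TS, g = ach X T₀ (ach_tw; if ach c - ach c' in TI then they agree on the inertia elements of C, ach_inert): CI.relIndex CS ≤ q^e, not 0.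
surj_index with E = EF hG (DN N V) w _ 0, g P = (fun s => s Q - Q), Q chosen with act π Q = P (CMA.surj; Classical.choose): kum_cc, kum_add; m = q^e; hE: for K with K ≤ EF 0 and g P in CI for P in K, K.relIndex (EF 0) ≠ 0: count_filt with A = EF, g i = (p does not divide i + 1), k = the largest integer with k (p-1) < e p
(k = (e p - 1) / (p - 1)), hK by kum_step (V(π) = V(p) = V(w)^e because V(cj π) = 1; hval = the last property in exists_frm); prod_count (the two products agree: if p divides i + 1 then 1 else q).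
ef_index, ef_anti. So for c in CS there is P with c - g P in CI: T with c s = (s Q - Q) + (s T - T) on inertia; the point is Q + T. -/
theorem loc_pi (dta : Dta A B Om j act mo ψ p) (hπ : Prime π) (hd : π ∣ (p : 𝓞 F)) (hs : ¬ π ∣ cj π)
    (hV : V.valuation (ak Ω π) < 1) (N : IntermediateField F Ω) [NumberField N]
    (h0 : ∀ T : Pt (WAB A B) Ω, act (cj π) T = 0 → (∀ s ∈ DN N V, ac (WAB A B) s T = T) → T = 0) {c : (Ω ≃ₐ[F] Ω) → Pt (WAB A B) Ω}
    (hc : Cc (DN N V) act π c) : ∃ P : Pt (WAB A B) Ω, ∀ s ∈ DN N V, Inert V s → c s = ac (WAB A B) s P - P := by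
  classical
  obtain ⟨X, hXp, hXV, hX, hvalI⟩ := exists_frm dta hπ hd hs hV N h0
  subst hXp
  subst hXV
  have hfin : FiniteDimensional F N := Module.Finite.of_restrictScalars_finite ℚ F N
  have hok := hX.ok
  have hD := hX.D
  obtain ⟨T₀, t0, t1, t2, t3⟩ := exists_T0 (Ω := Ω) dta.cma dta.prime dta.unr hπ hd hs
  obtain ⟨hpc, u, v, huv⟩ := tors_split (Ω := Ω) dta.cma dta.prime dta.unr hπ hd hs
  have hb : X.V.valuation (ak Ω (cj π)) = 1 := by
    refine le_antisymm (H55K.ak_le X.V _) (not_lt.1 fun hlt => ?_)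
    have h1 : X.V.valuation (ak Ω (u * π + v * cj π)) < 1 := by
      have e1 : ak Ω (u * π + v * cj π) = ak Ω u * ak Ω π + ak Ω v * ak Ω (cj π) := by
        simp [ak]
      rw [e1]
      refine X.V.valuation.map_add_lt ?_ ?_
      · rw [map_mul]
        exact (mul_le_of_le_one_left' (H55K.ak_le X.V u)).trans_lt hV
      · rw [map_mul]
        exact (mul_le_of_le_one_left' (H55K.ak_le X.V v)).trans_lt hlt
    rw [huv] at h1
    have e2 : ak Ω (1 : 𝓞 F) = 1 := by simp [ak]
    rw [e2, map_one] at h1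
    exact lt_irrefl _ h1
  have hVe : X.V.valuation (ak Ω π) = X.V.valuation X.w ^ X.e := by
    have e3 : (X.p : Ω) = ak Ω π * ak Ω (cj π) := by
      have e4 : ak Ω (π * cj π) = ak Ω π * ak Ω (cj π) := by simp [ak]
      rw [← e4, hpc]
      simp [ak]
    rw [← hok.ep, e3, map_mul, hb, mul_one]
  have hVp : X.V.valuation (X.p : Ω) < 1 := by
    rw [hok.ep, ← hVe]
    exact hV
  have hG : GV A B X.V := dta.good X.V hVp
  have hval : ∀ y : Ω, y ≠ 0 → (∀ s ∈ DN N X.V, s y = y) → ∃ i : ℤ, X.V.valuation y = X.V.valuation X.w ^ i := by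
    intro y hy hys
    exact hok.val y hy fun s hs' => hys s (by rw [← hD]; exact hok.le2 hs')
  obtain ⟨hti0, hti1⟩ := ti_index X hok
  -- the index of CI in CS
  have hrm := rel_map (CI (DN N X.V) X.V act π) (CS (DN N X.V) act π) X.TI X.TS (ach X T₀)
    (fun b hbm => by
      have hb' : Cc X.D act π b := by rw [hD]; exact hbm
      exact ach_tw hX t0 t1 t2 t3 hb')
    (fun b hbm b' hbm' hbb => by
      have h1 : Cc X.D act π b := by rw [hD]; exact hbm
      have h2 : Cc X.D act π b' := by rw [hD]; exact hbm'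
      have h3 := ach_inert dta.cma hX hG hd hb t0 t1 t2 h1 h2 (fun t ht hi => by
        have h4 := hbb.2 t ht hi
        rw [Pi.sub_apply] at h4
        exact sub_eq_zero.1 h4)
      rw [hD] at h3
      exact h3) hti0
  have hch : ∀ P : Pt (WAB A B) Ω, ∃ Q, act π Q = P := dta.cma.surj π hπ.ne_zero
  choose Qf hQf using hch
  have hAB : CI (DN N X.V) X.V act π ≤ CS (DN N X.V) act π := fun b hbm => hbm.1
  obtain ⟨P, hP, hPc⟩ := surj_index (EF hG (DN N X.V) X.w hok.w1 0) (CI (DN N X.V) X.V act π) (CS (DN N X.V) act π) hAB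
    (fun P => fun s => ac (WAB A B) s (Qf P) - Qf P)
    (fun P hP => kum_cc dta.cma (DN N X.V) (Qf P) (fun s hs' => by rw [hQf]; exact hP.2.1 s hs'))
    (fun P hP P' hP' => kum_add dta.cma (DN N X.V) X.V (Qf P) (Qf P') (Qf (P - P'))
      (fun s hs' => by rw [hQf]; exact hP.2.1 s hs') (fun s hs' => by rw [hQf]; exact hP'.2.1 s hs')
      (by rw [hQf, hQf, hQf]))
    (m := X.q ^ X.e) hrm.1 (hrm.2.trans hti1)
    (fun K hK hK0 => by
      have hep : 0 < X.e * X.p := Nat.mul_pos hok.e0 hok.pr.pos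
      have hp1 : 0 < X.p - 1 := by have := hok.odd; omega
      obtain ⟨k, hk⟩ : ∃ k, k = (X.e * X.p - 1) / (X.p - 1) := ⟨_, rfl⟩
      have hk1 : k * (X.p - 1) < X.e * X.p := by
        have h := Nat.div_mul_le_self (X.e * X.p - 1) (X.p - 1)
        rw [← hk] at h
        omega
      have hk2 : X.e * X.p ≤ (k + 1) * (X.p - 1) := by
        have h := Nat.lt_mul_div_succ (X.e * X.p - 1) hp1
        rw [← hk, Nat.mul_comm (X.p - 1) (k + 1)] at h
        omega
      have hcf := count_filt (fun i => EF hG (DN N X.V) X.w hok.w1 i) (ef_anti hG (DN N X.V) hok.w1) (q := X.q) (by have := hok.q0; omega)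
        (fun i => ef_index dta.cma hG hok.w0 hok.w1 hX.wN (by have := hok.q0; omega) (by
          obtain ⟨r, hr1, hr2, hr3⟩ := hX.rs
          exact ⟨r, hr1, hr2, fun x hx hx1 => hr3 x (fun s hs' => hx s (by rw [← hD]; exact hs')) hx1⟩) hval i)
        K hK0 (fun i => ¬ X.p ∣ i + 1) k (fun i hi hpi x hxK hx => by
          obtain ⟨-, h2⟩ := hK x hxK
          have hie : (i + 1) * (X.p - 1) < X.e * X.p := lt_of_le_of_lt (Nat.mul_le_mul_right _ hi) hk1
          have h3 := kum_step dta hG hπ hd hs hV hok.w0 hok.w1 hVe hvalI hpi hie (Q := Qf x) (by rw [hQf]; exact hx) h2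
          rw [hQf] at h3
          exact h3)
      rw [← prod_count (q := X.q) hok.odd hok.e0 hk1 hk2]
      refine le_trans (le_of_eq (Finset.prod_congr rfl fun i _ => ?_)) hcf
      by_cases hpi : X.p ∣ i + 1
      · rw [if_pos hpi, if_neg (not_not.2 hpi)]
      · rw [if_neg hpi, if_pos hpi])
    c hc
  obtain ⟨-, T, -, hT⟩ := hPc
  refine ⟨Qf P + T, fun s hs' hi => ?_⟩
  have h1 := hT s hs' hi
  rw [Pi.sub_apply] at h1
  rw [map_add, ← sub_add_cancel (c s) (ac (WAB A B) s (Qf P) - Qf P), h1]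
  abel

end H19B
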