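import Mathlib
import Pool.Agent.Lib.H19B.D2
import Pool.Agent.Lib.H13X.XE
import Pool.Agent.Lib.H55P.S1

/-! # H19B, chunk L1 (M): the étale component -/

open NumberField IsDedekindDomain WeierstrassCurve

namespace H19B

open H55P (IQ Pt ac Dec Inert decS Nm Coc)
open H35P (WAB Ker tt)
open H55K (Tor CMA Dta GV ak cj)

variable {F : Type} [Field F] [NumberField F] [IQ F] {A B : F} {Om : ℂ} {Ω : Type} [Field Ω] [DecidableEq Ω]
  [Algebra F Ω] [IsAlgClosure F Ω] {j : Ω →+* ℂ} {act : 𝓞 F →+* AddMonoid.End (Pt (WAB A B) Ω)} {mo : Ideal (𝓞 F)}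
  {ψ : Ideal (𝓞 F) →*₀ 𝓞 F} {p : ℕ} {V : ValuationSubring Ω} {π : 𝓞 F}

/-- Chunk L1 (M). PROOF. GV A B V: dta.good (V(p) < 1 as π divides p). V(cj π) = 1: hypothesis hb. (1) For s in K.fixingSubgroup, Inert V s: c s = s P - P is killed by cj π and Ker V (s P - P) (H55K.S.kr_inert), so c s = 0 (H55K.tor_unit). (2) t in N.fixingSubgroup, Inert V t, s in DN N V. Inertia acts trivially on the points
killed by cj π (H13X.inert_tors). u = s t s⁻¹ t⁻¹ is in K.fixingSubgroup (hab), Inert V u (H55P.inS_dec for s in decS, and inS F V is a subgroup), so c u = 0. c (s t s⁻¹) = c (u t) = c u + u (c t) = c t. Also c (s t s⁻¹) = c s + s (c t) + s (t (c s⁻¹)) = c s + s (c t) + s (c s⁻¹) (t acts trivially) =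
s (c t) + c 1 = s (c t) (c (s s⁻¹) = c s + s (c s⁻¹), c 1 = 0). So s (c t) = c t for all s in DN N V and c t is killed by cj π: c t = 0 (h0). -/
theorem loc_bar (dta : Dta A B Om j act mo ψ p) (hd : π ∣ (p : 𝓞 F)) (hV : V.valuation (ak Ω π) < 1)
    (hb : V.valuation (ak Ω (cj π)) = 1) (N K : IntermediateField F Ω)
    (hab : ∀ s ∈ N.fixingSubgroup, ∀ t ∈ N.fixingSubgroup, s * t * s⁻¹ * t⁻¹ ∈ K.fixingSubgroup)
    (h0 : ∀ T : Pt (WAB A B) Ω, act (cj π) T = 0 → (∀ s ∈ DN N V, ac (WAB A B) s T = T) → T = 0) {c : (Ω ≃ₐ[F] Ω) → Pt (WAB A B) Ω}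
    (hc : Coc (WAB A B) N c) (ht : ∀ s ∈ N.fixingSubgroup, act (cj π) (c s) = 0)
    (hK : ∃ P : Pt (WAB A B) Ω, ∀ s ∈ K.fixingSubgroup, Inert V s → c s = ac (WAB A B) s P - P)
    (t : Ω ≃ₐ[F] Ω) (htN : t ∈ N.fixingSubgroup) (hi : Inert V t) : c t = 0 := by
  have hp : V.valuation (p : Ω) < 1 := by
    obtain ⟨d, hd⟩ := hd
    have h1 : (p : Ω) = ak Ω π * ak Ω d := by
      have h2 : ak Ω (p : 𝓞 F) = (p : Ω) := by
        unfold ak
        simp
      rw [← h2, hd]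
      unfold ak
      simp
    rw [h1, map_mul]
    exact (mul_le_of_le_one_right' (H55K.ak_le V d)).trans_lt hV
  have hG : GV A B V := dta.good V hp
  have hA := dta.cma
  have hK' : ∀ s ∈ K.fixingSubgroup, s ∈ N.fixingSubgroup → Inert V s → c s = 0 := by
    intro s hs hsN hsi
    obtain ⟨P, hP⟩ := hK
    have h1 := H55K.S.kr_inert hG s hsi P
    rw [← hP s hs hsi] at h1
    exact H55K.tor_unit hA hG hb (ht s hsN) h1
  have hc1 : c 1 = 0 := by
    have h1 := hc.mul 1 (one_mem _) 1 (one_mem _)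
    rw [mul_one, H55K.ac_one] at h1
    exact left_eq_add.1 h1
  refine h0 (c t) (ht t htN) fun s hs => ?_
  obtain ⟨hsN, hsD⟩ := mem_DN.1 hs
  have hsN' : s⁻¹ ∈ N.fixingSubgroup := inv_mem hsN
  have htI : t ∈ H55P.inS F V := hi
  have h1 : s * t * s⁻¹ ∈ H55P.inS F V := H55P.inS_dec V s hsD t htI
  have h2 : s * t * s⁻¹ * t⁻¹ ∈ H55P.inS F V := mul_mem h1 (inv_mem htI)
  have h3 : s * t * s⁻¹ * t⁻¹ ∈ N.fixingSubgroup := mul_mem (mul_mem (mul_mem hsN htN) hsN') (inv_mem htN)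
  have h4 := hK' _ (hab s hsN t htN) h3 h2
  have h5 : s * t * s⁻¹ = (s * t * s⁻¹ * t⁻¹) * t := by group
  have h6 : c (s * t * s⁻¹) = c t := by
    rw [h5, hc.mul _ h3 t htN, h4, zero_add]
    exact H13X.inert_tors hA hG hb h2 (ht t htN)
  have h7 : c (s * t * s⁻¹) = ac (WAB A B) s (c t) := by
    have h8 : ac (WAB A B) t (c s⁻¹) = c s⁻¹ := H13X.inert_tors hA hG hb hi (ht _ hsN')
    have h9 := hc.mul s hsN s⁻¹ hsN'
    rw [mul_inv_cancel, hc1] at h9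
    rw [hc.mul _ (mul_mem hsN htN) _ hsN', hc.mul s hsN t htN, H55K.ac_mul, h8, add_right_comm, ← h9, zero_add]
  rw [← h7, h6]

end H19B
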