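import Mathlib
import Pool.Agent.Lib.H19B.D2
import Pool.Agent.Lib.H19B.C5
import Pool.Agent.Lib.H19B.L1
import Pool.Agent.Lib.H19B.ST3
import Pool.Agent.Lib.H19B.F3

/-! # H19B, chunk L2 (M): the local alternative for the short equation -/

open NumberField IsDedekindDomain WeierstrassCurve

namespace H19B

open H55P (IQ Pt ac Dec Inert decS Nm Coc)
open H35P (WAB Ker tt)
open H55K (Tor CMA Dta GV ak cj)

variable {F : Type} [Field F] [NumberField F] [IQ F] {A B : F} {Om : ℂ} {Ω : Type} [Field Ω] [DecidableEq Ω]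
  [Algebra F Ω] [IsAlgClosure F Ω] {j : Ω →+* ℂ} {act : 𝓞 F →+* AddMonoid.End (Pt (WAB A B) Ω)} {mo : Ideal (𝓞 F)}
  {ψ : Ideal (𝓞 F) →*₀ 𝓞 F} {p : ℕ} {V : ValuationSubring Ω} {π : 𝓞 F}

omit [DecidableEq Ω] [IsAlgClosure F Ω] in
theorem l2_unit (hV : V.valuation (ak Ω π) < 1) {u v : 𝓞 F} (huv : u * π + v * cj π = 1) :
    V.valuation (ak Ω (cj π)) = 1 := by
  refine le_antisymm (H55K.ak_le V _) (not_lt.1 fun hlt => ?_)
  have h1 : (1 : Ω) = ak Ω u * ak Ω π + ak Ω v * ak Ω (cj π) := by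
    have h2 : ak Ω (u * π + v * cj π) = 1 := by
      rw [huv]
      simp
    rw [← h2]
    unfold ak
    simp
  have h3 : V.valuation (1 : Ω) < 1 := by
    rw [h1]
    refine V.valuation.map_add_lt ?_ ?_
    · rw [map_mul]
      exact (mul_le_of_le_one_left' (H55K.ak_le V u)).trans_lt hV
    · rw [map_mul]
      exact (mul_le_of_le_one_left' (H55K.ak_le V v)).trans_lt hlt
  rw [map_one] at h3
  exact lt_irrefl _ h3

/-- Chunk L2 (M). PROOF. Unfold Alt. tors_split: π * cj π = p, u π + v cj π = 1. V(cj π) = 1: V(cj π) ≤ 1 (H55K.ak_le) and if < 1 then V(1) < 1. c1 s = act (v * cj π) (c s): killed by π (act (π * cj π) = act p = p •), a cocycle (CMA.gal), continuous: Cc (DN N V) act π c1; loc_pi gives P1. c2 s = act (u * π) (c s): killed by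
cj π, Coc (WAB A B) N c2, and on the inertia elements of K it is the coboundary of act (u * π) P; loc_bar: c2 t = 0 for t in N.fixingSubgroup, Inert V t. c = c1 + c2, and for inert t fixing N, t in DN N V (H55P.inert_dec): c t = t P1 - P1. -/
theorem alt_wab (dta : Dta A B Om j act mo ψ p) (hπ : Prime π) (hd : π ∣ (p : 𝓞 F)) (hs : ¬ π ∣ cj π)
    (hV : V.valuation (ak Ω π) < 1) (N K : IntermediateField F Ω) [NumberField N]
    (h0 : ∀ T : Pt (WAB A B) Ω, act (cj π) T = 0 → (∀ s ∈ DN N V, ac (WAB A B) s T = T) → T = 0) :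
    Alt (WAB A B) p N K V := by
  obtain ⟨hπp, u, v, huv⟩ := tors_split dta.cma dta.prime dta.unr hπ hd hs
  have hb : V.valuation (ak Ω (cj π)) = 1 := l2_unit hV huv
  have hmul : ∀ (a b : 𝓞 F) (P : Pt (WAB A B) Ω), act (a * b) P = act a (act b P) := fun a b P => H55K.S.act_mul a b P
  have hpP : ∀ P : Pt (WAB A B) Ω, act (p : 𝓞 F) P = p • P := fun P => H55K.S.act_nat p P
  intro hab c hc hpc hK
  obtain ⟨Lc, hLc, hcont⟩ := hc.cont
  have hcc : Cc (DN N V) act π (fun s => act (v * cj π) (c s)) := by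
    refine ⟨fun s hs t ht => ?_, fun s hs => ?_, Lc, hLc, fun s hs hsL => ?_⟩
    · show act (v * cj π) (c (s * t)) = act (v * cj π) (c s) + ac (WAB A B) s (act (v * cj π) (c t))
      rw [hc.mul s hs.1 t ht.1, map_add, dta.cma.gal]
    · show act π (act (v * cj π) (c s)) = 0
      rw [← hmul]
      have e : π * (v * cj π) = v * (p : 𝓞 F) := by
        rw [← hπp]
        ring
      rw [e, hmul, hpP, hpc s hs.1, map_zero]
    · show act (v * cj π) (c s) = 0
      rw [hcont s hs.1 hsL, map_zero]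
  obtain ⟨P₁, hP₁⟩ := loc_pi dta hπ hd hs hV N h0 hcc
  obtain ⟨P, hP⟩ := hK
  have hc2 : Coc (WAB A B) N (fun s => act (u * π) (c s)) := by
    refine ⟨fun s hs t ht => ?_, Lc, hLc, fun s hs hsL => ?_⟩
    · show act (u * π) (c (s * t)) = act (u * π) (c s) + ac (WAB A B) s (act (u * π) (c t))
      rw [hc.mul s hs t ht, map_add, dta.cma.gal]
    · show act (u * π) (c s) = 0
      rw [hcont s hs hsL, map_zero]
  have hz : ∀ t ∈ N.fixingSubgroup, Inert V t → act (u * π) (c t) = 0 := by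
    intro t ht hi
    refine loc_bar dta hd hV hb N K hab h0 hc2 (fun s hs => ?_) ⟨act (u * π) P, fun s hs hi => ?_⟩ t ht hi
    · show act (cj π) (act (u * π) (c s)) = 0
      rw [← hmul]
      have e : cj π * (u * π) = u * (p : 𝓞 F) := by
        rw [← hπp]
        ring
      rw [e, hmul, hpP, hpc s hs, map_zero]
    · show act (u * π) (c s) = _
      rw [hP s hs hi, map_sub, dta.cma.gal]
  refine ⟨P₁, fun s hs hi => ?_⟩
  have h1 : c s = act (u * π) (c s) + act (v * cj π) (c s) := by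
    rw [← H55K.S.act_add, huv, H55K.S.act_one]
  rw [h1, hz s hs hi, zero_add]
  exact hP₁ s ⟨hs, H55P.inert_dec V s hi⟩ hi

omit [NumberField F] [IQ F] [IsAlgClosure F Ω] in
/-- Chunk L2 (S). Transport of the alternative under an equivariant isomorphism. -/
theorem alt_iso {W₁ W₂ : WeierstrassCurve F} (Θ : Pt W₁ Ω ≃+ Pt W₂ Ω)
    (hΘ : ∀ (s : Ω ≃ₐ[F] Ω) (P : Pt W₁ Ω), Θ (ac W₁ s P) = ac W₂ s (Θ P)) {N K : IntermediateField F Ω} (h : Alt W₂ p N K V) :
    Alt W₁ p N K V := by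
  intro hab c hc hpc hK
  obtain ⟨Lc, hLc, hcont⟩ := hc.cont
  obtain ⟨P, hP⟩ := hK
  obtain ⟨Q, hQ⟩ := h hab (fun s => Θ (c s)) ⟨fun s hs t ht => by
      show Θ (c (s * t)) = Θ (c s) + ac W₂ s (Θ (c t))
      rw [hc.mul s hs t ht, map_add, hΘ], Lc, hLc, fun s hs hsL => by
      show Θ (c s) = 0
      rw [hcont s hs hsL, map_zero]⟩ (fun s hs => by
      show p • Θ (c s) = 0
      rw [← map_nsmul, hpc s hs, map_zero]) ⟨Θ P, fun s hs hi => by
      show Θ (c s) = _
      rw [hP s hs hi, map_sub, hΘ]⟩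
  refine ⟨Θ.symm Q, fun s hs hi => ?_⟩
  apply Θ.injective
  have h1 := hQ s hs hi
  rw [map_sub, hΘ, Θ.apply_symm_apply]
  exact h1

end H19B
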