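import Mathlib
import Pool.Agent.Lib.H19B.D2
import Pool.Agent.Lib.SSG.Z.L9
import Pool.Agent.Lib.H55P.SD

/-! # H19B, chunk L3 (S/M): the isomorphism with the short equation, and the kernel of reduction -/

open NumberField IsDedekindDomain WeierstrassCurve

namespace H19B

open H55P (IQ Pt ac Dec Inert decS Nm Coc PExt)
open H35P (WAB Ker tt)
open H55K (Tor CMA Dta GV ak cj)

variable {F : Type} [Field F] [NumberField F] [IQ F] {A B : F} {Om : ℂ} {Ω : Type} [Field Ω] [DecidableEq Ω]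
  [Algebra F Ω] [IsAlgClosure F Ω] {j : Ω →+* ℂ} {act : 𝓞 F →+* AddMonoid.End (Pt (WAB A B) Ω)} {mo : Ideal (𝓞 F)}
  {ψ : Ideal (𝓞 F) →*₀ 𝓞 F} {p : ℕ} {V : ValuationSubring Ω} {π : 𝓞 F}

omit [IQ F] [IsAlgClosure F Ω] in
/-- Chunk L3 (S/M). PROOF. Copy of SSG.short_iso (Lib/SSG/Z/L9.lean): Θ = H55P.PS4_iso (H55P.PS4_map D) with D for r = (a₂ + (a₁ / 2)^2) / 3, s = a₁ / 2, t = a₃ / 2; it maps (x, y) to (x + r, y + s x + t). The last property: for P = 0 clear; for P = (x, y): Ker V P means 1 < V(x), Ker V (Θ P) means 1 < V(x + r), and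
V(r) ≤ 1: a₁, a₂ are integers of F, of value ≤ 1 (H55K.ak_le), V(2) = V(3) = 1. -/
theorem short_iso2 (W₀ : WeierstrassCurve (𝓞 F)) {A B : F} (hA : A = -(algebraMap (𝓞 F) F W₀.c₄) / 48)
    (hB : B = -(algebraMap (𝓞 F) F W₀.c₆) / 864) (hΔ : W₀.Δ ≠ 0) (V : ValuationSubring Ω) (h2 : V.valuation (2 : Ω) = 1)
    (h3 : V.valuation (3 : Ω) = 1) : ∃ Θ : Pt (W₀⁄F) Ω ≃+ Pt (WAB A B) Ω,
      (∀ (s : Ω ≃ₐ[F] Ω) (P : Pt (W₀⁄F) Ω), Θ (ac (W₀⁄F) s P) = ac (WAB A B) s (Θ P)) ∧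
      ∀ P : Pt (W₀⁄F) Ω, Ker V (Θ P) ↔ Ker V P := by
  obtain ⟨W, hW⟩ : ∃ W : WeierstrassCurve F, W = (W₀⁄F) := ⟨_, rfl⟩
  have hc4 : W.c₄ = algebraMap (𝓞 F) F W₀.c₄ := by
    rw [hW]
    exact W₀.map_c₄ (algebraMap (𝓞 F) F)
  have hc6 : W.c₆ = algebraMap (𝓞 F) F W₀.c₆ := by
    rw [hW]
    exact W₀.map_c₆ (algebraMap (𝓞 F) F)
  have hWΔ : W.Δ ≠ 0 := by
    rw [hW]
    intro h0
    apply hΔ
    have h1 : (W₀⁄F).Δ = algebraMap (𝓞 F) F W₀.Δ := W₀.map_Δ (algebraMap (𝓞 F) F)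
    rw [h1] at h0
    exact (map_eq_zero_iff _ (IsFractionRing.injective (𝓞 F) F)).1 h0
  have hv1 : V.valuation (algebraMap F Ω W.a₁) ≤ 1 := by
    rw [hW]
    exact H55K.ak_le V W₀.a₁
  have hv2 : V.valuation (algebraMap F Ω W.a₂) ≤ 1 := by
    rw [hW]
    exact H55K.ak_le V W₀.a₂
  have hβ : V.valuation (algebraMap F Ω ((W.a₂ + (W.a₁ / 2) ^ 2) / 3)) ≤ 1 := by
    have e1 : algebraMap F Ω ((W.a₂ + (W.a₁ / 2) ^ 2) / 3) =
        (algebraMap F Ω W.a₂ + (algebraMap F Ω W.a₁ / 2) ^ 2) / 3 := by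
      rw [map_div₀, map_add, map_pow, map_div₀, map_ofNat, map_ofNat]
    rw [e1, map_div₀, h3, div_one]
    refine V.valuation.map_add_le hv2 ?_
    rw [map_pow, map_div₀, h2, div_one]
    exact pow_le_one' hv1 2
  rw [← hc4] at hA
  rw [← hc6] at hB
  have D : H55P.PS4_D W (WAB A B) ((W.a₂ + (W.a₁ / 2) ^ 2) / 3) (W.a₁ / 2) (W.a₃ / 2) := by
    refine ⟨rfl, rfl, rfl, ?_, ?_, ?_, ?_, ?_⟩
    · field_simp
    · field_simp
    · field_simp
    · show A = _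
      rw [hA, WeierstrassCurve.c₄, WeierstrassCurve.b₂, WeierstrassCurve.b₄]
      ring
    · show B = _ - A * _
      rw [hB, hA, WeierstrassCurve.c₄, WeierstrassCurve.c₆, WeierstrassCurve.b₂, WeierstrassCurve.b₄, WeierstrassCurve.b₆]
      ring
  have hd := H55K.y6_delta D
  have i1 : W.IsElliptic := ⟨isUnit_iff_ne_zero.2 hWΔ⟩
  have i2 : (WAB A B).IsElliptic := ⟨isUnit_iff_ne_zero.2 (by rw [hd]; exact hWΔ)⟩
  have i3 : (W⁄Ω).IsElliptic := inferInstanceAs (W.map (algebraMap F Ω)).IsElliptic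
  have i4 : ((WAB A B)⁄Ω).IsElliptic := inferInstanceAs ((WAB A B).map (algebraMap F Ω)).IsElliptic
  rw [← hW]
  refine ⟨H55P.PS4_iso (H55P.PS4_map (Ω := Ω) D), ?_, ?_⟩
  · intro f P
    rcases P with _ | ⟨x, y, h'⟩
    · rfl
    · have e1 : f (algebraMap F Ω ((W.a₂ + (W.a₁ / 2) ^ 2) / 3)) = algebraMap F Ω ((W.a₂ + (W.a₁ / 2) ^ 2) / 3) :=
        f.commutes _
      have e2 : f (algebraMap F Ω (W.a₁ / 2)) = algebraMap F Ω (W.a₁ / 2) := f.commutes _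
      have e3 : f (algebraMap F Ω (W.a₃ / 2)) = algebraMap F Ω (W.a₃ / 2) := f.commutes _
      change Affine.Point.some _ _ _ = Affine.Point.some _ _ _
      rw [Affine.Point.some.injEq]
      constructor
      · change f x + algebraMap F Ω ((W.a₂ + (W.a₁ / 2) ^ 2) / 3) = f (x + algebraMap F Ω ((W.a₂ + (W.a₁ / 2) ^ 2) / 3))
        rw [map_add, e1]
      · change f y + algebraMap F Ω (W.a₁ / 2) * f x + algebraMap F Ω (W.a₃ / 2) =
          f (y + algebraMap F Ω (W.a₁ / 2) * x + algebraMap F Ω (W.a₃ / 2))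
        rw [map_add, map_add, map_mul, e2, e3]
  · intro P
    rcases P with _ | ⟨x, y, h'⟩
    · exact Iff.rfl
    · change 1 < V.valuation (x + algebraMap F Ω ((W.a₂ + (W.a₁ / 2) ^ 2) / 3)) ↔ 1 < V.valuation x
      constructor
      · intro h
        by_contra hc
        exact absurd (V.valuation.map_add_le (not_lt.1 hc) hβ) (not_le.2 h)
      · intro h
        rw [V.valuation.map_add_eq_of_lt_left (hβ.trans_lt h)]
        exact h

end H19B
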