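import Mathlib
import Pool.Agent.Lib.H55P.S8
import Pool.Agent.Lib.H35P.SL

/-! # H19B, chunk L4 (M/L): reduction is a homomorphism on a subgroup which meets the kernel of reduction trivially -/

open NumberField IsDedekindDomain WeierstrassCurve

namespace H19B

open H55P

section L4

variable {k : Type} [Field k] [DecidableEq k] {W : WeierstrassCurve k} {V : ValuationSubring k}
  (H : AddSubgroup W.toAffine.Point) (hH : ∀ T ∈ H, H35P.Ker V T → T = 0)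

include hH in
theorem l4_inj0 (hG : H35P.GoodW W V) (P Q : W.toAffine.Point) (hP : P ∈ H)
    (hQ : Q ∈ H) (h : H35P.Cong V P Q) : P = Q :=
  sub_eq_zero.mp (hH _ (H.sub_mem hP hQ) (H35P.rd hG P Q h))

include hH in
theorem l4_mem {x₁ y₁ : k} (hG : H35P.GoodW W V) (h₁ : W.toAffine.Nonsingular x₁ y₁)
    (hP : (Affine.Point.some x₁ y₁ h₁ : W.toAffine.Point) ∈ H) : x₁ ∈ V ∧ y₁ ∈ V := by
  have hx : x₁ ∈ V := by
    by_contra hx
    refine Affine.Point.some_ne_zero h₁ (hH _ hP ?_)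
    show 1 < V.valuation x₁
    rw [← not_le, V.valuation_le_one_iff]
    exact hx
  exact ⟨hx, (V.valuation_le_one_iff y₁).1
    (H35P.int_y hG.toIntW h₁.1 ((V.valuation_le_one_iff x₁).2 hx))⟩

include hH in
theorem l4_slope_int (hG : H35P.GoodW W V) {x₁ y₁ x₂ y₂ : k} (h₁ : W.toAffine.Nonsingular x₁ y₁)
    (h₂ : W.toAffine.Nonsingular x₂ y₂) 
    (hP : (Affine.Point.some x₁ y₁ h₁ : W.toAffine.Point) ∈ H)
    (hQ : (Affine.Point.some x₂ y₂ h₂ : W.toAffine.Point) ∈ H)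
    (hxy : ¬(x₁ = x₂ ∧ y₁ = W.toAffine.negY x₂ y₂)) :
    V.valuation (W.toAffine.slope x₁ x₂ y₁ y₂) ≤ 1 := by
  obtain ⟨hx1, hy1⟩ := l4_mem H hH hG h₁ hP
  obtain ⟨hx2, hy2⟩ := l4_mem H hH hG h₂ hQ
  have ha1 := hG.a1
  have ha2 := hG.a2
  have ha3 := hG.a3
  have ha4 := hG.a4
  have hneg : ∀ x y : k, x ∈ V → y ∈ V → W.toAffine.negY x y ∈ V := fun x y hx hy => by
    rw [Affine.negY]
    exact sub_mem (sub_mem (neg_mem hy) (mul_mem ha1 hx)) ha3
  have hQn : (-(Affine.Point.some x₂ y₂ h₂) : W.toAffine.Point) ∈ H := H.neg_mem hQ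
  by_cases hx : x₁ = x₂
  · have hy : y₁ ≠ W.toAffine.negY x₂ y₂ := fun h => hxy ⟨hx, h⟩
    have hyy : y₁ = y₂ := Affine.Y_eq_of_Y_ne h₁.1 h₂.1 hx hy
    rw [Affine.slope_of_Y_ne hx hy]
    subst hx
    subst hyy
    have hd : V.valuation (y₁ - W.toAffine.negY x₁ y₁) = 1 := by
      refine le_antisymm ((V.valuation_le_one_iff _).mpr (sub_mem hy1 (hneg _ _ hx1 hy1))) ?_
      by_contra hlt
      push Not at hlt
      have hc : H35P.Cong V (Affine.Point.some x₁ y₁ h₁ : W.toAffine.Point)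
          (-(Affine.Point.some x₁ y₁ h₂)) := by
        refine ⟨x₁, y₁, h₁, x₁, W.toAffine.negY x₁ y₁, (Affine.nonsingular_neg ..).mpr h₂, rfl, ?_,
          hx1, hy1, hx1, hneg _ _ hx1 hy1, ?_, hlt⟩
        · exact Affine.Point.neg_some h₂
        · rw [sub_self, map_zero]
          exact zero_lt_one
      have he := l4_inj0 H hH hG _ _ hP hQn hc
      rw [Affine.Point.neg_some] at he
      simp only [Affine.Point.some.injEq] at he
      exact hy he.2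
    rw [map_div₀, hd, div_one]
    refine (V.valuation_le_one_iff _).mpr ?_
    have h3 : (3 : k) ∈ V := by exact_mod_cast natCast_mem V 3
    have h2 : (2 : k) ∈ V := by exact_mod_cast natCast_mem V 2
    exact sub_mem (add_mem (add_mem (mul_mem h3 (pow_mem hx1 2)) (mul_mem (mul_mem h2 ha2) hx1)) ha4)
      (mul_mem ha1 hy1)
  · rw [Affine.slope_of_X_ne hx]
    have hd : V.valuation (x₁ - x₂) = 1 := by
      refine le_antisymm ((V.valuation_le_one_iff _).mpr (sub_mem hx1 hx2)) ?_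
      by_contra hlt
      push Not at hlt
      have e1 := (Affine.equation_iff _ _).mp h₁.1
      have e2 := (Affine.equation_iff _ _).mp h₂.1
      have hid : (y₁ - W.toAffine.negY x₂ y₂) * (y₁ - y₂) =
          (x₁ - x₂) * (x₁ ^ 2 + x₁ * x₂ + x₂ ^ 2 + W.a₂ * (x₁ + x₂) + W.a₄ - W.a₁ * y₁) := by
        rw [Affine.negY]
        linear_combination e1 - e2
      have hmem : x₁ ^ 2 + x₁ * x₂ + x₂ ^ 2 + W.a₂ * (x₁ + x₂) + W.a₄ - W.a₁ * y₁ ∈ V :=
        sub_mem (add_mem (add_mem (add_mem (add_mem (pow_mem hx1 2) (mul_mem hx1 hx2)) (pow_mem hx2 2))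
          (mul_mem ha2 (add_mem hx1 hx2))) ha4) (mul_mem ha1 hy1)
      have hv : V.valuation (y₁ - W.toAffine.negY x₂ y₂) * V.valuation (y₁ - y₂) < 1 := by
        rw [← map_mul, hid, map_mul]
        exact mul_lt_one_of_lt_of_le hlt ((V.valuation_le_one_iff _).mpr hmem)
      have hor : V.valuation (y₁ - W.toAffine.negY x₂ y₂) < 1 ∨ V.valuation (y₁ - y₂) < 1 := by
        by_contra hc
        push Not at hc
        exact absurd hv (not_lt.mpr (one_le_mul hc.1 hc.2))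
      rcases hor with h | h
      · have hc : H35P.Cong V (Affine.Point.some x₁ y₁ h₁ : W.toAffine.Point)
            (-(Affine.Point.some x₂ y₂ h₂)) :=
          ⟨x₁, y₁, h₁, x₂, W.toAffine.negY x₂ y₂, (Affine.nonsingular_neg ..).mpr h₂, rfl,
            Affine.Point.neg_some h₂, hx1, hy1, hx2, hneg _ _ hx2 hy2, hlt, h⟩
        have he := l4_inj0 H hH hG _ _ hP hQn hc
        rw [Affine.Point.neg_some] at he
        simp only [Affine.Point.some.injEq] at he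
        exact hx he.1
      · have hc : H35P.Cong V (Affine.Point.some x₁ y₁ h₁ : W.toAffine.Point)
            (Affine.Point.some x₂ y₂ h₂) :=
          ⟨x₁, y₁, h₁, x₂, y₂, h₂, rfl, rfl, hx1, hy1, hx2, hy2, hlt, h⟩
        have he := l4_inj0 H hH hG _ _ hP hQ hc
        simp only [Affine.Point.some.injEq] at he
        exact hx he.1
    rw [map_div₀, hd, div_one]
    exact (V.valuation_le_one_iff _).mpr (sub_mem hy1 hy2)

variable {κ : Type} [Field κ] (r : V →+* κ) (hr : ∀ x : V, r x = 0 ↔ V.valuation (x : k) < 1)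

include hr hH in
/-- Points of H with equal reduction are equal. -/
theorem l4_inj (hG : H35P.GoodW W V) (X₁ Y₁ X₂ Y₂ : V)
    (h₁ : W.toAffine.Nonsingular (X₁ : k) (Y₁ : k)) (h₂ : W.toAffine.Nonsingular (X₂ : k) (Y₂ : k))
    (hP : (Affine.Point.some _ _ h₁ : W.toAffine.Point) ∈ H)
    (hQ : (Affine.Point.some _ _ h₂ : W.toAffine.Point) ∈ H)
    (hX : r X₁ = r X₂) (hY : r Y₁ = r Y₂) : X₁ = X₂ ∧ Y₁ = Y₂ := by
  have h := l4_inj0 H hH hG _ _ hP hQ ⟨X₁, Y₁, h₁, X₂, Y₂, h₂, rfl, rfl, X₁.2, Y₁.2, X₂.2, Y₂.2,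
    (s8_eq_iff r hr X₁ X₂).1 hX, (s8_eq_iff r hr Y₁ Y₂).1 hY⟩
  simp only [Affine.Point.some.injEq] at h
  exact ⟨Subtype.ext h.1, Subtype.ext h.2⟩

include hr hH in
/-- Points of H with opposite reduction are opposite. -/
theorem l4_inj' (hG : H35P.GoodW W V) (X₁ Y₁ X₂ Y₂ : V)
    (h₁ : W.toAffine.Nonsingular (X₁ : k) (Y₁ : k)) (h₂ : W.toAffine.Nonsingular (X₂ : k) (Y₂ : k))
    (hP : (Affine.Point.some _ _ h₁ : W.toAffine.Point) ∈ H)
    (hQ : (Affine.Point.some _ _ h₂ : W.toAffine.Point) ∈ H)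
    (hX : r X₁ = r X₂) (hY : r Y₁ = ((s8_WV hG.toIntW).map r).toAffine.negY (r X₂) (r Y₂)) :
    (X₁ : k) = X₂ ∧ (Y₁ : k) = W.toAffine.negY (X₂ : k) (Y₂ : k) := by
  have h3 : W.toAffine.Nonsingular (X₂ : k) (((s8_WV hG.toIntW).toAffine.negY X₂ Y₂ : V) : k) := by
    rw [← s8_negY]
    exact (Affine.nonsingular_neg ..).2 h₂
  have hQ' : (Affine.Point.some _ _ h3 : W.toAffine.Point) ∈ H := by
    have e : (Affine.Point.some _ _ h3 : W.toAffine.Point) = -Affine.Point.some _ _ h₂ := by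
      rw [Affine.Point.neg_some]
      exact s8_some_congr rfl (s8_negY hG.toIntW X₂ Y₂).symm
    rw [e]
    exact H.neg_mem hQ
  have hY' : r Y₁ = r ((s8_WV hG.toIntW).toAffine.negY X₂ Y₂) := by
    rw [hY]
    exact Affine.map_negY (W' := (s8_WV hG.toIntW).toAffine) r X₂ Y₂
  obtain ⟨e1, e2⟩ := l4_inj H hH r hr hG X₁ Y₁ X₂ _ h₁ h3 hP hQ' hX hY'
  rw [s8_negY hG.toIntW]
  exact ⟨congrArg _ e1, congrArg _ e2⟩

variable [DecidableEq κ]

include hr hH in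
/-- The slope is compatible with the reduction. -/
theorem l4_slope (hG : H35P.GoodW W V) (X₁ Y₁ X₂ Y₂ : V)
    (h₁ : W.toAffine.Nonsingular (X₁ : k) (Y₁ : k)) (h₂ : W.toAffine.Nonsingular (X₂ : k) (Y₂ : k))
    (hP : (Affine.Point.some _ _ h₁ : W.toAffine.Point) ∈ H)
    (hQ : (Affine.Point.some _ _ h₂ : W.toAffine.Point) ∈ H)
    (hc : ¬((X₁ : k) = X₂ ∧ (Y₁ : k) = W.toAffine.negY (X₂ : k) (Y₂ : k))) :
    ∃ l : V, W.toAffine.slope (X₁ : k) X₂ Y₁ Y₂ = l ∧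
      ((s8_WV hG.toIntW).map r).toAffine.slope (r X₁) (r X₂) (r Y₁) (r Y₂) = r l := by
  have hl := l4_slope_int H hH hG h₁ h₂ hP hQ hc
  rw [V.valuation_le_one_iff] at hl
  refine ⟨⟨_, hl⟩, rfl, ?_⟩
  have hc' : ¬(r X₁ = r X₂ ∧ r Y₁ = ((s8_WV hG.toIntW).map r).toAffine.negY (r X₂) (r Y₂)) :=
    fun h => hc (l4_inj' H hH r hr hG X₁ Y₁ X₂ Y₂ h₁ h₂ hP hQ h.1 h.2)
  by_cases hx : r X₁ = r X₂
  · have hy := fun h => hc' ⟨hx, h⟩
    have hyy : r Y₁ = r Y₂ :=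
      Affine.Y_eq_of_Y_ne (s8_ns r hr hG X₁ Y₁ h₁).1 (s8_ns r hr hG X₂ Y₂ h₂).1 hx hy
    obtain ⟨rfl, rfl⟩ := l4_inj H hH r hr hG X₁ Y₁ X₂ Y₂ h₁ h₂ hP hQ hx hyy
    have hyk : (Y₁ : k) ≠ W.toAffine.negY (X₁ : k) (Y₁ : k) := fun h => hc ⟨rfl, h⟩
    rw [Affine.slope_of_Y_ne rfl hy, div_eq_iff (sub_ne_zero.2 hy)]
    have e1 : (⟨W.toAffine.slope (X₁ : k) X₁ Y₁ Y₁, hl⟩ : V) *
        (Y₁ - (s8_WV hG.toIntW).toAffine.negY X₁ Y₁) =
        3 * X₁ ^ 2 + 2 * (s8_WV hG.toIntW).a₂ * X₁ + (s8_WV hG.toIntW).a₄ -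
          (s8_WV hG.toIntW).a₁ * Y₁ := by
      apply Subtype.ext
      have e2 := s8_negY hG.toIntW X₁ Y₁
      show W.toAffine.slope (X₁ : k) X₁ Y₁ Y₁ * ((Y₁ : k) -
        (((s8_WV hG.toIntW).toAffine.negY X₁ Y₁ : V) : k)) =
        3 * (X₁ : k) ^ 2 + 2 * W.a₂ * X₁ + W.a₄ - W.a₁ * Y₁
      rw [← e2, Affine.slope_of_Y_ne rfl hyk, div_mul_cancel₀ _ (sub_ne_zero.2 hyk)]
    have e3 := congrArg r e1
    rw [map_mul, map_sub, ← Affine.map_negY] at e3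
    rw [e3, map_sub, map_add, map_add, map_mul, map_mul, map_mul, map_mul, map_pow, map_ofNat,
      map_ofNat]
    rfl
  · have hxk : (X₁ : k) ≠ X₂ := fun h => hx (congrArg r (Subtype.ext h))
    rw [Affine.slope_of_X_ne hx, div_eq_iff (sub_ne_zero.2 hx)]
    have e1 : (⟨W.toAffine.slope (X₁ : k) X₂ Y₁ Y₂, hl⟩ : V) * (X₁ - X₂) = Y₁ - Y₂ := by
      apply Subtype.ext
      show W.toAffine.slope (X₁ : k) X₂ Y₁ Y₂ * ((X₁ : k) - X₂) = (Y₁ : k) - Y₂
      rw [Affine.slope_of_X_ne hxk, div_mul_cancel₀ _ (sub_ne_zero.2 hxk)]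
    have e3 := congrArg r e1
    rw [map_mul, map_sub, map_sub] at e3
    exact e3.symm

include hH in
/-- Additivity. -/
theorem l4_add (hG : H35P.GoodW W V) (P Q : W.toAffine.Point)
    (hP : P ∈ H) (hQ : Q ∈ H) :
    s8_f r hr hG (P + Q) = s8_f r hr hG P + s8_f r hr hG Q := by
  rcases P with _ | ⟨x₁, y₁, h₁⟩
  · show s8_f r hr hG (0 + Q) = 0 + s8_f r hr hG Q
    rw [zero_add, zero_add]
  rcases Q with _ | ⟨x₂, y₂, h₂⟩
  · show s8_f r hr hG (_ + 0) = s8_f r hr hG _ + 0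
    rw [add_zero, add_zero]
  obtain ⟨hx1, hy1⟩ := l4_mem H hH hG h₁ hP
  obtain ⟨hx2, hy2⟩ := l4_mem H hH hG h₂ hQ
  lift x₁ to V using hx1
  lift y₁ to V using hy1
  lift x₂ to V using hx2
  lift y₂ to V using hy2
  rw [s8_f_some, s8_f_some]
  by_cases hc : (x₁ : k) = x₂ ∧ (y₁ : k) = W.toAffine.negY (x₂ : k) (y₂ : k)
  · rw [Affine.Point.add_of_Y_eq hc.1 hc.2, s8_f_zero, Affine.Point.add_of_Y_eq]
    · exact congrArg r (Subtype.ext hc.1)
    · have e := hc.2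
      rw [s8_negY hG.toIntW] at e
      rw [Subtype.ext e]
      exact (Affine.map_negY (W' := (s8_WV hG.toIntW).toAffine) r x₂ y₂).symm
  · have hc' : ¬(r x₁ = r x₂ ∧ r y₁ = ((s8_WV hG.toIntW).map r).toAffine.negY (r x₂) (r y₂)) :=
      fun h => hc (l4_inj' H hH r hr hG x₁ y₁ x₂ y₂ h₁ h₂ hP hQ h.1 h.2)
    obtain ⟨l, hl, hl'⟩ := l4_slope H hH r hr hG x₁ y₁ x₂ y₂ h₁ h₂ hP hQ hc
    rw [Affine.Point.add_some hc, Affine.Point.add_some hc']
    have hns : W.toAffine.Nonsingular (((s8_WV hG.toIntW).toAffine.addX x₁ x₂ l : V) : k)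
        (((s8_WV hG.toIntW).toAffine.addY x₁ x₂ y₁ l : V) : k) := by
      rw [← s8_addX, ← s8_addY, ← hl]
      exact Affine.nonsingular_add h₁ h₂ hc
    have e : (Affine.Point.some _ _ (Affine.nonsingular_add h₁ h₂ hc) : W.toAffine.Point) =
        Affine.Point.some _ _ hns := by
      refine s8_some_congr ?_ ?_
      · rw [hl, s8_addX hG.toIntW]
      · rw [hl, s8_addY hG.toIntW]
    rw [e, s8_f_some]
    refine s8_some_congr ?_ ?_
    · rw [hl']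
      exact (Affine.map_addX (W' := (s8_WV hG.toIntW).toAffine) r x₁ x₂ l).symm
    · rw [hl']
      exact (Affine.map_addY (W' := (s8_WV hG.toIntW).toAffine) r x₁ y₁ x₂ l).symm

end L4

/-- Chunk L4 (M/L). PROOF. PORT of H55P.exists_red (Lib/H55P/S8.lean: s8_inj, s8_inj', s8_slope, s8_add, exists_red) and H35P.slope_int (Lib/H35P/SL.lean): replace the group of the points killed by n, V(n) = 1, by the subgroup H. The only facts used about n-torsion are (a) nonzero points have integral coordinates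
(H35P.SL_mem): here a nonzero point of H is not in Ker V, so V(x) ≤ 1 and V(y) ≤ 1 (H35P.int_y); (b) congruent points are equal (H35P.inj): here P - Q in Ker V by H35P.rd and P - Q in H, so P = Q. The definitions s8_WV, s8_f, s8_ns, s8_map, s8_negY, s8_addX, s8_addY, s8_f_some, s8_eq_iff can be used as they are. -/
theorem exists_redH {k : Type} [Field k] [DecidableEq k] {W : WeierstrassCurve k} {V : ValuationSubring k}
    (hG : H35P.GoodW W V) {κ : Type} [Field κ] [DecidableEq κ] (r : V →+* κ)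
    (hr : ∀ x : V, r x = 0 ↔ V.valuation (x : k) < 1) (W' : WeierstrassCurve κ)
    (h1 : r ⟨W.a₁, hG.a1⟩ = W'.a₁) (h2 : r ⟨W.a₂, hG.a2⟩ = W'.a₂) (h3 : r ⟨W.a₃, hG.a3⟩ = W'.a₃)
    (h4 : r ⟨W.a₄, hG.a4⟩ = W'.a₄) (h6 : r ⟨W.a₆, hG.a6⟩ = W'.a₆) (H : AddSubgroup W.toAffine.Point)
    (hH : ∀ T ∈ H, H35P.Ker V T → T = 0) :
    ∃ f : H →+ W'.toAffine.Point,
      (∀ T, f T = 0 → T = 0) ∧
      ∀ (x y : k) (h : W.toAffine.Nonsingular x y)
        (hT : (Affine.Point.some x y h : W.toAffine.Point) ∈ H) (hx : x ∈ V) (hy : y ∈ V),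
        ∃ h' : W'.toAffine.Nonsingular (r ⟨x, hx⟩) (r ⟨y, hy⟩),
          f ⟨Affine.Point.some x y h, hT⟩ = Affine.Point.some _ _ h' := by
  have hW' : W' = (s8_WV hG.toIntW).map r :=
    WeierstrassCurve.ext h1.symm h2.symm h3.symm h4.symm h6.symm
  subst hW'
  refine ⟨{ toFun := fun T => s8_f r hr hG T.1
            map_zero' := rfl
            map_add' := fun P Q => l4_add H hH r hr hG P.1 Q.1 P.2 Q.2 }, ?_, ?_⟩
  · rintro ⟨T, hT⟩ h0
    apply Subtype.ext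
    rcases T with _ | ⟨x, y, h⟩
    · rfl
    · exfalso
      obtain ⟨hx, hy⟩ := l4_mem H hH hG h hT
      have h5 : s8_f r hr hG (.some x y h) = 0 := h0
      have h7 : s8_f r hr hG (.some x y h) = .some (r ⟨x, hx⟩) (r ⟨y, hy⟩)
          (s8_ns r hr hG ⟨x, hx⟩ ⟨y, hy⟩ h) := s8_f_some r hr hG ⟨x, hx⟩ ⟨y, hy⟩ h
      rw [h7] at h5
      exact Affine.Point.some_ne_zero _ h5
  · intro x y h hT hx hy
    exact ⟨s8_ns r hr hG ⟨x, hx⟩ ⟨y, hy⟩ h, s8_f_some r hr hG ⟨x, hx⟩ ⟨y, hy⟩ h⟩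

end H19B
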