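import Mathlib
import Pool.Agent.Lib.H19B.L4
import Pool.Agent.Lib.H55P.S10

/-! # H19B, chunk L5 (M): a point fixed by the decomposition group outside the kernel of reduction gives a point of the reduced curve -/

open NumberField IsDedekindDomain WeierstrassCurve

namespace H19B

open H55P

variable {F : Type} [Field F] [NumberField F] {Ω : Type} [Field Ω] [DecidableEq Ω] [Algebra F Ω]
  [IsAlgClosed Ω] [Algebra.IsAlgebraic F Ω] [CharZero Ω]

/-- Chunk L5 (M). PROOF. PORT of H55P.fix_local (Lib/H55P/S10.lean): with exists_redH for H = AddSubgroup.zmultiples T instead of exists_red. hK: an element z • T of H in Ker V is 0 (for negative z use Ker V (-P) iff Ker V P: H35P.ker_neg). The coordinates of T are in V: T is not in Ker V (else T = 0), H35P.int_y. -/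
theorem fix_etale (W₀ : WeierstrassCurve (𝓞 F)) (p : ℕ) (hp : p.Prime) (M : IntermediateField F Ω)
    [FiniteDimensional F M] (V : ValuationSubring Ω) (v : HeightOneSpectrum (𝓞 M))
    (hv : Below V M v.asIdeal) (hΔ : algebraMap (𝓞 F) (𝓞 M) W₀.Δ ∉ v.asIdeal)
    (hc : ¬ p ∣ Nat.card (W₀⁄(𝓞 M ⧸ v.asIdeal)).toAffine.Point)
    (T : Pt (W₀⁄F) Ω) (hT : p • T = 0) (hK : ∀ n : ℕ, H35P.Ker V (n • T) → n • T = 0)
    (hf : ∀ s ∈ M.fixingSubgroup, Dec V s → ac (W₀⁄F) s T = T) : T = 0 := by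
  classical
  by_contra hT0
  have hG := good_below W₀ M V v hv hΔ
  have hnf : NumberField M := H16C.FR_numberField M
  have hmax : v.asIdeal.IsMaximal := v.isMaximal
  let _ : Field (𝓞 M ⧸ v.asIdeal) := Ideal.Quotient.field v.asIdeal
  obtain ⟨r, hr⟩ : ∃ r : V →+* IsLocalRing.ResidueField V, r = IsLocalRing.residue V := ⟨_, rfl⟩
  have hr0 : ∀ x : V, r x = 0 ↔ V.valuation (x : Ω) < 1 := by
    intro x
    rw [hr, IsLocalRing.residue_eq_zero_iff]
    exact V.valuation_lt_one_iff x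
  obtain ⟨φ, hφ⟩ : ∃ φ : 𝓞 M →+* V, ∀ z, ((φ z : V) : Ω) = ((z : M) : Ω) :=
    ⟨((algebraMap M Ω).comp (algebraMap (𝓞 M) M)).codRestrict V.toSubring (S10_mem M V),
      fun z => rfl⟩
  have hker : ∀ z ∈ v.asIdeal, (r.comp φ) z = 0 := by
    intro z hz
    rw [RingHom.comp_apply, hr0, hφ]
    exact (hv z).1 hz
  obtain ⟨ι, hι⟩ : ∃ ι : (𝓞 M ⧸ v.asIdeal) →+* IsLocalRing.ResidueField V,
      ∀ z, ι (Ideal.Quotient.mk v.asIdeal z) = r (φ z) :=
    ⟨Ideal.Quotient.lift v.asIdeal (r.comp φ) hker, fun z => Ideal.Quotient.lift_mk _ _ _⟩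
  let algκ : Algebra (𝓞 F) (IsLocalRing.ResidueField V) :=
    (ι.comp (algebraMap (𝓞 F) (𝓞 M ⧸ v.asIdeal))).toAlgebra
  let ιA : (𝓞 M ⧸ v.asIdeal) →ₐ[𝓞 F] IsLocalRing.ResidueField V :=
    { ι with commutes' := fun z => rfl }
  have hcoef : ∀ (z : 𝓞 F) (h : algebraMap F Ω (algebraMap (𝓞 F) F z) ∈ V),
      r ⟨algebraMap F Ω (algebraMap (𝓞 F) F z), h⟩ =
        algebraMap (𝓞 F) (IsLocalRing.ResidueField V) z := by
    intro z h
    have e1 : algebraMap (𝓞 F) (IsLocalRing.ResidueField V) z =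
        ι (Ideal.Quotient.mk v.asIdeal (algebraMap (𝓞 F) (𝓞 M) z)) := rfl
    rw [e1, hι]
    congr 1
    apply Subtype.ext
    rw [hφ]
    rfl
  have hH : ∀ P ∈ AddSubgroup.zmultiples T, H35P.Ker V P → P = 0 := by
    intro P hP hPK
    obtain ⟨z, rfl⟩ := AddSubgroup.mem_zmultiples_iff.1 hP
    rcases Int.eq_nat_or_neg z with ⟨n, rfl | rfl⟩
    · rw [natCast_zsmul] at hPK ⊢
      exact hK n hPK
    · rw [neg_smul, natCast_zsmul] at hPK ⊢
      rw [H35P.ker_neg] at hPK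
      rw [hK n hPK, neg_zero]
  have hTH : T ∈ AddSubgroup.zmultiples T := AddSubgroup.mem_zmultiples T
  obtain ⟨f, hf0, hfs⟩ := exists_redH hG r hr0 (W₀⁄(IsLocalRing.ResidueField V))
    (hcoef W₀.a₁ _) (hcoef W₀.a₂ _) (hcoef W₀.a₃ _) (hcoef W₀.a₄ _) (hcoef W₀.a₆ _) (AddSubgroup.zmultiples T) hH
  rcases T with _ | ⟨x, y, h⟩
  · exact hT0 rfl
  have hxV : V.valuation x ≤ 1 := by
    by_contra hc
    refine hT0 (hH _ hTH ?_)
    show 1 < V.valuation x
    exact not_le.1 hc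
  have hx : x ∈ V := (V.valuation_le_one_iff x).1 hxV
  have hy : y ∈ V := (V.valuation_le_one_iff y).1 (H35P.int_y hG.toIntW h.1 hxV)
  have hfix : ∀ s ∈ M.fixingSubgroup, Dec V s → s x = x ∧ s y = y := by
    intro s hs hd
    have h1 := hf s hs hd
    have h2 : ac (W₀⁄F) s (Affine.Point.some x y h) = Affine.Point.some (s x) (s y)
        ((Affine.baseChange_nonsingular (W := (W₀⁄F).toAffine) (f := s.toAlgHom)
          s.toAlgHom.injective ..).2 h) := rfl
    rw [h2] at h1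
    injection h1 with h3 h4
    exact ⟨h3, h4⟩
  obtain ⟨a, ha⟩ := res_descent M V v hv x hx fun s hs hd => (hfix s hs hd).1
  obtain ⟨b, hb⟩ := res_descent M V v hv y hy fun s hs hd => (hfix s hs hd).2
  have hra : r ⟨x, hx⟩ = ι (Ideal.Quotient.mk v.asIdeal a) := by
    rw [hι, ← sub_eq_zero, ← map_sub, hr0]
    have e1 : ((⟨x, hx⟩ - φ a : V) : Ω) = x - ((a : M) : Ω) := by
      rw [← hφ]
      rfl
    rw [e1]
    exact ha
  have hrb : r ⟨y, hy⟩ = ι (Ideal.Quotient.mk v.asIdeal b) := by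
    rw [hι, ← sub_eq_zero, ← map_sub, hr0]
    have e1 : ((⟨y, hy⟩ - φ b : V) : Ω) = y - ((b : M) : Ω) := by
      rw [← hφ]
      rfl
    rw [e1]
    exact hb
  obtain ⟨h', hfT⟩ := hfs x y h hTH hx hy
  have hns : (W₀⁄(𝓞 M ⧸ v.asIdeal)).toAffine.Nonsingular (Ideal.Quotient.mk v.asIdeal a)
      (Ideal.Quotient.mk v.asIdeal b) := by
    have h3 := h'
    rw [hra, hrb] at h3
    exact (Affine.baseChange_nonsingular (W := W₀.toAffine) (f := ιA) ι.injective _ _).1 h3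
  have hmap : Affine.Point.map (W' := W₀.toAffine) ιA (Affine.Point.some _ _ hns) =
      f ⟨Affine.Point.some x y h, hTH⟩ := by
    rw [hfT]
    exact s8_some_congr hra.symm hrb.symm
  have hp0 : p • (Affine.Point.some _ _ hns : (W₀⁄(𝓞 M ⧸ v.asIdeal)).toAffine.Point) = 0 := by
    apply Affine.Point.map_injective (W' := W₀.toAffine) (f := ιA)
    rw [map_nsmul, hmap, ← map_nsmul, map_zero]
    have e2 : (p • (⟨Affine.Point.some x y h, hTH⟩ :
        (AddSubgroup.zmultiples (Affine.Point.some x y h : Pt (W₀⁄F) Ω)))) = 0 := Subtype.ext hT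
    rw [e2, map_zero]
  have hord : addOrderOf (Affine.Point.some _ _ hns : (W₀⁄(𝓞 M ⧸ v.asIdeal)).toAffine.Point) = p :=
    addOrderOf_eq_prime hp0 (Affine.Point.some_ne_zero _) (hp := ⟨hp⟩)
  apply hc
  rw [← hord]
  exact addOrderOf_dvd_natCard _

end H19B
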