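import Mathlib
import Pool.Agent.Lib.H19B.D2
import Pool.Agent.Lib.H55P.SA1
import Pool.Agent.Lib.H55P.S5
import Pool.Agent.Lib.H55P.S14

/-! # H19B, chunk L6 (M): no fixed points in the étale part, up the tower -/

open NumberField IsDedekindDomain WeierstrassCurve

namespace H19B

open H55P (IQ Pt ac Dec Inert decS Nm Coc PExt)
open H35P (WAB Ker tt)
open H55K (Tor CMA Dta GV ak cj)

variable {F : Type} [Field F] [NumberField F] [IQ F] {A B : F} {Om : ℂ} {Ω : Type} [Field Ω] [DecidableEq Ω]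
  [Algebra F Ω] [IsAlgClosure F Ω] {j : Ω →+* ℂ} {act : 𝓞 F →+* AddMonoid.End (Pt (WAB A B) Ω)} {mo : Ideal (𝓞 F)}
  {ψ : Ideal (𝓞 F) →*₀ 𝓞 F} {p : ℕ} {V : ValuationSubring Ω} {π : 𝓞 F}

omit [IsAlgClosure F Ω] in
theorem l6_ac_mem (h : CMA F A B Om j act) (b : 𝓞 F) (s : Ω ≃ₐ[F] Ω) (T : Pt (WAB A B) Ω) (hT : T ∈ Tor act b) :
    ac (WAB A B) s T ∈ Tor act b := by
  have h1 : act b T = 0 := hT
  show act b (ac (WAB A B) s T) = 0
  rw [← h.gal s b T, h1, map_zero]

/-- The Galois action on the points killed by b. -/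
noncomputable def l6Rho (h : CMA F A B Om j act) (b : 𝓞 F) : (Ω ≃ₐ[F] Ω) →* AddMonoid.End (Tor act b) where
  toFun s :=
    { toFun := fun T => ⟨ac (WAB A B) s T.1, l6_ac_mem h b s T.1 T.2⟩
      map_zero' := Subtype.ext (map_zero (ac (WAB A B) s))
      map_add' := fun T T' => Subtype.ext (map_add (ac (WAB A B) s) T.1 T'.1) }
  map_one' := by
    ext T
    have h1 := congrArg (fun φ : AddMonoid.End (Pt (WAB A B) Ω) => φ T.1) (map_one (H55P.acR (Ω := Ω) (WAB A B)))
    exact h1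
  map_mul' s t := by
    ext T
    have h1 := congrArg (fun φ : AddMonoid.End (Pt (WAB A B) Ω) => φ T.1) (map_mul (H55P.acR (Ω := Ω) (WAB A B)) s t)
    exact h1

/-- Chunk L6 (M). PROOF. H55P.fix_up applied to the abelian group Tor act b (as a type) with the action ρ s T = ⟨ac s T, _⟩ (MonoidHom to AddMonoid.End: CMA.gal; ac_one, ac_mul), N = L.fixingSubgroup ⊓ decS F V, H = M.fixingSubgroup ⊓ decS F V = DN M V, k with s^(p^k) in L.fixingSubgroup for s in M.fixingSubgroup (PExt.pow; conjugation: PExt.conj; see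
Lib/H55K/NA6.lean, the second use of fix_up). {T | p • T = 0} finite: Tor act b is finite (tor_card, b ≠ 0: Nat.finite_of_card_ne_zero). All T in Tor act b are killed by b; p • T = 0 is given in fix_up. T fixed by DN N V is fixed by L.fixingSubgroup ⊓ decS F V because N ≤ L. -/
theorem fix_tower (h : CMA F A B Om j act) (hp : p.Prime) {b : 𝓞 F} (hb : b ≠ 0) (hd : b ∣ (p : 𝓞 F)) {M N L : IntermediateField F Ω}
    (hL : PExt p M L) (hN : N ≤ L) (V : ValuationSubring Ω)
    (h0 : ∀ T : Pt (WAB A B) Ω, act b T = 0 → (∀ s ∈ DN M V, ac (WAB A B) s T = T) → T = 0)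
    (T : Pt (WAB A B) Ω) (hT : act b T = 0) (hf : ∀ s ∈ DN N V, ac (WAB A B) s T = T) : T = 0 := by
  have hcl : IsAlgClosed Ω := IsAlgClosure.isAlgClosed F
  have hal : Algebra.IsAlgebraic F Ω := IsAlgClosure.isAlgebraic
  have hch : CharZero Ω := charZero_of_injective_algebraMap (algebraMap F Ω).injective
  have hc := H55K.tor_card h hb
  have hNm : Nm b ≠ 0 := fun h4 => hb (H55P.Nm_eq_zero.1 h4)
  have hfin : Finite (Tor act b) := (Nat.card_ne_zero.1 (by rw [hc]; exact hNm)).2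
  obtain ⟨k, hk⟩ := hL.pow p hp M L
  have hconj : ∀ s ∈ M.fixingSubgroup, ∀ t ∈ L.fixingSubgroup, s * t * s⁻¹ ∈ L.fixingSubgroup :=
    fun s hs t ht => hL.conj p M L s hs t ht
  have hpT : p • (⟨T, hT⟩ : Tor act b) = 0 := by
    apply Subtype.ext
    show p • T = 0
    obtain ⟨c, hc'⟩ := hd
    have h1 : act (p : 𝓞 F) T = p • T := by
      rw [map_natCast]
      rfl
    have h2 : act (p : 𝓞 F) T = act c (act b T) := by
      rw [hc', mul_comm, map_mul]
      rfl
    rw [← h1, h2, hT, map_zero]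
  have key := H55P.fix_up (l6Rho h b) p hp (Set.toFinite _) (L.fixingSubgroup ⊓ decS F V)
    (M.fixingSubgroup ⊓ decS F V) (inf_le_inf_right _ fun s hs => H55P.fixing_anti hL.le hs)
    (fun s hs t ht => ⟨hconj s hs.1 t ht.1,
      (decS F V).mul_mem ((decS F V).mul_mem hs.2 ht.2) ((decS F V).inv_mem hs.2)⟩) k
    (fun s hs => ⟨hk s hs.1, (decS F V).pow_mem hs.2 _⟩)
    (fun T' _ hf' => Subtype.ext (h0 T'.1 T'.2 fun s hs => congrArg Subtype.val (hf' s hs))) ⟨T, hT⟩ hpT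
    (fun s hs => Subtype.ext (hf s ⟨H55P.fixing_anti hN hs.1, hs.2⟩))
  exact congrArg Subtype.val key

end H19B
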