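import Mathlib
import Pool.Agent.Lib.H19B.L2
import Pool.Agent.Lib.H19B.L3
import Pool.Agent.Lib.H19B.L5
import Pool.Agent.Lib.H19B.L6
import Pool.Agent.Lib.H55K.MM

/-! # H19B, chunk L8 (M): the local alternative at the primes above p -/

open NumberField IsDedekindDomain WeierstrassCurve

namespace H19B

open H55P (IQ Pt ac Dec Inert decS Nm Coc PExt Below)
open H35P (WAB Ker tt)
open H55K (Tor CMA Dta GV ak cj)
open H55K.TQ (BaseH PrimeH)

/-- The prime number p is the product of two different primes of F. -/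
def Spl (F : Type) [Field F] [NumberField F] [IQ F] (p : ℕ) : Prop := ∃ π : 𝓞 F, Prime π ∧ π ∣ (p : 𝓞 F) ∧ ¬ π ∣ cj π

open Classical in
/-- Chunk L8 (M). PROOF. V(p) < 1 since p in v. π0 from hsp; π0 * cj π0 = p (tors_split, dta.unr): V(π0) < 1 or V(cj π0) < 1; let π be the one with V(π) < 1 (cj (cj π0) = π0, cj_prime, cj_dvd: the hypotheses are symmetric), V(cj π) = 1. A, B, j, act, dta from SSG.exists_dtaAB hH hp; Θ from short_iso2 (V(2) = V(3) = 1: dta.good).
alt_iso for Θ and alt_wab: h0 for N: fix_tower (b = cj π) reduces it to M: T in Tor act (cj π) fixed by DN M V: T' = Θ.symm T: p • T' = 0, n • T' in Ker V implies n • T in Ker V (short_iso2), n • T is killed by cj π, so n • T = 0 (H55K.tor_unit, V(cj π) = 1), n • T' = 0; fixed by M.fixingSubgroup ∩ Dec V: fix_etale gives T' = 0.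
N is a number field: finite over F (contained in L). -/
theorem alt_w0 {F : Type} [Field F] [NumberField F] [IQ F] {W₀ : WeierstrassCurve (𝓞 F)} {Om : ℂ} {m : Ideal (𝓞 F)}
    {ψ : Ideal (𝓞 F) →*₀ 𝓞 F} {p : ℕ} (hH : BaseH F W₀ Om m ψ) (hp : PrimeH F W₀ p) (hsp : Spl F p)
    {M L : IntermediateField F (AlgebraicClosure F)} [NumberField M] (hL : PExt p M L) (v : HeightOneSpectrum (𝓞 M))
    (hpv : (p : 𝓞 M) ∈ v.asIdeal) (hΔ : algebraMap (𝓞 F) (𝓞 M) W₀.Δ ∉ v.asIdeal)
    (hc : ¬ p ∣ Nat.card (W₀⁄(𝓞 M ⧸ v.asIdeal)).toAffine.Point) (V : ValuationSubring (AlgebraicClosure F))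
    (hV : Below V M v.asIdeal) (N K : IntermediateField F (AlgebraicClosure F)) (hMN : M ≤ N) (hNK : N ≤ K) (hKL : K ≤ L) :
    Alt (W₀⁄F) p N K V := by
  have hLf : FiniteDimensional F L := hL.fin
  have hNf : FiniteDimensional F N := H55P.finDim_of_le (hNK.trans hKL)
  have hMf : FiniteDimensional F M := H55P.finDim_of_le hL.le
  have hNn : NumberField N := NumberField.of_module_finite F N
  have hcl : IsAlgClosure F (AlgebraicClosure F) := inferInstance
  obtain ⟨A, B, j, act, hA, hB, dta⟩ := SSG.exists_dtaAB hH hp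
  have hVp : V.valuation (p : AlgebraicClosure F) < 1 := by
    have h1 := (hV (p : 𝓞 M)).1 hpv
    have e1 : ((((p : ℕ) : 𝓞 M) : M) : AlgebraicClosure F) = (p : AlgebraicClosure F) := by simp
    rwa [e1] at h1
  have hG : GV A B V := dta.good V hVp
  obtain ⟨π₀, hπ₀, hd₀, hs₀⟩ := hsp
  obtain ⟨hprod, -⟩ := tors_split (Ω := AlgebraicClosure F) dta.cma dta.prime dta.unr hπ₀ hd₀ hs₀
  -- the prime element of value less than one
  obtain ⟨π, hπ, hd, hs, hVπ⟩ : ∃ π : 𝓞 F, Prime π ∧ π ∣ (p : 𝓞 F) ∧ ¬ π ∣ cj π ∧ V.valuation (ak (AlgebraicClosure F) π) < 1 := by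
    by_cases h1 : V.valuation (ak (AlgebraicClosure F) π₀) < 1
    · exact ⟨π₀, hπ₀, hd₀, hs₀, h1⟩
    · refine ⟨cj π₀, H55K.cj_prime hπ₀, ?_, ?_, ?_⟩
      · rw [← hprod]
        exact dvd_mul_left _ _
      · rw [H55K.cj_cj]
        intro h2
        exact hs₀ ((H55K.cj_prime hπ₀).associated_of_dvd hπ₀ h2).symm.dvd
      · by_contra h2
        have h3 : V.valuation (ak (AlgebraicClosure F) π₀) = 1 := le_antisymm (H55K.ak_le V _) (not_lt.1 h1)
        have h4 : V.valuation (ak (AlgebraicClosure F) (cj π₀)) = 1 := le_antisymm (H55K.ak_le V _) (not_lt.1 h2)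
        have e2 : (p : AlgebraicClosure F) = ak (AlgebraicClosure F) π₀ * ak (AlgebraicClosure F) (cj π₀) := by
          have e3 : ak (AlgebraicClosure F) (π₀ * cj π₀) = ak (AlgebraicClosure F) π₀ * ak (AlgebraicClosure F) (cj π₀) := by
            unfold ak
            simp
          rw [← e3, hprod]
          unfold ak
          simp
        rw [e2, map_mul, h3, h4, mul_one] at hVp
        exact lt_irrefl _ hVp
  obtain ⟨hπp, u, v', huv⟩ := tors_split (Ω := AlgebraicClosure F) dta.cma dta.prime dta.unr hπ hd hs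
  have hb : V.valuation (ak (AlgebraicClosure F) (cj π)) = 1 := l2_unit hVπ huv
  obtain ⟨Θ, hΘ, hΘK⟩ := short_iso2 (Ω := AlgebraicClosure F) W₀ hA hB hH.data.ell V hG.two hG.three
  refine alt_iso Θ hΘ (alt_wab dta hπ hd hs hVπ N K ?_)
  intro T hT hf
  refine fix_tower dta.cma dta.prime (H55K.cj_prime hπ).ne_zero ?_ hL (hNK.trans hKL) V (fun T hT hf => ?_) T hT hf
  · rw [← hπp]
    exact dvd_mul_left _ _
  -- no fixed points over M
  have hpT : p • T = 0 := by
    rw [← H55K.S.act_nat (act := act), ← hπp, H55K.S.act_mul, hT, map_zero]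
  obtain ⟨T', rfl⟩ := Θ.surjective T
  have h1 : T' = 0 := by
    refine fix_etale W₀ p hp.prime M V v hV hΔ hc T' ?_ (fun n hn => ?_) (fun s hs hd => ?_)
    · apply Θ.injective
      rw [map_nsmul, map_zero]
      exact hpT
    · rw [← hΘK, map_nsmul] at hn
      apply Θ.injective
      rw [map_nsmul, map_zero]
      refine H55K.tor_unit dta.cma hG hb ?_ hn
      show act (cj π) (n • Θ T') = 0
      rw [map_nsmul, hT, smul_zero]
    · apply Θ.injective
      rw [hΘ]
      exact hf s ⟨hs, hd⟩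
  rw [h1, map_zero]

end H19B
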