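import Mathlib
import Pool.Agent.Lib.H55P.S6

/-! # H19B, chunk L7 (S/M): the vanishing of the Selmer group implies that there is no p-torsion -/

open NumberField IsDedekindDomain WeierstrassCurve

namespace H19B

open H55P

variable {F : Type} [Field F] [NumberField F] {Ω : Type} [Field Ω] [DecidableEq Ω] [Algebra F Ω]
  [IsAlgClosed Ω] [Algebra.IsAlgebraic F Ω] [CharZero Ω]

/-- Chunk L7 (S/M). PROOF. H55P.pts_fin: E(K) is finite of order prime to p. T = 0 or T = (x, y) with x, y fixed by K.fixingSubgroup, so x, y in K (fixed field of the fixing subgroup of K: Ω/F Galois or InfiniteGalois.fixedField_fixingSubgroup; see the proof of pts_fin or H55P.tors_of_prime for the descent of a point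
to K: Affine.Point.map of a point of E(K)), so T is the image of a point T' of E(K) with p T' = 0 (the map is injective), T' = 0 (addOrderOf divides p and the order of the group). -/
theorem tors_of_sel (W : WeierstrassCurve F) [W.IsElliptic] (p : ℕ) (hp : p.Prime) (K : IntermediateField F Ω)
    [FiniteDimensional F K] (hS : SelZero W p K) (T : Pt W Ω) (hT : p • T = 0) (hf : ∀ s ∈ K.fixingSubgroup, ac W s T = T) : T = 0 := by
  classical
  obtain ⟨T', hT'⟩ := (fix_iff W K T).1 hf
  obtain ⟨hfin, hcard⟩ := pts_fin W p hp K hS
  have hinj : Function.Injective (Affine.Point.map (W' := W.toAffine) K.val) :=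
    Affine.Point.map_injective _
  have h1 : p • T' = 0 := by
    refine hinj ?_
    rw [map_nsmul, hT', hT, map_zero]
  have h2 : addOrderOf T' ∣ p := addOrderOf_dvd_of_nsmul_eq_zero h1
  have h3 : addOrderOf T' ∣ Nat.card (Pt W K) := addOrderOf_dvd_natCard T'
  rcases (Nat.dvd_prime hp).1 h2 with h | h
  · have h4 : T' = 0 := AddMonoid.addOrderOf_eq_one_iff.1 h
    rw [← hT', h4, map_zero]
  · exact absurd (h ▸ h3) hcard

end H19B
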