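import Mathlib
import Pool.Agent.Lib.H13R.E1
import Pool.Agent.Lib.H19B.ST3
import Pool.Agent.Lib.H19B.L7
import Pool.Agent.Lib.H19B.L8

/-! # H19B: Selmer groups in p-extensions which may be ramified above p (p split) -/

open NumberField IsDedekindDomain WeierstrassCurve

namespace H19B

open H55P (IQ embF eF LF Per IsHecke Pt ac acR Inert Dec Nm UnitP Ram RamF PExt SelG ShaG PtsG clos UnrP)
open H35P (WAB Ker tt GoodW IntW)
open H55K.TQ
open H13R (BadM NoRel)

variable {F : Type} [Field F] [NumberField F] [IQ F] {W₀ : WeierstrassCurve (𝓞 F)} {Om : ℂ}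
    {m : Ideal (𝓞 F)} {ψ : Ideal (𝓞 F) →*₀ 𝓞 F} {p : ℕ}

open Classical in
/-- The tower theorem over M, p split in F, arbitrary ramification above p. -/
theorem selB (hH : BaseH F W₀ Om m ψ) (hp : PrimeH F W₀ p) (hsp : Spl F p) {M L K : IntermediateField F (AlgebraicClosure F)}
    [NumberField M] [NumberField K] (hB : BadM W₀ M) (hL : PExt p M L) (hMK : M ≤ K) (hK : K ≤ L)
    (hN : NoRel p W₀ M K) (hS : SelG p W₀ M) : SelG p W₀ K ∧ ShaG p W₀ K ∧ PtsG p W₀ K := by
  have hLf : FiniteDimensional F L := hL.fin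
  have hKf : FiniteDimensional F K := H55P.finDim_of_le hK
  have hMf : FiniteDimensional F M := H55P.finDim_of_le hL.le
  have hell : (W₀⁄F).IsElliptic := H55P.gen_ell W₀ hH.data.ell
  have hC' := H55P.clos_pext p hp.prime M K L hL hMK hK
  have h0 : ∀ T : Pt (W₀⁄F) (AlgebraicClosure F), p • T = 0 →
      (∀ s ∈ M.fixingSubgroup, ac (W₀⁄F) s T = T) → T = 0 := fun T hT hf =>
    tors_of_sel (W₀⁄F) p hp.prime M hS T hT hf
  have hSK : H55P.SelZero (W₀⁄F) p K := sel_towerG W₀ p hp.prime M (clos M K) hC' h0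
    (fun s _ t _ T hT => H55K.NB.comm_tors hH hp.prime s t T hT)
    (fun v hv => by
      have hv' := H55P.clos_ram M K L hMK hK hL.norm v hv
      by_cases hpv : (p : 𝓞 M) ∈ v.asIdeal
      · right
        have hΔ : algebraMap (𝓞 F) (𝓞 M) W₀.Δ ∉ v.asIdeal := by
          intro hΔ
          obtain ⟨a, ha, b, hb, hab⟩ := (Ideal.isCoprime_iff_exists.1 hp.cop)
          rw [Ideal.mem_span_singleton] at ha hb
          obtain ⟨a, rfl⟩ := ha
          obtain ⟨b, rfl⟩ := hb
          apply v.isPrime.ne_top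
          rw [Ideal.eq_top_iff_one]
          have e : (1 : 𝓞 M) = algebraMap (𝓞 F) (𝓞 M) W₀.Δ * algebraMap (𝓞 F) (𝓞 M) a + (p : 𝓞 M) * algebraMap (𝓞 F) (𝓞 M) b := by
            rw [← map_one (algebraMap (𝓞 F) (𝓞 M)), ← hab, map_add, map_mul, map_mul, map_natCast]
          rw [e]
          exact v.asIdeal.add_mem (v.asIdeal.mul_mem_right _ hΔ) (v.asIdeal.mul_mem_right _ hpv)
        intro V hV N K' hMN hNK hKL
        exact alt_w0 hH hp hsp hC' v hpv hΔ (hN v hv' hΔ) V hV N K' hMN hNK hKL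
      · left
        refine ⟨hpv, ?_⟩
        by_cases hΔ : algebraMap (𝓞 F) (𝓞 M) W₀.Δ ∈ v.asIdeal
        · right
          intro V hV T hT hf
          exact H13R.bad_torsR hH hp hL (H55P.clos_le M K L hK hL.norm) hB (V := V) (v := v) (fun a ha => (hV _).1 ha) hΔ T hT hf
        · left
          exact ⟨hΔ, hN v hv' hΔ⟩) hS K hMK (H55P.le_clos M K)
  exact ⟨hSK, H55P.sha_zero (W₀⁄F) p hp.prime K hSK, H55P.pts_fin (W₀⁄F) p hp.prime K hSK⟩

open Classical in
/-- Descent of the vanishing of the Selmer group from K to M. -/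
theorem sel_downB (hH : BaseH F W₀ Om m ψ) (hp : PrimeH F W₀ p) {M L K : IntermediateField F (AlgebraicClosure F)}
    [NumberField M] (hL : PExt p M L) (hMK : M ≤ K) (hK : K ≤ L) (hS : SelG p W₀ K) : SelG p W₀ M := by
  have hLf : FiniteDimensional F L := hL.fin
  have hell : (W₀⁄F).IsElliptic := H55P.gen_ell W₀ hH.data.ell
  induction hn : Module.finrank F K using Nat.strong_induction_on generalizing K with
  | _ n ih =>
    rcases eq_or_ne K M with rfl | hne
    · exact hS
    obtain ⟨N, hMN, hNK, hdeg, hnorm⟩ := H55P.chain_step p hp.prime M K L hL hMK hK hne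
    have hKf : FiniteDimensional F K := H55P.finDim_of_le hK
    have hNf : FiniteDimensional F N := H55P.finDim_of_le hNK
    have hNpos : 0 < Module.finrank F N := Module.finrank_pos
    have hlt : Module.finrank F N < n := by
      rw [← hn, hdeg]
      exact lt_mul_of_one_lt_right hNpos hp.prime.one_lt
    refine ih _ hlt hMN (hNK.trans hK) ?_ rfl
    refine H55P.sel_down (W₀⁄F) p N K hNK (fun s hs t ht => ?_) (fun T hT hf => tors_of_sel (W₀⁄F) p hp.prime K hS T hT hf) hS
    rw [IntermediateField.mem_fixingSubgroup_iff] at ht ⊢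
    intro x hx
    have e : (s * t * s⁻¹) x = s (t (s⁻¹ x)) := rfl
    have h1 : s⁻¹ x ∈ K := hnorm s⁻¹ (inv_mem hs) x hx
    rw [e, ht _ h1]
    exact s.apply_symm_apply x

end H19B
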